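import Pool.Agent.Helper679_TR.Sep

/-! The abstract argument: a treeing of a lattice action and commuting flows. -/

namespace Pool.Agent.Helper679_TR

open Set MeasureTheory Filter
open scoped ENNReal Topology

set_option linter.unusedSectionVars false
set_option linter.deprecated false

section meas

variable {V X : Type} [Countable V] [MeasurableSpace X]

theorem measurable_reach {T : X → SimpleGraph V} (h : ∀ s t, MeasurableSet {x | (T x).Adj s t})
    (u v : V) : MeasurableSet {x | (T x).Reachable u v} := by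
  have key : ∀ n : ℕ, ∀ u v, MeasurableSet {x | ∃ p : (T x).Walk u v, p.length = n} := by
    intro n
    induction n with
    | zero =>
      intro u v
      by_cases huv : u = v
      · convert MeasurableSet.univ using 1
        rw [Set.eq_univ_iff_forall]
        intro x
        subst huv
        exact ⟨SimpleGraph.Walk.nil, rfl⟩
      · convert MeasurableSet.empty using 1
        rw [Set.eq_empty_iff_forall_notMem]
        rintro x ⟨p, hp⟩
        exact huv (SimpleGraph.Walk.eq_of_length_eq_zero hp)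
    | succ n ih =>
      intro u v
      have : {x | ∃ p : (T x).Walk u v, p.length = n + 1} =
          ⋃ w, ({x | (T x).Adj u w} ∩ {x | ∃ p : (T x).Walk w v, p.length = n}) := by
        ext x
        simp only [Set.mem_setOf_eq, Set.mem_iUnion, Set.mem_inter_iff]
        constructor
        · rintro ⟨p, hp⟩
          cases p with
          | nil => simp at hp
          | @cons _ w _ hw p => exact ⟨w, hw, p, by simpa using hp⟩
        · rintro ⟨w, hw, p, hp⟩
          exact ⟨SimpleGraph.Walk.cons hw p, by simpa using hp⟩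
      rw [this]
      exact MeasurableSet.iUnion fun w => (h u w).inter (ih w v)
  have : {x | (T x).Reachable u v} = ⋃ n, {x | ∃ p : (T x).Walk u v, p.length = n} := by
    ext x
    simp only [Set.mem_setOf_eq, Set.mem_iUnion]
    exact ⟨fun ⟨p⟩ => ⟨p.length, p, rfl⟩, fun ⟨n, p, _⟩ => ⟨p⟩⟩
  rw [this]
  exact MeasurableSet.iUnion fun n => key n u v

theorem measurable_sp {T : X → SimpleGraph V} (h : ∀ s t, MeasurableSet {x | (T x).Adj s t})
    (u v s t : V) : MeasurableSet {x | Sp (T x) u v s t} := by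
  have h1 : ∀ a b, MeasurableSet {x | ((T x).deleteEdges {s(s, t)}).Adj a b} := by
    intro a b
    simp only [SimpleGraph.deleteEdges_adj, Set.setOf_and]
    exact (h a b).inter (MeasurableSet.const _)
  exact (h s t).inter (measurable_reach h1 u v).compl

theorem measurable_wt {T : X → SimpleGraph V} (h : ∀ s t, MeasurableSet {x | (T x).Adj s t})
    (c : V → V → ℝ≥0∞) (u v s t : V) : Measurable fun x => wt c (T x) u v s t := by
  unfold wt
  exact Measurable.ite (measurable_sp h u v s t) measurable_const measurable_const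

theorem measurable_ms {T : X → SimpleGraph V} (h : ∀ s t, MeasurableSet {x | (T x).Adj s t})
    (c : V → V → ℝ≥0∞) (u v s : V) : Measurable fun x => ms c (T x) u v s := by
  unfold ms
  exact Measurable.ennreal_tsum fun t => measurable_wt h c u v s t

theorem measurable_ds {T : X → SimpleGraph V} (h : ∀ s t, MeasurableSet {x | (T x).Adj s t})
    (c : V → V → ℝ≥0∞) (u v : V) : Measurable fun x => ds c (T x) u v := by
  unfold ds
  exact Measurable.ennreal_tsum fun t => measurable_ms h c u v t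

theorem measurable_glue {Y : Type} [MeasurableSpace Y] {f : V → X → Y}
    (hf : ∀ v, Measurable (f v)) {σ : X → V} (hσ : ∀ g, MeasurableSet {x | σ x = g}) :
    Measurable fun x => f (σ x) x := by
  intro A hA
  have : (fun x => f (σ x) x) ⁻¹' A = ⋃ g, ({x | σ x = g} ∩ f g ⁻¹' A) := by
    ext x
    simp
  rw [this]
  exact MeasurableSet.iUnion fun g => (hσ g).inter (hf g hA)

end meas

/-- the data of a treeing of an action with a finite fundamental domain -/
structure Base (Γ X : Type) [Group Γ] [MulAction Γ X] [MeasurableSpace X] where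
  μ : Measure X
  act : ∀ h : Γ, MeasurePreserving (fun x : X => h • x) μ μ
  T : X → SimpleGraph Γ
  tree : ∀ x, (T x).IsTree
  Tm : ∀ s t, MeasurableSet {x | (T x).Adj s t}
  Te : ∀ (h : Γ) x s t, (T (h • x)).Adj s t ↔ (T x).Adj (s * h) (t * h)
  σ : X → Γ
  σm : ∀ g, MeasurableSet {x | σ x = g}
  σe : ∀ (h : Γ) x, σ (h • x) = σ x * h⁻¹
  fin : μ {x | σ x = 1} ≠ ∞
  ρ : Γ → ℝ≥0∞
  ρt : ∀ g, ρ g ≠ ∞
  ρ1 : ρ 1 = 0
  ρm : ∀ g h, ρ (g * h) ≤ ρ g + ρ h
  ρf : ∀ K : ℝ≥0∞, K ≠ ∞ → {g | ρ g ≤ K}.Finite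

variable {Γ X : Type} [Group Γ] [Countable Γ] [MulAction Γ X] [MeasurableSpace X]

namespace Base

variable (B : Base Γ X)

/-- the fundamental domain -/
def F : Set X := {x | B.σ x = 1}

/-- the costs -/
noncomputable def c (s t : Γ) : ℝ≥0∞ := B.ρ (t * s⁻¹)

theorem mF : MeasurableSet B.F := B.σm 1

theorem c0 (s : Γ) : B.c s s = 0 := by
  unfold c
  rw [mul_inv_cancel, B.ρ1]

theorem ctri (s t w : Γ) : B.c s w ≤ B.c s t + B.c t w := by
  unfold c
  have : w * s⁻¹ = (w * t⁻¹) * (t * s⁻¹) := by group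
  rw [this, add_comm]
  exact B.ρm _ _

theorem cinv (s t h : Γ) : B.c (s * h) (t * h) = B.c s t := by
  unfold c
  congr 1
  group

/-- a flow: preserves the measure and the trees and commutes with the action -/
structure Fl (f : X → X) : Prop where
  mp : MeasurePreserving f B.μ B.μ
  comm : ∀ (h : Γ) x, f (h • x) = h • f x
  inv : ∀ x, B.T (f x) = B.T x

/-- displacement -/
noncomputable def D (f : X → X) (x : X) : ℝ≥0∞ := ds B.c (B.T x) (B.σ x) (B.σ (f x))

/-- mass -/
noncomputable def m (f : X → X) (x : X) (s : Γ) : ℝ≥0∞ := ms B.c (B.T x) (B.σ x) (B.σ (f x)) s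

/-- normalised mass at the identity -/
noncomputable def xi (f : X → X) (x : X) : ℝ≥0∞ := B.m f x 1 / B.D f x

variable {B}

theorem D_ne_top (f : X → X) (x : X) : B.D f x ≠ ∞ :=
  ds_ne_top (B.tree x).1 (fun _ _ => B.ρt _) _ _

theorem D_inv {f : X → X} (hf : B.Fl f) (h : Γ) (x : X) : B.D f (h • x) = B.D f x := by
  unfold D
  rw [ds_iso (G' := B.T x) (Equiv.mulRight h) (B.Te h x) (fun s t => B.cinv s t h)]
  simp only [Equiv.coe_mulRight]
  rw [hf.comm, B.σe, B.σe]
  simp

theorem m_inv {f : X → X} (hf : B.Fl f) (h : Γ) (x : X) : B.m f (h • x) 1 = B.m f x h := by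
  unfold m
  rw [ms_iso (G' := B.T x) (Equiv.mulRight h) (B.Te h x) (fun s t => B.cinv s t h)]
  simp only [Equiv.coe_mulRight]
  rw [hf.comm, B.σe, B.σe]
  simp

theorem m_sum {f : X → X} (hf : B.Fl f) (x : X) : ∑' h : Γ, B.m f (h • x) 1 = B.D f x := by
  simp only [m_inv hf]
  rfl

theorem σf_m {f : X → X} (hf : B.Fl f) (g : Γ) : MeasurableSet {x | B.σ (f x) = g} :=
  hf.mp.measurable (B.σm g)

theorem D_m {f : X → X} (hf : B.Fl f) : Measurable (B.D f) := by
  unfold D
  refine measurable_glue (f := fun u x => ds B.c (B.T x) u (B.σ (f x))) (fun u => ?_) B.σm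
  exact measurable_glue (f := fun v x => ds B.c (B.T x) u v) (fun v => measurable_ds B.Tm _ _ _)
    (σf_m hf)

theorem m_m {f : X → X} (hf : B.Fl f) (s : Γ) : Measurable fun x => B.m f x s := by
  unfold m
  refine measurable_glue (f := fun u x => ms B.c (B.T x) u (B.σ (f x)) s) (fun u => ?_) B.σm
  exact measurable_glue (f := fun v x => ms B.c (B.T x) u v s)
    (fun v => measurable_ms B.Tm _ _ _ _) (σf_m hf)

theorem xi_m {f : X → X} (hf : B.Fl f) : Measurable (B.xi f) := (m_m hf 1).div (D_m hf)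

/-- unfolding over the fundamental domain -/
theorem unfold_int {φ : X → ℝ≥0∞} (hφ : Measurable φ) :
    ∫⁻ x, φ x ∂B.μ = ∫⁻ x in B.F, ∑' h : Γ, φ (h • x) ∂B.μ := by
  have h1 : (⋃ g : Γ, {x | B.σ x = g}) = Set.univ := by
    ext x
    simp
  have h2 : Pairwise (Function.onFun Disjoint fun g : Γ => {x | B.σ x = g}) := by
    intro g g' hg
    rw [Function.onFun, Set.disjoint_left]
    intro x hx hx'
    exact hg (hx.symm.trans hx')
  have h3 : ∀ g : Γ, ∫⁻ x in {x | B.σ x = g}, φ x ∂B.μ = ∫⁻ x in B.F, φ (g⁻¹ • x) ∂B.μ := by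
    intro g
    rw [← (B.act g⁻¹).setLIntegral_comp_preimage (B.σm g) hφ]
    congr 2
    ext x
    simp only [Set.mem_preimage, Set.mem_setOf_eq, F, B.σe, inv_inv]
    constructor
    · intro h
      exact mul_eq_right.1 h
    · intro h
      rw [h, one_mul]
  calc ∫⁻ x, φ x ∂B.μ = ∫⁻ x in (⋃ g : Γ, {x | B.σ x = g}), φ x ∂B.μ := by
        rw [h1, Measure.restrict_univ]
    _ = ∑' g : Γ, ∫⁻ x in {x | B.σ x = g}, φ x ∂B.μ := lintegral_iUnion B.σm h2 _
    _ = ∑' g : Γ, ∫⁻ x in B.F, φ (g⁻¹ • x) ∂B.μ := by simp only [h3]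
    _ = ∑' g : Γ, ∫⁻ x in B.F, φ (g • x) ∂B.μ :=
        (Equiv.inv Γ).tsum_eq fun g => ∫⁻ x in B.F, φ (g • x) ∂B.μ
    _ = ∫⁻ x in B.F, ∑' h : Γ, φ (h • x) ∂B.μ := by
        rw [lintegral_tsum]
        intro g
        exact (hφ.comp (B.act g).measurable).aemeasurable

/-- invariant sets -/
def Inv (Γ : Type) {X : Type} [Group Γ] [MulAction Γ X] (A : Set X) : Prop :=
  ∀ (h : Γ) x, h • x ∈ A ↔ x ∈ A

theorem meas_inv {f : X → X} (hf : B.Fl f) {A : Set X} (hA : MeasurableSet A) (hi : Inv Γ A) :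
    B.μ (B.F ∩ f ⁻¹' A) = B.μ (B.F ∩ A) := by
  classical
  have h1 : B.μ (B.F ∩ A) = B.μ (f ⁻¹' (B.F ∩ A)) :=
    (hf.mp.measure_preimage (B.mF.inter hA).nullMeasurableSet).symm
  rw [h1]
  have hm : MeasurableSet (f ⁻¹' (B.F ∩ A)) := hf.mp.measurable (B.mF.inter hA)
  rw [← lintegral_indicator_one hm, unfold_int (measurable_one.indicator hm)]
  have h2 : ∀ x, ∑' h : Γ, (f ⁻¹' (B.F ∩ A)).indicator (1 : X → ℝ≥0∞) (h • x) =
      (f ⁻¹' A).indicator 1 x := by
    intro x
    rw [tsum_eq_single (B.σ (f x))]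
    · have e1 : (B.σ (f x) • x ∈ f ⁻¹' (B.F ∩ A)) ↔ x ∈ f ⁻¹' A := by
        simp only [Set.mem_preimage, Set.mem_inter_iff, hf.comm, F, Set.mem_setOf_eq, B.σe,
          mul_inv_cancel, true_and]
        exact hi _ _
      by_cases hx : x ∈ f ⁻¹' A
      · rw [Set.indicator_of_mem hx, Set.indicator_of_mem (e1.2 hx)]
        rfl
      · rw [Set.indicator_of_notMem hx, Set.indicator_of_notMem (fun h => hx (e1.1 h))]
    · intro h hh
      apply Set.indicator_of_notMem
      intro h3
      apply hh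
      have h4 : B.σ (f (h • x)) = 1 := h3.1
      rw [hf.comm, B.σe] at h4
      exact (mul_inv_eq_one.1 h4).symm
  simp only [h2]
  rw [lintegral_indicator (hf.mp.measurable hA), Measure.restrict_restrict (hf.mp.measurable hA)]
  simp [Set.inter_comm]

theorem xi_sum_le {f : X → X} (hf : B.Fl f) (x : X) : ∑' h : Γ, B.xi f (h • x) ≤ 1 := by
  unfold xi
  simp only [D_inv hf, div_eq_mul_inv]
  rw [ENNReal.tsum_mul_right, m_sum hf]
  exact ENNReal.mul_inv_le_one _

theorem xi_sum_eq {f : X → X} (hf : B.Fl f) (x : X) (h0 : B.D f x ≠ 0) :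
    ∑' h : Γ, B.xi f (h • x) = 1 := by
  unfold xi
  simp only [D_inv hf, div_eq_mul_inv]
  rw [ENNReal.tsum_mul_right, m_sum hf]
  exact ENNReal.mul_inv_cancel h0 (D_ne_top f x)

theorem int_xi_inv {f : X → X} (hf : B.Fl f) {A : Set X} (hA : MeasurableSet A)
    (hi : Inv Γ A) : ∫⁻ x in A, B.xi f x ∂B.μ ≤ B.μ (B.F ∩ A) := by
  classical
  rw [← lintegral_indicator hA, unfold_int ((xi_m hf).indicator hA)]
  have h2 : ∀ x, ∑' h : Γ, A.indicator (B.xi f) (h • x) ≤ A.indicator 1 x := by
    intro x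
    by_cases hx : x ∈ A
    · rw [Set.indicator_of_mem hx]
      have : ∀ h : Γ, A.indicator (B.xi f) (h • x) = B.xi f (h • x) := fun h =>
        Set.indicator_of_mem ((hi h x).2 hx) _
      simp only [this]
      exact xi_sum_le hf x
    · rw [Set.indicator_of_notMem hx]
      have : ∀ h : Γ, A.indicator (B.xi f) (h • x) = 0 := fun h =>
        Set.indicator_of_notMem (fun h1 => hx ((hi h x).1 h1)) _
      simp only [this, tsum_zero, le_refl]
  refine (lintegral_mono h2).trans ?_
  rw [lintegral_indicator hA, Measure.restrict_restrict hA]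
  simp [Set.inter_comm]

theorem int_xi {f : X → X} (hf : B.Fl f) : ∫⁻ x, B.xi f x ∂B.μ ≤ B.μ B.F := by
  have := int_xi_inv hf MeasurableSet.univ (fun _ _ => by simp)
  simpa using this

theorem int_xi_ge {f : X → X} (hf : B.Fl f) :
    B.μ B.F ≤ ∫⁻ x, B.xi f x ∂B.μ + B.μ (B.F ∩ {x | B.D f x = 0}) := by
  classical
  have hm : MeasurableSet {x | B.D f x = 0} := D_m hf (measurableSet_singleton 0)
  rw [unfold_int (xi_m hf)]
  have h1 : B.μ (B.F ∩ {x | B.D f x = 0}) =
      ∫⁻ x in B.F, {x | B.D f x = 0}.indicator 1 x ∂B.μ := by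
    rw [lintegral_indicator hm, Measure.restrict_restrict hm]
    simp [Set.inter_comm]
  rw [h1, ← lintegral_add_right _ (measurable_one.indicator hm)]
  have h2 : B.μ B.F = ∫⁻ x in B.F, 1 ∂B.μ := by simp
  rw [h2]
  refine lintegral_mono fun x => ?_
  by_cases hx : B.D f x = 0
  · have : x ∈ {x | B.D f x = 0} := hx
    simp only [Set.indicator_of_mem this, Pi.one_apply]
    exact le_add_self
  · simp only [xi_sum_eq hf x hx]
    exact le_self_add

end Base

end Pool.Agent.Helper679_TR
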