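import Pool.Agent.Helper679_TR.Abs

/-! The abstract argument, second part. -/

namespace Pool.Agent.Helper679_TR

open Set MeasureTheory Filter
open scoped ENNReal Topology

set_option linter.unusedSectionVars false
set_option linter.deprecated false

variable {Γ X : Type} [Group Γ] [Countable Γ] [MulAction Γ X] [MeasurableSpace X]

namespace Base

variable {B : Base Γ X}

/-- the points where something is out of control -/
def bad (B : Base Γ X) (R K : ℝ≥0∞) (q f : X → X) : Set X :=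
  {x | R < B.D q x} ∪ (f ⁻¹' {x | R < B.D q x} ∪ {x | B.D f x < K})

theorem gt_m {q : X → X} (hq : B.Fl q) (R : ℝ≥0∞) : MeasurableSet {x | R < B.D q x} :=
  measurableSet_lt measurable_const (D_m hq)

theorem lt_m {q : X → X} (hq : B.Fl q) (R : ℝ≥0∞) : MeasurableSet {x | B.D q x < R} :=
  measurableSet_lt (D_m hq) measurable_const

theorem gt_inv {q : X → X} (hq : B.Fl q) (R : ℝ≥0∞) : Inv Γ {x | R < B.D q x} := by
  intro h x
  simp only [Set.mem_setOf_eq, D_inv hq]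

theorem lt_inv {q : X → X} (hq : B.Fl q) (R : ℝ≥0∞) : Inv Γ {x | B.D q x < R} := by
  intro h x
  simp only [Set.mem_setOf_eq, D_inv hq]

theorem bad_m {q f : X → X} (hq : B.Fl q) (hf : B.Fl f) (R K : ℝ≥0∞) :
    MeasurableSet (B.bad R K q f) :=
  (gt_m hq R).union ((hf.mp.measurable (gt_m hq R)).union (lt_m hf K))

theorem bad_inv {q f : X → X} (hq : B.Fl q) (hf : B.Fl f) (R K : ℝ≥0∞) :
    Inv Γ (B.bad R K q f) := by
  intro h x
  have h1 := gt_inv hq R h x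
  have h2 := gt_inv hq R h (f x)
  have h3 := lt_inv hf K h x
  unfold bad
  simp only [Set.mem_union, Set.mem_preimage, hf.comm]
  rw [h1, h2, h3]

theorem compare {q f : X → X} (hq : B.Fl q) (hqf : ∀ x, q (f x) = f (q x)) {R K : ℝ≥0∞}
    (hK : K ≠ 0) (hf : B.Fl f) {x : X} (hx : x ∉ B.bad R K q f) :
    B.xi f x ≤ B.xi f (q x) * (1 + 2 * R / K) + (B.m q x 1 + B.m q (f x) 1) / K := by
  have g1 : B.D q x ≤ R := by
    by_contra h
    exact hx (Or.inl (not_le.1 h))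
  have g2 : B.D q (f x) ≤ R := by
    by_contra h
    exact hx (Or.inr (Or.inl (not_le.1 h)))
  have g3 : K ≤ B.D f x := by
    by_contra h
    exact hx (Or.inr (Or.inr (not_le.1 h)))
  have hd0 : B.D f x ≠ 0 := fun h => hK (by rw [h] at g3; exact le_bot_iff.1 g3)
  have hdt := D_ne_top (B := B) f x
  have hKt : K ≠ ∞ := ne_top_of_le_ne_top hdt g3
  -- the mass inequality
  have e1 : B.m f x 1 ≤ B.m f (q x) 1 + (B.m q x 1 + B.m q (f x) 1) := by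
    unfold m
    rw [hq.inv, hf.inv, ← hqf]
    exact ms_tri _ _ _ _ _
  have e2 : B.D f (q x) ≤ B.D f x + (B.D q x + B.D q (f x)) := by
    unfold D
    rw [hq.inv, hf.inv, ← hqf]
    have := ds_tri (c := B.c) (G := B.T x) (B.σ (q x)) (B.σ (q (f x))) (B.σ x) (B.σ (f x))
    rwa [ds_symm (B.σ (q x)) (B.σ x), ds_symm (B.σ (q (f x))) (B.σ (f x))] at this
  have e3 : B.D f (q x) ≤ (1 + 2 * R / K) * B.D f x := by
    refine e2.trans ?_
    rw [add_mul, one_mul]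
    gcongr
    calc B.D q x + B.D q (f x) ≤ R + R := by gcongr
      _ = 2 * R / K * K := by
          rw [ENNReal.div_mul_cancel hK hKt, two_mul]
      _ ≤ 2 * R / K * B.D f x := by gcongr
  have e4 : B.m f (q x) 1 / B.D f x ≤ B.xi f (q x) * (1 + 2 * R / K) := by
    unfold xi
    by_cases h0 : B.D f (q x) = 0
    · have : B.m f (q x) 1 = 0 := by
        have h1 : B.m f (q x) 1 ≤ B.D f (q x) := ms_le_ds _ _ _
        rw [h0] at h1
        exact le_bot_iff.1 h1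
      rw [this, ENNReal.zero_div]
      exact bot_le
    · apply ENNReal.div_le_of_le_mul
      calc B.m f (q x) 1 = B.m f (q x) 1 / B.D f (q x) * B.D f (q x) :=
            (ENNReal.div_mul_cancel h0 (D_ne_top _ _)).symm
        _ ≤ B.m f (q x) 1 / B.D f (q x) * ((1 + 2 * R / K) * B.D f x) := by gcongr
        _ = _ := by rw [mul_assoc]
  calc B.xi f x = B.m f x 1 / B.D f x := rfl
    _ ≤ (B.m f (q x) 1 + (B.m q x 1 + B.m q (f x) 1)) / B.D f x := by gcongr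
    _ = B.m f (q x) 1 / B.D f x + (B.m q x 1 + B.m q (f x) 1) / B.D f x := ENNReal.add_div
    _ ≤ _ := by gcongr

theorem step {q q' f : X → X} (hq : B.Fl q) (hqf : ∀ x, q (f x) = f (q x)) {R K : ℝ≥0∞}
    (hK : K ≠ 0) (hf : B.Fl f) (hq' : Measurable q') (hqq : ∀ x, q' (q x) = x)
    {E : Set X} (hE : MeasurableSet E) :
    ∫⁻ x in E, B.xi f x ∂B.μ ≤ ∫⁻ x in q' ⁻¹' E, B.xi f x ∂B.μ + (4 * R / K * B.μ B.F +
      B.μ (B.F ∩ B.bad R K q f)) := by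
  classical
  set bd := B.bad R K q f with hbd
  have hbm : MeasurableSet bd := bad_m hq hf R K
  have hbi : Inv Γ bd := bad_inv hq hf R K
  have hcm := hbm.compl
  have a1 : ∫⁻ x in E, B.xi f (q x) ∂B.μ = ∫⁻ x in q' ⁻¹' E, B.xi f x ∂B.μ := by
    rw [← hq.mp.setLIntegral_comp_preimage (hq' hE) (xi_m hf)]
    congr 2
    ext x
    simp [hqq]
  have a2 : ∫⁻ x, B.xi f (q x) ∂B.μ ≤ B.μ B.F := by
    have : ∫⁻ x, B.xi f (q x) ∂B.μ = ∫⁻ x, B.xi f x ∂B.μ :=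
      hq.mp.lintegral_comp (xi_m hf)
    rw [this]
    exact int_xi hf
  -- the error mass
  have hem : Measurable fun x => B.m q x 1 + B.m q (f x) 1 :=
    (m_m hq 1).add ((m_m hq 1).comp hf.mp.measurable)
  have a3 : ∫⁻ x in bdᶜ, (B.m q x 1 + B.m q (f x) 1) ∂B.μ ≤ 2 * R * B.μ B.F := by
    rw [← lintegral_indicator hcm, unfold_int (hem.indicator hcm)]
    have h2 : ∀ x, ∑' h : Γ, (bdᶜ).indicator (fun x => B.m q x 1 + B.m q (f x) 1) (h • x) ≤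
        2 * R := by
      intro x
      by_cases hx : x ∈ bd
      · have : ∀ h : Γ, (bdᶜ).indicator (fun x => B.m q x 1 + B.m q (f x) 1) (h • x) = 0 :=
          fun h => Set.indicator_of_notMem (fun h1 : h • x ∈ bdᶜ => h1 ((hbi h x).2 hx)) _
        simp only [this, tsum_zero]
        exact bot_le
      · have : ∀ h : Γ, (bdᶜ).indicator (fun x => B.m q x 1 + B.m q (f x) 1) (h • x) =
            B.m q (h • x) 1 + B.m q (h • f x) 1 := by
          intro h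
          have h3 : h • x ∈ bdᶜ := fun h1 => hx ((hbi h x).1 h1)
          rw [Set.indicator_of_mem h3, hf.comm]
        simp only [this]
        rw [ENNReal.tsum_add, m_sum hq, m_sum hq, two_mul]
        have g1 : B.D q x ≤ R := by
          by_contra h
          exact hx (Or.inl (not_le.1 h))
        have g2 : B.D q (f x) ≤ R := by
          by_contra h
          exact hx (Or.inr (Or.inl (not_le.1 h)))
        gcongr
    calc ∫⁻ x in B.F, ∑' h : Γ, (bdᶜ).indicator (fun x => B.m q x 1 + B.m q (f x) 1) (h • x)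
          ∂B.μ ≤ ∫⁻ x in B.F, 2 * R ∂B.μ := lintegral_mono h2
      _ = 2 * R * B.μ B.F := by simp
  have a4 : ∫⁻ x in E ∩ bdᶜ, B.xi f x ∂B.μ ≤ ∫⁻ x in E, B.xi f (q x) ∂B.μ +
      4 * R / K * B.μ B.F := by
    have hm1 : Measurable fun x => B.xi f (q x) := (xi_m hf).comp hq.mp.measurable
    calc ∫⁻ x in E ∩ bdᶜ, B.xi f x ∂B.μ ≤ ∫⁻ x in E ∩ bdᶜ, (B.xi f (q x) +
          (B.xi f (q x) * (2 * R / K) + (B.m q x 1 + B.m q (f x) 1) * K⁻¹)) ∂B.μ := by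
          apply setLIntegral_mono' (hE.inter hcm)
          intro x hx
          have := compare hq hqf hK hf (R := R) hx.2
          rw [mul_add, mul_one, add_assoc] at this
          exact this
      _ = ∫⁻ x in E ∩ bdᶜ, B.xi f (q x) ∂B.μ + (∫⁻ x in E ∩ bdᶜ, B.xi f (q x) * (2 * R / K) ∂B.μ
          + ∫⁻ x in E ∩ bdᶜ, (B.m q x 1 + B.m q (f x) 1) * K⁻¹ ∂B.μ) := by
          rw [lintegral_add_left hm1, lintegral_add_left (hm1.mul_const _)]
      _ ≤ ∫⁻ x in E, B.xi f (q x) ∂B.μ + (∫⁻ x, B.xi f (q x) * (2 * R / K) ∂B.μ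
          + ∫⁻ x in bdᶜ, (B.m q x 1 + B.m q (f x) 1) * K⁻¹ ∂B.μ) := by
          gcongr
          · exact Set.inter_subset_left
          · exact Measure.restrict_le_self
          · exact Set.inter_subset_right
      _ = ∫⁻ x in E, B.xi f (q x) ∂B.μ + ((∫⁻ x, B.xi f (q x) ∂B.μ) * (2 * R / K)
          + (∫⁻ x in bdᶜ, (B.m q x 1 + B.m q (f x) 1) ∂B.μ) * K⁻¹) := by
          rw [lintegral_mul_const _ hm1, lintegral_mul_const _ hem]
      _ ≤ ∫⁻ x in E, B.xi f (q x) ∂B.μ + (B.μ B.F * (2 * R / K) + (2 * R * B.μ B.F) * K⁻¹) := by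
          gcongr
      _ = _ := by
          congr 1
          rw [div_eq_mul_inv, div_eq_mul_inv]
          ring
  calc ∫⁻ x in E, B.xi f x ∂B.μ ≤ ∫⁻ x in (E ∩ bdᶜ) ∪ bd, B.xi f x ∂B.μ := by
        apply lintegral_mono_set
        intro x hx
        by_cases h : x ∈ bd
        · exact Or.inr h
        · exact Or.inl ⟨hx, h⟩
    _ ≤ ∫⁻ x in E ∩ bdᶜ, B.xi f x ∂B.μ + ∫⁻ x in bd, B.xi f x ∂B.μ := lintegral_union_le _ _ _
    _ ≤ (∫⁻ x in E, B.xi f (q x) ∂B.μ + 4 * R / K * B.μ B.F) + B.μ (B.F ∩ bd) := by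
        gcongr
        exact int_xi_inv hf hbm hbi
    _ = _ := by rw [a1, add_assoc]

theorem tendsto_gt {q : X → X} (hq : B.Fl q) :
    Tendsto (fun R : ℕ => B.μ (B.F ∩ {x | (R : ℝ≥0∞) < B.D q x})) atTop (𝓝 0) := by
  have h1 : (⋂ R : ℕ, (B.F ∩ {x | (R : ℝ≥0∞) < B.D q x})) = ∅ := by
    rw [Set.eq_empty_iff_forall_notMem]
    intro x hx
    rw [Set.mem_iInter] at hx
    obtain ⟨n, hn⟩ := ENNReal.exists_nat_gt (D_ne_top (B := B) q x)
    exact lt_asymm hn (hx n).2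
  have h2 := tendsto_measure_iInter_atTop (μ := B.μ)
    (s := fun R : ℕ => B.F ∩ {x | (R : ℝ≥0∞) < B.D q x})
    (fun R => (B.mF.inter (gt_m hq _)).nullMeasurableSet)
    (fun R R' hR x hx => ⟨hx.1, lt_of_le_of_lt (Nat.cast_le.2 hR : (R : ℝ≥0∞) ≤ R') hx.2⟩)
    ⟨0, ne_top_of_le_ne_top B.fin (measure_mono Set.inter_subset_left)⟩
  rw [h1, measure_empty] at h2
  exact h2

theorem tendsto_lt {z : ℕ → X → X}
    (H3 : ∀ g, Tendsto (fun n => B.μ {x | B.σ x = 1 ∧ B.σ (z n x) = g}) atTop (𝓝 0))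
    {K : ℝ≥0∞} (hK : K ≠ ∞) :
    Tendsto (fun n => B.μ (B.F ∩ {x | B.D (z n) x < K})) atTop (𝓝 0) := by
  have hfin := B.ρf K hK
  have h1 : Tendsto (fun n => ∑ g ∈ hfin.toFinset, B.μ {x | B.σ x = 1 ∧ B.σ (z n x) = g}) atTop
      (𝓝 (∑ g ∈ hfin.toFinset, 0)) := tendsto_finset_sum _ fun g _ => H3 g
  rw [Finset.sum_const_zero] at h1
  refine tendsto_of_tendsto_of_tendsto_of_le_of_le tendsto_const_nhds h1 (fun _ => bot_le) ?_
  intro n
  refine le_trans (measure_mono ?_) (measure_biUnion_finset_le _ _)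
  rintro x ⟨hx1, hx2⟩
  have hx3 : B.σ x = 1 := hx1
  rw [Set.mem_iUnion₂]
  refine ⟨B.σ (z n x), ?_, hx1, rfl⟩
  rw [Set.Finite.mem_toFinset]
  have h2 : B.c (B.σ x) (B.σ (z n x)) ≤ B.D (z n) x := le_ds (B.tree x) B.c0 B.ctri _ _
  have h3 : B.ρ (B.σ (z n x)) = B.c (B.σ x) (B.σ (z n x)) := by
    unfold c
    rw [hx3, inv_one, mul_one]
  show B.ρ (B.σ (z n x)) ≤ K
  rw [h3]
  exact h2.trans hx2.le

/-- the estimate for one generator -/
theorem err {z : ℕ → X → X} {q : X → X} (hq : B.Fl q) {R : ℕ} {K ε : ℝ≥0∞} {n : ℕ}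
    (hf : B.Fl (z n)) (h1 : B.μ (B.F ∩ {x | (R : ℝ≥0∞) < B.D q x}) ≤ ε)
    (h2 : 4 * R / K * B.μ B.F ≤ ε) (h3 : B.μ (B.F ∩ {x | B.D (z n) x < K}) ≤ ε) :
    4 * R / K * B.μ B.F + B.μ (B.F ∩ B.bad R K q (z n)) ≤ 4 * ε := by
  have h4 : B.μ (B.F ∩ B.bad R K q (z n)) ≤ ε + (ε + ε) := by
    unfold bad
    rw [Set.inter_union_distrib_left, Set.inter_union_distrib_left]
    refine (measure_union_le _ _).trans ?_
    refine add_le_add h1 ((measure_union_le _ _).trans (add_le_add ?_ h3))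
    rw [meas_inv hf (gt_m hq _) (gt_inv hq _)]
    exact h1
  calc _ ≤ ε + (ε + (ε + ε)) := add_le_add h2 h4
    _ = 4 * ε := by ring

theorem final (pos : B.μ B.F ≠ 0) {a a' b b' : X → X} {z : ℕ → X → X}
    (fa : B.Fl a) (fa' : B.Fl a') (fb : B.Fl b) (fb' : B.Fl b') (fz : ∀ n, B.Fl (z n))
    (haa' : ∀ x, a (a' x) = x) (ha'a : ∀ x, a' (a x) = x)
    (hbb' : ∀ x, b (b' x) = x) (hb'b : ∀ x, b' (b x) = x)
    (za : ∀ n x, a (z n x) = z n (a x)) (za' : ∀ n x, a' (z n x) = z n (a' x))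
    (zb : ∀ n x, b (z n x) = z n (b x)) (zb' : ∀ n x, b' (z n x) = z n (b' x))
    (H3 : ∀ g, Tendsto (fun n => B.μ {x | B.σ x = 1 ∧ B.σ (z n x) = g}) atTop (𝓝 0))
    {E1 E2 : Set X} (m1 : MeasurableSet E1) (m2 : MeasurableSet E2)
    (hc : B.μ (E1 ∪ E2)ᶜ = 0)
    (i1 : a' ⁻¹' E1 ⊆ E2) (i2 : a ⁻¹' E1 ⊆ E2) (i3 : Disjoint (a' ⁻¹' E1) (a ⁻¹' E1))
    (i4 : b' ⁻¹' E2 ⊆ E1) (i5 : b ⁻¹' E2 ⊆ E1) (i6 : Disjoint (b' ⁻¹' E2) (b ⁻¹' E2)) :
    False := by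
  -- the precision
  obtain ⟨ε, hε0, hε⟩ : ∃ ε : ℝ≥0∞, ε ≠ 0 ∧ 17 * ε < B.μ B.F := by
    refine ⟨B.μ B.F / 18, ?_, ?_⟩
    · exact (ENNReal.div_pos pos (by norm_num)).ne'
    · have h18 : B.μ B.F = 18 * (B.μ B.F / 18) :=
        (ENNReal.mul_div_cancel (by norm_num) (by norm_num)).symm
      conv_rhs => rw [h18]
      have hx0 : B.μ B.F / 18 ≠ 0 := (ENNReal.div_pos pos (by norm_num)).ne'
      have hxt : B.μ B.F / 18 ≠ ∞ := (ENNReal.div_lt_top B.fin (by norm_num)).ne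
      exact ENNReal.mul_lt_mul_left hx0 hxt (by norm_num)
  have hεpos : 0 < ε := pos_iff_ne_zero.2 hε0
  have hεt : ε ≠ ∞ := by
    intro h
    rw [h] at hε
    rw [ENNReal.mul_top (by norm_num)] at hε
    exact not_top_lt hε
  -- the range
  obtain ⟨R, r1, r2, r3, r4⟩ : ∃ R : ℕ, B.μ (B.F ∩ {x | (R : ℝ≥0∞) < B.D a x}) ≤ ε ∧
      B.μ (B.F ∩ {x | (R : ℝ≥0∞) < B.D a' x}) ≤ ε ∧
      B.μ (B.F ∩ {x | (R : ℝ≥0∞) < B.D b x}) ≤ ε ∧
      B.μ (B.F ∩ {x | (R : ℝ≥0∞) < B.D b' x}) ≤ ε := by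
    have e1 := (tendsto_gt fa).eventually (Iic_mem_nhds hεpos)
    have e2 := (tendsto_gt fa').eventually (Iic_mem_nhds hεpos)
    have e3 := (tendsto_gt fb).eventually (Iic_mem_nhds hεpos)
    have e4 := (tendsto_gt fb').eventually (Iic_mem_nhds hεpos)
    exact (e1.and (e2.and (e3.and e4))).exists
  obtain ⟨K, hK0, hKt, hK⟩ : ∃ K : ℝ≥0∞, K ≠ 0 ∧ K ≠ ∞ ∧ 4 * R / K * B.μ B.F ≤ ε := by
    have h4R : (4 * (R : ℝ≥0∞)) * B.μ B.F / ε ≠ ∞ :=
      (ENNReal.div_lt_top (ENNReal.mul_ne_top (ENNReal.mul_ne_top (by norm_num)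
        (ENNReal.natCast_ne_top R)) B.fin) hε0).ne
    refine ⟨(4 * (R : ℝ≥0∞)) * B.μ B.F / ε + 1, by simp, by simp [h4R], ?_⟩
    set K := (4 * (R : ℝ≥0∞)) * B.μ B.F / ε + 1 with hKdef
    have hK0 : K ≠ 0 := by simp [hKdef]
    have hKt : K ≠ ∞ := by simp [hKdef, h4R]
    have e1 : 4 * (R : ℝ≥0∞) / K * B.μ B.F = (4 * R * B.μ B.F) / K := by
      rw [div_eq_mul_inv, div_eq_mul_inv]
      ring
    rw [e1]
    apply ENNReal.div_le_of_le_mul
    calc 4 * (R : ℝ≥0∞) * B.μ B.F = ε * (4 * R * B.μ B.F / ε) :=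
          (ENNReal.mul_div_cancel hε0 hεt).symm
      _ ≤ ε * K := by
          gcongr
          exact le_self_add
  obtain ⟨n, hn⟩ := ((tendsto_lt H3 hKt).eventually (Iic_mem_nhds hεpos)).exists
  have hn' : B.μ (B.F ∩ {x | B.D (z n) x < K}) ≤ ε := hn
  have ea := err fa (fz n) r1 hK hn'
  have ea' := err fa' (fz n) r2 hK hn'
  have eb := err fb (fz n) r3 hK hn'
  have eb' := err fb' (fz n) r4 hK hn'
  -- the two masses
  set I1 := ∫⁻ x in E1, B.xi (z n) x ∂B.μ with hI1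
  set I2 := ∫⁻ x in E2, B.xi (z n) x ∂B.μ with hI2
  have s1 : I1 ≤ ∫⁻ x in a' ⁻¹' E1, B.xi (z n) x ∂B.μ + 4 * ε :=
    (step fa (za n) hK0 (fz n) fa'.mp.measurable ha'a m1).trans (add_le_add le_rfl ea)
  have s2 : I1 ≤ ∫⁻ x in a ⁻¹' E1, B.xi (z n) x ∂B.μ + 4 * ε :=
    (step fa' (za' n) hK0 (fz n) fa.mp.measurable haa' m1).trans (add_le_add le_rfl ea')
  have s3 : I2 ≤ ∫⁻ x in b' ⁻¹' E2, B.xi (z n) x ∂B.μ + 4 * ε :=
    (step fb (zb n) hK0 (fz n) fb'.mp.measurable hb'b m2).trans (add_le_add le_rfl eb)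
  have s4 : I2 ≤ ∫⁻ x in b ⁻¹' E2, B.xi (z n) x ∂B.μ + 4 * ε :=
    (step fb' (zb' n) hK0 (fz n) fb.mp.measurable hbb' m2).trans (add_le_add le_rfl eb')
  have t1 : ∫⁻ x in a' ⁻¹' E1, B.xi (z n) x ∂B.μ + ∫⁻ x in a ⁻¹' E1, B.xi (z n) x ∂B.μ ≤ I2 := by
    rw [← lintegral_union (fa.mp.measurable m1) i3]
    exact lintegral_mono_set (Set.union_subset i1 i2)
  have t2 : ∫⁻ x in b' ⁻¹' E2, B.xi (z n) x ∂B.μ + ∫⁻ x in b ⁻¹' E2, B.xi (z n) x ∂B.μ ≤ I1 := by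
    rw [← lintegral_union (fb.mp.measurable m2) i6]
    exact lintegral_mono_set (Set.union_subset i4 i5)
  have u1 : I1 + I1 ≤ I2 + 8 * ε := by
    calc I1 + I1 ≤ (∫⁻ x in a' ⁻¹' E1, B.xi (z n) x ∂B.μ + 4 * ε) +
          (∫⁻ x in a ⁻¹' E1, B.xi (z n) x ∂B.μ + 4 * ε) := add_le_add s1 s2
      _ = (∫⁻ x in a' ⁻¹' E1, B.xi (z n) x ∂B.μ + ∫⁻ x in a ⁻¹' E1, B.xi (z n) x ∂B.μ) +
          8 * ε := by ring
      _ ≤ I2 + 8 * ε := by gcongr
  have u2 : I2 + I2 ≤ I1 + 8 * ε := by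
    calc I2 + I2 ≤ (∫⁻ x in b' ⁻¹' E2, B.xi (z n) x ∂B.μ + 4 * ε) +
          (∫⁻ x in b ⁻¹' E2, B.xi (z n) x ∂B.μ + 4 * ε) := add_le_add s3 s4
      _ = (∫⁻ x in b' ⁻¹' E2, B.xi (z n) x ∂B.μ + ∫⁻ x in b ⁻¹' E2, B.xi (z n) x ∂B.μ) +
          8 * ε := by ring
      _ ≤ I1 + 8 * ε := by gcongr
  have itot : ∫⁻ x, B.xi (z n) x ∂B.μ ≤ I1 + I2 := by
    have h1 : ∫⁻ x, B.xi (z n) x ∂B.μ = ∫⁻ x in (E1 ∪ E2) ∪ (E1 ∪ E2)ᶜ, B.xi (z n) x ∂B.μ := by
      rw [Set.union_compl_self, Measure.restrict_univ]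
    rw [h1]
    refine (lintegral_union_le _ _ _).trans ?_
    rw [setLIntegral_measure_zero _ _ hc, add_zero]
    exact lintegral_union_le _ _ _
  have hIt : I1 + I2 ≠ ∞ := by
    have h1 : I1 ≤ B.μ B.F := (setLIntegral_le_lintegral _ _).trans (int_xi (fz n))
    have h2 : I2 ≤ B.μ B.F := (setLIntegral_le_lintegral _ _).trans (int_xi (fz n))
    exact ENNReal.add_ne_top.2 ⟨ne_top_of_le_ne_top B.fin h1, ne_top_of_le_ne_top B.fin h2⟩
  have u3 : I1 + I2 ≤ 16 * ε := by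
    have h1 : (I1 + I2) + (I1 + I2) ≤ (I1 + I2) + 16 * ε := by
      calc (I1 + I2) + (I1 + I2) = (I1 + I1) + (I2 + I2) := by ring
        _ ≤ (I2 + 8 * ε) + (I1 + 8 * ε) := add_le_add u1 u2
        _ = _ := by ring
    exact (ENNReal.add_le_add_iff_left hIt).1 h1
  have u4 : B.μ (B.F ∩ {x | B.D (z n) x = 0}) ≤ ε := by
    refine le_trans (measure_mono ?_) hn'
    rintro x ⟨hx1, hx2⟩
    refine ⟨hx1, ?_⟩
    have hx3 : B.D (z n) x = 0 := hx2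
    show B.D (z n) x < K
    rw [hx3]
    exact pos_iff_ne_zero.2 hK0
  have u5 : B.μ B.F ≤ 17 * ε := by
    calc B.μ B.F ≤ ∫⁻ x, B.xi (z n) x ∂B.μ + B.μ (B.F ∩ {x | B.D (z n) x = 0}) :=
          int_xi_ge (fz n)
      _ ≤ 16 * ε + ε := add_le_add (itot.trans u3) u4
      _ = 17 * ε := by ring
  exact absurd hε (not_lt.2 u5)

end Base

end Pool.Agent.Helper679_TR
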