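import Pool.Agent.Helper679_TR.Defs

/-! Cover -/

namespace Pool.Agent.Helper679_TR

open Set MeasureTheory
open scoped ENNReal




theorem exists_cover : ∃ U : ℕ → Set Om, (∀ i, IsOpen (U i)) ∧ (∀ M, dt M ≠ 0 → ∃ i, M ∈ U i) ∧
    ∀ i, ∀ g : Gm, g ≠ 1 → ∀ M ∈ U i, lact (g : Matrix (Fin 3) (Fin 3) ℤ) M ∉ U i := by
  classical
  have hdet : ∀ y : Om, (Matrix.of y).det = dt y := by
    intro y
    rw [Matrix.det_fin_three]
    simp only [Matrix.of_apply, dt]
    ring
  have hdtc : Continuous dt := by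
    have : dt = fun y : Om => (Matrix.of y).det := by
      funext y; exact (hdet y).symm
    rw [this]
    exact Continuous.matrix_det continuous_id
  let V : Set (Om × Om) := {p | ∀ i j, |((Matrix.of p.2) * (Matrix.of p.1).adjugate) i j
      - (if i = j then dt p.1 else 0)| < |dt p.1|}
  have hV : IsOpen V := by
    have hVe : V = ⋂ i, ⋂ j, {p : Om × Om | |((Matrix.of p.2) * (Matrix.of p.1).adjugate) i j
      - (if i = j then dt p.1 else 0)| < |dt p.1|} := by
      ext p
      simp only [V, Set.mem_ofPred_eq, Set.mem_iInter]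
    rw [hVe]
    refine isOpen_iInter_of_finite fun i => isOpen_iInter_of_finite fun j => ?_
    have h1 : Continuous fun p : Om × Om => ((Matrix.of p.2) * (Matrix.of p.1).adjugate) i j := by
      have h2 : Continuous fun p : Om × Om => (Matrix.of p.2 : Matrix (Fin 3) (Fin 3) ℝ) :=
        continuous_snd
      have h3 : Continuous fun p : Om × Om => (Matrix.of p.1 : Matrix (Fin 3) (Fin 3) ℝ) :=
        continuous_fst
      exact (h2.matrix_mul h3.matrix_adjugate).matrix_elem i j
    have h4 : Continuous fun p : Om × Om => (if i = j then dt p.1 else 0) := by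
      by_cases h : i = j
      · simp only [h, if_true]
        exact hdtc.comp continuous_fst
      · simp only [h, if_false]
        exact continuous_const
    exact isOpen_lt ((h1.sub h4).abs) ((hdtc.comp continuous_fst).abs)
  have hex : ∀ M : {M : Om // dt M ≠ 0}, ∃ U : Set Om, IsOpen U ∧ M.1 ∈ U ∧
      ∀ y ∈ U, ∀ y' ∈ U, (y, y') ∈ V := by
    rintro ⟨M, hM⟩
    have hMM : (M, M) ∈ V := by
      intro i j
      have h1 : (Matrix.of M) * (Matrix.of M).adjugate = (dt M) • (1 : Matrix (Fin 3) (Fin 3) ℝ) := by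
        rw [Matrix.mul_adjugate, hdet]
      simp only [h1, Matrix.smul_apply, Matrix.one_apply, smul_eq_mul]
      have : dt M * (if i = j then 1 else 0) - (if i = j then dt M else 0) = 0 := by
        by_cases h : i = j <;> simp [h]
      rw [this, abs_zero]
      exact abs_pos.mpr hM
    obtain ⟨u, v, hu, hv, hMu, hMv, huv⟩ := isOpen_prod_iff.mp hV M M hMM
    refine ⟨u ∩ v, hu.inter hv, ⟨hMu, hMv⟩, ?_⟩
    intro y hy y' hy'
    exact huv (Set.mk_mem_prod hy.1 hy'.2)
  choose W hWo hWm hWV using hex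
  obtain ⟨T, hTc, hT⟩ := TopologicalSpace.isOpen_iUnion_countable W hWo
  have hone : dt (fun i j => (1 : Matrix (Fin 3) (Fin 3) ℝ) i j) ≠ 0 := by
    have := hdet (fun i j => (1 : Matrix (Fin 3) (Fin 3) ℝ) i j)
    rw [← this]
    have h2 : (Matrix.of (fun i j => (1 : Matrix (Fin 3) (Fin 3) ℝ) i j)) = 1 := by
      ext i j; rfl
    rw [h2, Matrix.det_one]
    exact one_ne_zero
  have hTn : T.Nonempty := by
    have : (fun i j => (1 : Matrix (Fin 3) (Fin 3) ℝ) i j) ∈ ⋃ i, W i :=
      Set.mem_iUnion.mpr ⟨⟨_, hone⟩, hWm ⟨_, hone⟩⟩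
    rw [← hT] at this
    obtain ⟨i, hi⟩ := Set.mem_iUnion.mp this
    obtain ⟨hi, -⟩ := Set.mem_iUnion.mp hi
    exact ⟨i, hi⟩
  obtain ⟨f, hf⟩ := hTc.exists_eq_range hTn
  refine ⟨fun n => W (f n), fun n => hWo _, ?_, ?_⟩
  · intro M hM
    have : M ∈ ⋃ i, W i := Set.mem_iUnion.mpr ⟨⟨M, hM⟩, hWm ⟨M, hM⟩⟩
    rw [← hT] at this
    obtain ⟨i, hi⟩ := Set.mem_iUnion.mp this
    obtain ⟨hi, hMi⟩ := Set.mem_iUnion.mp hi
    rw [hf] at hi
    obtain ⟨n, rfl⟩ := hi
    exact ⟨n, hMi⟩
  · intro n g hg M hM hgM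
    apply hg
    have hmem := hWV (f n) M hM _ hgM
    have hpos : 0 < |dt M| := lt_of_le_of_lt (abs_nonneg _) (hmem 0 0)
    have hmul : (Matrix.of (lact (g : Matrix (Fin 3) (Fin 3) ℤ) M)) * (Matrix.of M).adjugate
        = (dt M) • ((g : Matrix (Fin 3) (Fin 3) ℤ).map (fun z : ℤ => (z : ℝ))) := by
      have h1 : (Matrix.of (lact (g : Matrix (Fin 3) (Fin 3) ℤ) M))
          = ((g : Matrix (Fin 3) (Fin 3) ℤ).map (fun z : ℤ => (z : ℝ))) * Matrix.of M := by
        ext i j
        simp only [Matrix.of_apply, lact, Matrix.mul_apply, Matrix.map_apply]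
      rw [h1, Matrix.mul_assoc, Matrix.mul_adjugate, hdet, Matrix.mul_smul, Matrix.mul_one]
    ext i j
    have h3 := hmem i j
    simp only [hmul, Matrix.smul_apply, Matrix.map_apply, smul_eq_mul] at h3
    have h4 : dt M * (((g : Matrix (Fin 3) (Fin 3) ℤ) i j : ℤ) : ℝ) - (if i = j then dt M else 0)
        = dt M * ((((g : Matrix (Fin 3) (Fin 3) ℤ) i j - (if i = j then 1 else 0) : ℤ)) : ℝ) := by
      by_cases h : i = j
      · simp only [h, if_true]; push_cast; ring
      · simp only [h, if_false]; push_cast; ring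
    rw [h4, abs_mul] at h3
    have h5 : |((((g : Matrix (Fin 3) (Fin 3) ℤ) i j - (if i = j then 1 else 0) : ℤ)) : ℝ)| < 1 := by
      by_contra hcon
      push Not at hcon
      nlinarith
    have h6 : |(g : Matrix (Fin 3) (Fin 3) ℤ) i j - (if i = j then 1 else 0)| < 1 := by
      exact_mod_cast h5
    have h7 : (g : Matrix (Fin 3) (Fin 3) ℤ) i j - (if i = j then 1 else 0) = 0 :=
      Int.abs_lt_one_iff.mp h6
    rw [Units.val_one, Matrix.one_apply]
    linarith

end Pool.Agent.Helper679_TR
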