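import Pool.Agent.Helper679_TR.Defs

/-! Mp -/

namespace Pool.Agent.Helper679_TR

open Set MeasureTheory
open scoped ENNReal




/-
TARGETS. `mp_right`: the linear map of ℝ³ given by the matrix L preserves volume
(`Real.map_matrix_volume_pi_eq_smul_volume_pi`), and it acts on each row separately (`volume_preserving_pi`).
`mp_lact`: left multiplication by g = transpose ∘ (right multiplication by gᵀ on the rows) ∘ transpose, and
the transpose map τ : Om → Om is linear with τ ∘ τ = id, so |det τ| = 1 and it preserves volume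
(`MeasureTheory.Measure.addHaar_preimage_linearMap`; Om is a finite dimensional real space and `volume` on it is an
additive Haar measure), and |det g| = 1 as g is an invertible integer matrix (`Int.isUnit_iff`, `Matrix.isUnit_iff_isUnit_det`).
-/
theorem mp_right (L : Matrix (Fin 3) (Fin 3) ℝ) (h : |L.det| = 1) :
    MeasurePreserving (fun (M : Om) => ((fun i => L.mulVec (M i)) : Om)) volume volume := by
  have hL : L.det ≠ 0 := by
    intro h0
    rw [h0, abs_zero] at h
    norm_num at h
  have h1 : MeasurePreserving (fun x : Fin 3 → ℝ => L.mulVec x) volume volume := by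
    refine ⟨(Continuous.matrix_mulVec continuous_const continuous_id).measurable, ?_⟩
    have h2 := Real.map_matrix_volume_pi_eq_smul_volume_pi hL
    rw [abs_inv, h, inv_one, ENNReal.ofReal_one, one_smul] at h2
    exact h2
  exact volume_preserving_pi (fun _ => h1)

/-- the transpose -/
def tpM : Om →ₗ[ℝ] Om where
  toFun M := fun i j => M j i
  map_add' _ _ := rfl
  map_smul' _ _ := rfl

theorem mp_tpM : MeasurePreserving (tpM : Om → Om) volume volume := by
  have h1 : tpM ∘ₗ tpM = LinearMap.id := rfl
  have h2 : LinearMap.det tpM * LinearMap.det tpM = 1 := by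
    rw [← LinearMap.det_comp, h1, LinearMap.det_id]
  have h3 : |LinearMap.det tpM| = 1 := by
    have : |LinearMap.det tpM| * |LinearMap.det tpM| = 1 := by rw [← abs_mul, h2, abs_one]
    nlinarith [abs_nonneg (LinearMap.det tpM)]
  have h4 : LinearMap.det tpM ≠ 0 := by
    intro h0
    rw [h0, abs_zero] at h3
    norm_num at h3
  refine ⟨(LinearMap.continuous_of_finiteDimensional tpM).measurable, ?_⟩
  rw [Measure.map_linearMap_addHaar_eq_smul_addHaar volume h4, abs_inv, h3, inv_one,
    ENNReal.ofReal_one, one_smul]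

theorem mp_lact (g : Gm) :
    MeasurePreserving (lact (g : Matrix (Fin 3) (Fin 3) ℤ)) (volume : Measure Om) volume := by
  set L : Matrix (Fin 3) (Fin 3) ℝ := (g : Matrix (Fin 3) (Fin 3) ℤ).map (Int.castRingHom ℝ)
    with hL
  have hd : |L.det| = 1 := by
    have h1 : L.det = (((g : Matrix (Fin 3) (Fin 3) ℤ).det : ℤ) : ℝ) := by
      rw [hL]
      exact (RingHom.map_det (Int.castRingHom ℝ) (g : Matrix (Fin 3) (Fin 3) ℤ)).symm
    have h2 : IsUnit (g : Matrix (Fin 3) (Fin 3) ℤ).det :=
      (Matrix.isUnit_iff_isUnit_det _).1 g.isUnit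
    rcases Int.isUnit_iff.1 h2 with h3 | h3 <;> rw [h1, h3] <;> norm_num
  have h := (mp_tpM.comp (mp_right L hd)).comp mp_tpM
  have e : lact (g : Matrix (Fin 3) (Fin 3) ℤ) =
      (⇑tpM ∘ (fun (M : Om) => ((fun i => L.mulVec (M i)) : Om))) ∘ ⇑tpM := by
    funext M i j
    rfl
  rw [e]
  exact h

end Pool.Agent.Helper679_TR
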