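import Mathlib

/-! Archimedean orders of `ℤ³`, the action of `GL₃(ℤ)`, treeability. -/

namespace Pool.Agent.Helper679_TR

/-- `r` is an Archimedean order of the group `ℤ³`: a strict total order invariant under
translations such that for all `a, b` with `0 < a` there is `k ∈ ℕ` with `b < k a`. -/
structure ArchOrder (r : (Fin 3 → ℤ) → (Fin 3 → ℤ) → Prop) : Prop where
  irrefl : ∀ a, ¬ r a a
  trans : ∀ a b c, r a b → r b c → r a c
  total : ∀ a b, a ≠ b → r a b ∨ r b a
  add : ∀ a b c, r a b → r (a + c) (b + c)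
  arch : ∀ a b, r 0 a → ∃ k : ℕ, r b (k • a)

/-- `Ar(ℤ³)`: the set of positive cones `{a : 0 < a}` of Archimedean orders of `ℤ³`, as a subset of
the Cantor space `2^(ℤ³)` -/
def Ar : Set ((Fin 3 → ℤ) → Bool) := {P | ∃ r, ArchOrder r ∧ ∀ a, P a = true ↔ r 0 a}

/-- the action of `GL₃(ℤ)` on subsets of `ℤ³`: `a ∈ g(P)` iff `g⁻¹ a ∈ P` -/
def mv (g : Matrix.GeneralLinearGroup (Fin 3) ℤ) (P : (Fin 3 → ℤ) → Bool) : (Fin 3 → ℤ) → Bool :=
  fun a => P ((g⁻¹ : Matrix.GeneralLinearGroup (Fin 3) ℤ).1.mulVec a)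

/-- the orbit equivalence relation of `GL₃(ℤ)` on `Ar(ℤ³)` -/
def OrbitRel (P Q : Ar) : Prop :=
  ∃ g : Matrix.GeneralLinearGroup (Fin 3) ℤ, (Q : (Fin 3 → ℤ) → Bool) = mv g P

/-- A relation `E` on a topological space `X` is treeable: there is a graph on `X`, with Borel edge
set in `X × X`, which is acyclic and whose connected components are the classes of `E`. -/
def Treeable {X : Type} [TopologicalSpace X] (E : X → X → Prop) : Prop :=
  ∃ G : SimpleGraph X, @MeasurableSet (X × X) (borel (X × X)) {p : X × X | G.Adj p.1 p.2} ∧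
    G.IsAcyclic ∧ ∀ x y, G.Reachable x y ↔ E x y

end Pool.Agent.Helper679_TR
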