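import Pool.Agent.Helper679_TR.Defs

/-! Pos -/

namespace Pool.Agent.Helper679_TR

open Set MeasureTheory
open scoped ENNReal





lemma meas_col (g : Matrix (Fin 3) (Fin 3) ℤ) (i : Fin 3) :
    Measurable (fun M : Om => ∑ k, (g i k : ℝ) * M k 0) := by
  apply Continuous.measurable
  fun_prop

lemma meas_entry (i j : Fin 3) : Measurable (fun M : Om => M i j) := by
  apply Continuous.measurable
  fun_prop

lemma cont_dt : Continuous dt := by
  unfold dt
  fun_prop

lemma Irr.ne {M : Om} (h : Irr M) (i : Fin 3) : M i 0 ≠ 0 := by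
  have := h (Pi.single i 1) (by
    intro h0
    have := congrFun h0 i
    simp at this)
  intro h1
  apply this
  rw [Finset.sum_eq_single i]
  · simp [h1]
  · intro b _ hb
    simp [Pi.single_eq_of_ne hb]
  · simp

instance : Countable (Matrix (Fin 3) (Fin 3) ℤ) :=
  inferInstanceAs (Countable (Fin 3 → Fin 3 → ℤ))

instance : Countable Gm := Units.val_injective.countable

lemma measurableSet_Irr : MeasurableSet {M : Om | Irr M} := by
  have : {M : Om | Irr M} = ⋂ n : Fin 3 → ℤ, {M : Om | n ≠ 0 → ∑ i, (n i : ℝ) * M i 0 ≠ 0} := by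
    ext M
    simp [Irr]
  rw [this]
  apply MeasurableSet.iInter
  intro n
  by_cases hn : n = 0
  · simp [hn]
  · have hm : Measurable (fun M : Om => ∑ i, (n i : ℝ) * M i 0) := by
      apply Continuous.measurable
      fun_prop
    have : {M : Om | n ≠ 0 → ∑ i, (n i : ℝ) * M i 0 ≠ 0}
        = (fun M : Om => ∑ i, (n i : ℝ) * M i 0) ⁻¹' {0}ᶜ := by
      ext M
      simp [hn]
    rw [this]
    exact hm (measurableSet_singleton 0).compl

/-- the set where `g` multiplies column 0 by a positive number (for `M 0 0 ≠ 0`) -/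
def Bad (g : Gm) : Set Om :=
  {M | 0 < (∑ k, ((g : Matrix (Fin 3) (Fin 3) ℤ) 0 k : ℝ) * M k 0) / M 0 0 ∧
    ∀ i, ∑ k, ((g : Matrix (Fin 3) (Fin 3) ℤ) i k : ℝ) * M k 0 =
      (∑ k, ((g : Matrix (Fin 3) (Fin 3) ℤ) 0 k : ℝ) * M k 0) / M 0 0 * M i 0}

lemma measurableSet_Bad (g : Gm) : MeasurableSet (Bad g) := by
  have hr : Measurable (fun M : Om => (∑ k, ((g : Matrix (Fin 3) (Fin 3) ℤ) 0 k : ℝ) * M k 0) / M 0 0) :=
    (meas_col _ 0).div (meas_entry 0 0)
  unfold Bad
  rw [Set.ofPred_and]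
  apply MeasurableSet.inter
  · exact measurableSet_lt measurable_const hr
  · rw [Set.ofPred_forall]
    apply MeasurableSet.iInter
    intro i
    exact measurableSet_eq_fun (meas_col _ i) (hr.mul (meas_entry i 0))

lemma bad_iff {M : Om} (h : Irr M) (g : Gm) :
    M ∈ Bad g ↔ ∃ r : ℝ, 0 < r ∧
      ∀ i, ∑ k, ((g : Matrix (Fin 3) (Fin 3) ℤ) i k : ℝ) * M k 0 = r * M i 0 := by
  constructor
  · rintro ⟨h1, h2⟩
    exact ⟨_, h1, h2⟩
  · rintro ⟨r, hr, h2⟩
    have h0 := h.ne 0
    have hr' : (∑ k, ((g : Matrix (Fin 3) (Fin 3) ℤ) 0 k : ℝ) * M k 0) / M 0 0 = r := by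
      rw [h2 0]
      field_simp
    refine ⟨?_, ?_⟩
    · rw [hr']; exact hr
    · rw [hr']; exact h2

lemma XX_eq : XX = {M | dt M ≠ 0} ∩ {M | |dt M| ≤ 1} ∩ {M : Om | Irr M} ∩
    ⋂ g : Gm, {M : Om | M ∈ Bad g → g = 1} := by
  ext M
  simp only [XX, Set.mem_ofPred_eq, Set.mem_inter_iff, Set.mem_iInter]
  constructor
  · rintro ⟨h1, h2, h3, h4⟩
    refine ⟨⟨⟨h1, h2⟩, h3⟩, ?_⟩
    intro g hg
    obtain ⟨r, hr, h5⟩ := (bad_iff h3 g).1 hg
    exact h4 g r hr h5
  · rintro ⟨⟨⟨h1, h2⟩, h3⟩, h4⟩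
    refine ⟨h1, h2, h3, ?_⟩
    intro g r hr h5
    exact h4 g ((bad_iff h3 g).2 ⟨r, hr, h5⟩)

theorem measurableSet_XX : MeasurableSet XX := by
  rw [XX_eq]
  refine MeasurableSet.inter (MeasurableSet.inter (MeasurableSet.inter ?_ ?_) measurableSet_Irr) ?_
  · exact cont_dt.measurable (measurableSet_singleton 0).compl
  · exact measurableSet_le cont_dt.measurable.abs measurable_const
  · apply MeasurableSet.iInter
    intro g
    by_cases hg : g = 1
    · simp [hg]
    · have : {M : Om | M ∈ Bad g → g = 1} = (Bad g)ᶜ := by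
        ext M
        simp [hg]
      rw [this]
      exact (measurableSet_Bad g).compl

/-- the subspace of matrices whose column 0 is orthogonal to `n` -/
def Asub (n : Fin 3 → ℤ) : Submodule ℝ Om where
  carrier := {M | ∑ i, (n i : ℝ) * M i 0 = 0}
  add_mem' := by
    intro a b ha hb
    simp only [Set.mem_ofPred_eq, Pi.add_apply, mul_add, Finset.sum_add_distrib] at *
    rw [ha, hb, add_zero]
  zero_mem' := by simp
  smul_mem' := by
    intro c a ha
    simp only [Set.mem_ofPred_eq, Pi.smul_apply, smul_eq_mul] at *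
    have : ∑ i, (n i : ℝ) * (c * a i 0) = c * ∑ i, (n i : ℝ) * a i 0 := by
      rw [Finset.mul_sum]
      exact Finset.sum_congr rfl (fun i _ => by ring)
    rw [this, ha, mul_zero]

lemma Asub_ne_top {n : Fin 3 → ℤ} (hn : n ≠ 0) : Asub n ≠ ⊤ := by
  intro h
  apply hn
  ext j
  have : (fun i _ => if i = j then (1 : ℝ) else 0 : Om) ∈ Asub n := by rw [h]; trivial
  have h2 : ∑ i, (n i : ℝ) * (if i = j then (1 : ℝ) else 0) = 0 := this
  simpa using h2

/-- the subspace of matrices whose column 0 is multiplied by `r` by `g` -/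
def Wsub (g : Gm) (r : ℝ) : Submodule ℝ Om where
  carrier := {M | ∀ i, ∑ k, ((g : Matrix (Fin 3) (Fin 3) ℤ) i k : ℝ) * M k 0 = r * M i 0}
  add_mem' := by
    intro a b ha hb i
    simp only [Set.mem_ofPred_eq, Pi.add_apply, mul_add, Finset.sum_add_distrib] at *
    rw [ha, hb]
  zero_mem' := by simp
  smul_mem' := by
    intro c a ha i
    simp only [Set.mem_ofPred_eq, Pi.smul_apply, smul_eq_mul] at *
    have : ∑ k, ((g : Matrix (Fin 3) (Fin 3) ℤ) i k : ℝ) * (c * a k 0)
        = c * ∑ k, ((g : Matrix (Fin 3) (Fin 3) ℤ) i k : ℝ) * a k 0 := by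
      rw [Finset.mul_sum]
      exact Finset.sum_congr rfl (fun i _ => by ring)
    rw [this, ha]
    ring

lemma Wsub_ne_top {g : Gm} (hg : g ≠ 1) {r : ℝ} (hr : 0 < r) : Wsub g r ≠ ⊤ := by
  intro h
  apply hg
  have key : ∀ i j : Fin 3, ((g : Matrix (Fin 3) (Fin 3) ℤ) i j : ℝ) = if i = j then r else 0 := by
    intro i j
    have : (fun i _ => if i = j then (1 : ℝ) else 0 : Om) ∈ Wsub g r := by rw [h]; trivial
    have h2 : ∑ k, ((g : Matrix (Fin 3) (Fin 3) ℤ) i k : ℝ) * (if k = j then (1 : ℝ) else 0)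
      = r * (if i = j then (1 : ℝ) else 0) := this i
    simpa using h2
  set m : ℤ := (g : Matrix (Fin 3) (Fin 3) ℤ) 0 0 with hm
  have hmr : (m : ℝ) = r := by simpa using key 0 0
  have key2 : ∀ i j : Fin 3, (g : Matrix (Fin 3) (Fin 3) ℤ) i j = if i = j then m else 0 := by
    intro i j
    have := key i j
    rw [← hmr] at this
    split_ifs with hij
    · simp only [hij, if_true] at this
      subst hij
      exact_mod_cast this
    · simp only [hij, if_false] at this
      exact_mod_cast this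
  have hdet : (g : Matrix (Fin 3) (Fin 3) ℤ).det = m ^ 3 := by
    rw [Matrix.det_fin_three]
    simp only [key2]
    simp
    ring
  have hu : IsUnit ((g : Matrix (Fin 3) (Fin 3) ℤ).det) :=
    (Matrix.isUnit_iff_isUnit_det _).1 g.isUnit
  rw [hdet] at hu
  have hmu : IsUnit m := (isUnit_pow_iff (by norm_num)).1 hu
  have hm1 : m = 1 := by
    rcases Int.isUnit_iff.1 hmu with h | h
    · exact h
    · exfalso
      rw [h] at hmr
      norm_num at hmr
      linarith
  apply Units.ext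
  ext i j
  rw [key2 i j, hm1, Units.val_one, Matrix.one_apply]

/-- the real eigenvalues of `g` -/
def Ev (g : Gm) : Set ℝ :=
  {r | Module.End.HasEigenvalue
    (Matrix.toLin' ((g : Matrix (Fin 3) (Fin 3) ℤ).map (Int.cast : ℤ → ℝ))) r}

lemma Ev_finite (g : Gm) : (Ev g).Finite := Module.End.finite_hasEigenvalue _

lemma mem_Ev {g : Gm} {M : Om} {r : ℝ} (h0 : M 0 0 ≠ 0)
    (h : ∀ i, ∑ k, ((g : Matrix (Fin 3) (Fin 3) ℤ) i k : ℝ) * M k 0 = r * M i 0) : r ∈ Ev g := by
  show Module.End.HasEigenvalue _ r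
  apply Module.End.hasEigenvalue_of_hasEigenvector (x := fun i => M i 0)
  rw [Module.End.hasEigenvector_iff]
  refine ⟨?_, ?_⟩
  · rw [Module.End.mem_eigenspace_iff]
    ext i
    simp only [Matrix.toLin'_apply, Matrix.mulVec, dotProduct, Matrix.map_apply, Pi.smul_apply,
      smul_eq_mul]
    exact h i
  · intro h1
    exact h0 (congrFun h1 0)

theorem volume_XX : volume XX ≠ 0 := by
  set V : Set Om := {M | dt M ≠ 0 ∧ |dt M| < 1} with hV
  set N : Set Om := (⋃ n : {n : Fin 3 → ℤ // n ≠ 0}, (Asub n.1 : Set Om)) ∪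
    ⋃ g : {g : Gm // g ≠ 1}, ⋃ r ∈ Ev g.1 ∩ Set.Ioi 0, (Wsub g.1 r : Set Om) with hN
  have hN0 : volume N = 0 := by
    apply measure_union_null
    · apply measure_iUnion_null
      intro n
      exact MeasureTheory.Measure.addHaar_submodule volume _ (Asub_ne_top n.2)
    · apply measure_iUnion_null
      intro g
      rw [measure_biUnion_null_iff (((Ev_finite g.1).inter_of_left _).countable)]
      intro r hr
      exact MeasureTheory.Measure.addHaar_submodule volume _ (Wsub_ne_top g.2 hr.2)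
  have hVo : IsOpen V := by
    rw [hV, Set.ofPred_and]
    exact (isOpen_ne.preimage cont_dt).inter (isOpen_lt cont_dt.abs continuous_const)
  have hVn : V.Nonempty := by
    refine ⟨fun i j => if i = j then 1 / 2 else 0, ?_⟩
    have : dt (fun i j => if i = j then (1 : ℝ) / 2 else 0) = 1 / 8 := by
      unfold dt
      norm_num [Fin.ext_iff]
    simp only [hV, Set.mem_ofPred_eq, this]
    norm_num [abs_of_pos]
  have hVp : 0 < volume V := hVo.measure_pos volume hVn
  have hsub : V \ N ⊆ XX := by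
    rintro M ⟨⟨h1, h2⟩, h3⟩
    have hI : Irr M := by
      intro n hn h4
      apply h3
      left
      exact Set.mem_iUnion.2 ⟨⟨n, hn⟩, h4⟩
    refine ⟨h1, h2.le, hI, ?_⟩
    intro g r hr h4
    by_contra hg
    apply h3
    right
    refine Set.mem_iUnion.2 ⟨⟨g, hg⟩, Set.mem_biUnion (x := r) ⟨mem_Ev (hI.ne 0) h4, hr⟩ h4⟩
  have h5 : volume (V \ N) = volume V := measure_sdiff_null hN0
  have h6 : volume V ≤ volume XX := h5 ▸ measure_mono hsub
  exact (lt_of_lt_of_le hVp h6).ne'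

end Pool.Agent.Helper679_TR
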