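import Pool.Agent.Helper679_TR.Defs

/-! PhLow -/

namespace Pool.Agent.Helper679_TR

open Set MeasureTheory
open scoped ENNReal




/-- the functional that is (almost) minimised -/
def ph (M : Om) : ℝ := dot (M 0) (M 0) * dot (crs (M 0) (M 1)) (crs (M 0) (M 1))


lemma cs685 (x y z p q r : ℝ) : (x * p + y * q + z * r) ^ 2 ≤ (x ^ 2 + y ^ 2 + z ^ 2) * (p ^ 2 + q ^ 2 + r ^ 2) := by
  have h : (x ^ 2 + y ^ 2 + z ^ 2) * (p ^ 2 + q ^ 2 + r ^ 2) - (x * p + y * q + z * r) ^ 2 =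
      (x * q - y * p) ^ 2 + (x * r - z * p) ^ 2 + (y * r - z * q) ^ 2 := by ring
  have h2 : 0 ≤ (x * q - y * p) ^ 2 + (x * r - z * p) ^ 2 + (y * r - z * q) ^ 2 := by positivity
  linarith

lemma low685 (N : Om) (h0 : dt N ≠ 0) : ∃ ε : ℝ, 0 < ε ∧ ∀ a b c : ℤ, 1 ≤ a ^ 2 + b ^ 2 + c ^ 2 →
    ε ≤ ((a : ℝ) * N 0 0 + b * N 1 0 + c * N 2 0) ^ 2 + ((a : ℝ) * N 0 1 + b * N 1 1 + c * N 2 1) ^ 2 +
      ((a : ℝ) * N 0 2 + b * N 1 2 + c * N 2 2) ^ 2 := by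
  set c00 := N 1 1 * N 2 2 - N 1 2 * N 2 1 with h00
  set c01 := N 1 2 * N 2 0 - N 1 0 * N 2 2 with h01
  set c02 := N 1 0 * N 2 1 - N 1 1 * N 2 0 with h02
  set c10 := N 0 2 * N 2 1 - N 0 1 * N 2 2 with h10
  set c11 := N 0 0 * N 2 2 - N 0 2 * N 2 0 with h11
  set c12 := N 0 1 * N 2 0 - N 0 0 * N 2 1 with h12
  set c20 := N 0 1 * N 1 2 - N 0 2 * N 1 1 with h20
  set c21 := N 0 2 * N 1 0 - N 0 0 * N 1 2 with h21
  set c22 := N 0 0 * N 1 1 - N 0 1 * N 1 0 with h22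
  set A : ℝ := c00 ^ 2 + c01 ^ 2 + c02 ^ 2 + (c10 ^ 2 + c11 ^ 2 + c12 ^ 2) + (c20 ^ 2 + c21 ^ 2 + c22 ^ 2) + 1 with hA
  have hA0 : 0 < A := by positivity
  refine ⟨(dt N) ^ 2 / A, by positivity, fun a b c habc => ?_⟩
  set x := (a : ℝ) * N 0 0 + b * N 1 0 + c * N 2 0 with hx
  set y := (a : ℝ) * N 0 1 + b * N 1 1 + c * N 2 1 with hy
  set z := (a : ℝ) * N 0 2 + b * N 1 2 + c * N 2 2 with hz
  have e0 : (a : ℝ) * dt N = x * c00 + y * c01 + z * c02 := by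
    rw [hx, hy, hz, h00, h01, h02, dt]; ring
  have e1 : (b : ℝ) * dt N = x * c10 + y * c11 + z * c12 := by
    rw [hx, hy, hz, h10, h11, h12, dt]; ring
  have e2 : (c : ℝ) * dt N = x * c20 + y * c21 + z * c22 := by
    rw [hx, hy, hz, h20, h21, h22, dt]; ring
  have f0 := cs685 x y z c00 c01 c02
  have f1 := cs685 x y z c10 c11 c12
  have f2 := cs685 x y z c20 c21 c22
  rw [← e0] at f0
  rw [← e1] at f1
  rw [← e2] at f2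
  have g1 : (1 : ℝ) ≤ (a : ℝ) ^ 2 + (b : ℝ) ^ 2 + (c : ℝ) ^ 2 := by exact_mod_cast habc
  rw [div_le_iff₀ hA0]
  have g2 : (dt N) ^ 2 ≤ ((a : ℝ) ^ 2 + (b : ℝ) ^ 2 + (c : ℝ) ^ 2) * (dt N) ^ 2 :=
    le_mul_of_one_le_left (sq_nonneg _) g1
  have g3 : ((a : ℝ) ^ 2 + (b : ℝ) ^ 2 + (c : ℝ) ^ 2) * (dt N) ^ 2 =
      ((a : ℝ) * dt N) ^ 2 + ((b : ℝ) * dt N) ^ 2 + ((c : ℝ) * dt N) ^ 2 := by ring
  have g4 : 0 ≤ x ^ 2 + y ^ 2 + z ^ 2 := by positivity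
  have g5 : (x ^ 2 + y ^ 2 + z ^ 2) * A = (x ^ 2 + y ^ 2 + z ^ 2) * (c00 ^ 2 + c01 ^ 2 + c02 ^ 2) +
      (x ^ 2 + y ^ 2 + z ^ 2) * (c10 ^ 2 + c11 ^ 2 + c12 ^ 2) +
      (x ^ 2 + y ^ 2 + z ^ 2) * (c20 ^ 2 + c21 ^ 2 + c22 ^ 2) + (x ^ 2 + y ^ 2 + z ^ 2) := by
    rw [hA]; ring
  rw [g5]
  linarith

lemma int_pos685 (a b c : ℤ) (h : ¬ (a = 0 ∧ b = 0 ∧ c = 0)) : 1 ≤ a ^ 2 + b ^ 2 + c ^ 2 := by
  by_contra hc
  push Not at hc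
  apply h
  have h1 : a ^ 2 = 0 := by nlinarith [sq_nonneg a, sq_nonneg b, sq_nonneg c]
  have h2 : b ^ 2 = 0 := by nlinarith [sq_nonneg a, sq_nonneg b, sq_nonneg c]
  have h3 : c ^ 2 = 0 := by nlinarith [sq_nonneg a, sq_nonneg b, sq_nonneg c]
  exact ⟨by simpa using h1, by simpa using h2, by simpa using h3⟩

/-
TARGET. Plain proof. Let `e` be row 0 of the integer matrix `g`; it is a nonzero integer vector (det g = ±1). Row 0 of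
`g M` is `r = e M`, so `e = r M⁻¹ = r adj(M) / dt M`; some entry of `e` has absolute value ≥ 1, so
`|dt M| ≤ ‖r adj(M)‖ ≤ C1 * sqrt (dot r r)` where `C1` depends only on `M`; hence `dot r r ≥ ε1 > 0`, ε1 depending only on
`M`.  Likewise `crs (row 0 of gM) (row 1 of gM)` is the cofactor row 2 of `g M`, i.e. `f cof(M)` where `f` = the vector
product of rows 0, 1 of `g`, an integer vector, nonzero since its product with row 2 of `g` is det g = ±1; and `cof(M)` is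
invertible since `dt M ≠ 0`, so `dot (crs ..) (crs ..) ≥ ε2 > 0`.  A common lemma: if N is an invertible real 3×3 matrix
there is ε > 0 with  ε ≤ |e N|²  for every nonzero integer vector e.
-/
theorem ph_low (M : Om) (h0 : dt M ≠ 0) :
    ∃ ε : ℝ, 0 < ε ∧ ∀ g : Gm, ε ≤ ph (lact (g : Matrix (Fin 3) (Fin 3) ℤ) M) := by
  obtain ⟨ε1, hε1, H1⟩ := low685 M h0
  set N : Om := ![crs (M 1) (M 2), crs (M 2) (M 0), crs (M 0) (M 1)] with hN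
  have hdN : dt N = (dt M) ^ 2 := by
    simp only [hN, dt, crs, Matrix.cons_val_zero, Matrix.cons_val_one, Matrix.cons_val_two, Matrix.head_cons,
      Matrix.tail_cons]
    ring
  obtain ⟨ε2, hε2, H2⟩ := low685 N (by rw [hdN]; positivity)
  refine ⟨ε1 * ε2, by positivity, fun g => ?_⟩
  set G : Matrix (Fin 3) (Fin 3) ℤ := (g : Matrix (Fin 3) (Fin 3) ℤ) with hG
  have hdet : G.det ≠ 0 := by
    have h1 : IsUnit G.det := (Matrix.isUnit_iff_isUnit_det G).mp g.isUnit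
    exact h1.ne_zero
  rw [Matrix.det_fin_three] at hdet
  have k1 := H1 (G 0 0) (G 0 1) (G 0 2) (int_pos685 _ _ _ (by
    rintro ⟨p, q, r⟩
    apply hdet
    rw [p, q, r]
    ring))
  have k2 := H2 (G 0 1 * G 1 2 - G 0 2 * G 1 1) (G 0 2 * G 1 0 - G 0 0 * G 1 2) (G 0 0 * G 1 1 - G 0 1 * G 1 0)
    (int_pos685 _ _ _ (by
      rintro ⟨p, q, r⟩
      apply hdet
      linear_combination G 2 0 * p + G 2 1 * q + G 2 2 * r))
  have e1 : dot (lact G M 0) (lact G M 0) = ((G 0 0 : ℝ) * M 0 0 + G 0 1 * M 1 0 + G 0 2 * M 2 0) ^ 2 +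
      ((G 0 0 : ℝ) * M 0 1 + G 0 1 * M 1 1 + G 0 2 * M 2 1) ^ 2 +
      ((G 0 0 : ℝ) * M 0 2 + G 0 1 * M 1 2 + G 0 2 * M 2 2) ^ 2 := by
    simp only [dot, lact, Fin.sum_univ_three]
    ring
  have e2 : dot (crs (lact G M 0) (lact G M 1)) (crs (lact G M 0) (lact G M 1)) =
      (((G 0 1 * G 1 2 - G 0 2 * G 1 1 : ℤ) : ℝ) * N 0 0 + ((G 0 2 * G 1 0 - G 0 0 * G 1 2 : ℤ) : ℝ) * N 1 0 +
        ((G 0 0 * G 1 1 - G 0 1 * G 1 0 : ℤ) : ℝ) * N 2 0) ^ 2 +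
      (((G 0 1 * G 1 2 - G 0 2 * G 1 1 : ℤ) : ℝ) * N 0 1 + ((G 0 2 * G 1 0 - G 0 0 * G 1 2 : ℤ) : ℝ) * N 1 1 +
        ((G 0 0 * G 1 1 - G 0 1 * G 1 0 : ℤ) : ℝ) * N 2 1) ^ 2 +
      (((G 0 1 * G 1 2 - G 0 2 * G 1 1 : ℤ) : ℝ) * N 0 2 + ((G 0 2 * G 1 0 - G 0 0 * G 1 2 : ℤ) : ℝ) * N 1 2 +
        ((G 0 0 * G 1 1 - G 0 1 * G 1 0 : ℤ) : ℝ) * N 2 2) ^ 2 := by
    simp only [hN, dot, crs, lact, Fin.sum_univ_three, Matrix.cons_val_zero, Matrix.cons_val_one,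
      Matrix.cons_val_two, Matrix.head_cons, Matrix.tail_cons]
    simp
    ring
  unfold ph
  rw [e1, e2]
  exact mul_le_mul k1 k2 hε2.le (by positivity)

end Pool.Agent.Helper679_TR
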