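import Pool.Agent.Helper679_TR.Defs
import Pool.Agent.Helper679_TR.PhLow

/-! Reduce -/

namespace Pool.Agent.Helper679_TR

open Set MeasureTheory
open scoped ENNReal





theorem trA2_lact_mul (g h : Matrix (Fin 3) (Fin 3) ℤ) (M : Om) :
    lact (g * h) M = lact g (lact h M) := by
  funext i j
  simp only [lact, Matrix.mul_apply, Fin.sum_univ_three]
  push_cast
  ring

theorem trA2_dt (g : Matrix (Fin 3) (Fin 3) ℤ) (M : Om) : dt (lact g M) = (g.det : ℝ) * dt M := by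
  rw [Matrix.det_fin_three]
  simp only [dt, lact, Fin.sum_univ_three]
  push_cast
  ring

theorem trA2_unit (A : Matrix (Fin 3) (Fin 3) ℤ) (hA : A.det = 1 ∨ A.det = -1) :
    ∃ g : Gm, (g : Matrix (Fin 3) (Fin 3) ℤ) = A := by
  have h : IsUnit A := by
    rw [Matrix.isUnit_iff_isUnit_det, Int.isUnit_iff]
    exact hA
  exact ⟨h.unit, h.unit_spec⟩

theorem trA2_det (g : Gm) : |((g : Matrix (Fin 3) (Fin 3) ℤ).det : ℝ)| = 1 := by
  have h : IsUnit (g : Matrix (Fin 3) (Fin 3) ℤ).det := by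
    rw [← Matrix.isUnit_iff_isUnit_det]
    exact g.isUnit
  rcases Int.isUnit_iff.1 h with h | h <;> rw [h] <;> norm_num

theorem trA2_round (x A : ℝ) (hA : 0 < A) : |x - (round (x / A) : ℝ) * A| ≤ A / 2 := by
  have h := abs_sub_round (x / A)
  have e : x - (round (x / A) : ℝ) * A = (x / A - round (x / A)) * A := by
    field_simp
  rw [e, abs_mul, abs_of_pos hA]
  nlinarith

/-- almost minimal -/
def trA2_P (N : Om) : Prop :=
  ∀ g : Gm, ph N ≤ (4 / 3) * ph (lact (g : Matrix (Fin 3) (Fin 3) ℤ) N)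

theorem trA2_P_lact (N : Om) (g : Gm) (hP : trA2_P N)
    (h : ph (lact (g : Matrix (Fin 3) (Fin 3) ℤ) N) = ph N) :
    trA2_P (lact (g : Matrix (Fin 3) (Fin 3) ℤ) N) := by
  intro g'
  rw [h, ← trA2_lact_mul]
  have := hP (g' * g)
  rw [Units.val_mul] at this
  exact this

theorem trA2_dot_nonneg (u : Fin 3 → ℝ) : 0 ≤ dot u u := by
  unfold dot
  nlinarith [sq_nonneg (u 0), sq_nonneg (u 1), sq_nonneg (u 2)]

theorem trA2_pos (N : Om) (h : 0 < ph N) : 0 < dot (N 0) (N 0) ∧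
    0 < dot (crs (N 0) (N 1)) (crs (N 0) (N 1)) := by
  have h1 := trA2_dot_nonneg (N 0)
  have h2 := trA2_dot_nonneg (crs (N 0) (N 1))
  unfold ph at h
  constructor
  · rcases h1.lt_or_eq with h3 | h3
    · exact h3
    · rw [← h3, zero_mul] at h; exact absurd h (lt_irrefl _)
  · rcases h2.lt_or_eq with h3 | h3
    · exact h3
    · rw [← h3, mul_zero] at h; exact absurd h (lt_irrefl _)

theorem trA2_c0 (u v : Fin 3 → ℝ) : crs u v 0 = u 1 * v 2 - u 2 * v 1 := rfl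
theorem trA2_c1 (u v : Fin 3 → ℝ) : crs u v 1 = u 2 * v 0 - u 0 * v 2 := rfl
theorem trA2_c2 (u v : Fin 3 → ℝ) : crs u v 2 = u 0 * v 1 - u 1 * v 0 := rfl

/-- three elementary steps -/
theorem trA2_step (N : Om) (A : Matrix (Fin 3) (Fin 3) ℤ) (hA : A.det = 1 ∨ A.det = -1)
    (hP : trA2_P N) (h : ph (lact A N) = ph N) : ∃ g : Gm,
      lact (g : Matrix (Fin 3) (Fin 3) ℤ) N = lact A N ∧ trA2_P (lact A N) := by
  obtain ⟨g, hg⟩ := trA2_unit A hA
  refine ⟨g, by rw [hg], ?_⟩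
  rw [← hg] at h ⊢
  exact trA2_P_lact N g hP h

/-
TARGET. Plain proof. The infimum I of `ph (lact g M)` over g is > 0 by `h`, so there is g0 with
`ph (lact g0 M) ≤ (4/3) * ph (lact g M)` for all g. Let u, v, w be the rows of `lact g0 M`, A = dot u u, C = crs u v,
B = dot C C, p = prp u v = A v - (u.v) u. (A, B > 0 since ph ≥ ε > 0, both are ≥ 0.) Identities:
u.p = 0, v.p = B (Lagrange: A (v.v) - (u.v)^2 = B).
Size reduction (further left multiplication by unipotent integer matrices, does not change A, B, p nor ph, and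
`lact` is multiplicative):  v := v - k u with k = round ((u.v)/A) gives |u.v| ≤ A/2;  w := w - l v with
l = round ((w.p)/B) gives |w.p| ≤ B/2 (p unchanged);  w := w - m u with m = round((w.u)/A) gives |w.u| ≤ A/2 and
w.p is unchanged as u.p = 0.  w.C = dt (of the three rows) = ± dt M, so |w.C| ≤ 1. So S3 holds.
Swap rows 0 and 1 (an element of GL₃(ℤ)): A B ≤ (4/3) (v.v) B, so A ≤ (4/3) v.v, and A (v.v) = B + (u.v)^2 ≤ B + A^2/4,
so A^2 ≤ (4/3) (B + A^2/4), i.e. A^2 ≤ 2 B.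
Swap rows 1 and 2: A B ≤ (4/3) A |u×w|^2, and B |u×w|^2 = (w.p)^2 + A D^2 (polynomial identity, D = w.C;
it is `ring` after unfolding), so B^2 ≤ (4/3)(B^2/4 + A D^2), i.e. B^2 ≤ 2 A D^2 ≤ 2 A.
Finally A^4 ≤ 4 B^2 ≤ 8 A, so A^3 ≤ 8 and A ≤ 2. So S2 holds.
-/
set_option maxHeartbeats 4000000 in
theorem reduction_of_low (M : Om) (h0 : dt M ≠ 0) (h1 : |dt M| ≤ 1)
    (h : ∃ ε : ℝ, 0 < ε ∧ ∀ g : Gm, ε ≤ ph (lact (g : Matrix (Fin 3) (Fin 3) ℤ) M)) :
    ∃ g : Gm, lact (g : Matrix (Fin 3) (Fin 3) ℤ) M ∈ SS := by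
  obtain ⟨ε, hε, hle⟩ := h
  -- an almost minimiser
  obtain ⟨I, hI⟩ : ∃ I : ℝ, I = ⨅ g : Gm, ph (lact (g : Matrix (Fin 3) (Fin 3) ℤ) M) := ⟨_, rfl⟩
  have hbdd : BddBelow (Set.range fun g : Gm => ph (lact (g : Matrix (Fin 3) (Fin 3) ℤ) M)) :=
    ⟨ε, by rintro _ ⟨g, rfl⟩; exact hle g⟩
  have hIε : ε ≤ I := by rw [hI]; exact le_ciInf hle
  have hlt : (⨅ g : Gm, ph (lact (g : Matrix (Fin 3) (Fin 3) ℤ) M)) < (4 / 3) * I := by
    rw [← hI]; linarith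
  obtain ⟨g0, hg0⟩ := exists_lt_of_ciInf_lt hlt
  obtain ⟨N, hN⟩ : ∃ N, N = lact (g0 : Matrix (Fin 3) (Fin 3) ℤ) M := ⟨_, rfl⟩
  have hPN : trA2_P N := by
    intro g
    rw [hN, ← trA2_lact_mul, ← Units.val_mul]
    have h2 : I ≤ ph (lact ((g * g0 : Gm) : Matrix (Fin 3) (Fin 3) ℤ) M) := by
      rw [hI]; exact ciInf_le hbdd (g * g0)
    linarith
  have hphN : 0 < ph N := by rw [hN]; exact lt_of_lt_of_le hε (hle g0)
  -- step 1
  obtain ⟨hA, hB⟩ := trA2_pos N hphN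
  obtain ⟨k, hk⟩ : ∃ k : ℤ, k = round (dot (N 0) (N 1) / dot (N 0) (N 0)) := ⟨_, rfl⟩
  obtain ⟨N1, hN1⟩ : ∃ N1, N1 = lact !![1, 0, 0; -k, 1, 0; 0, 0, 1] N := ⟨_, rfl⟩
  have r10 : N1 0 = N 0 := by
    rw [hN1]; funext j; simp [lact, Fin.sum_univ_three]
  have r11 : N1 1 = fun j => N 1 j - k * N 0 j := by
    rw [hN1]; funext j; simp [lact, Fin.sum_univ_three]; ring
  have r12 : N1 2 = N 2 := by
    rw [hN1]; funext j; simp [lact, Fin.sum_univ_three]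
  have hph1 : ph N1 = ph N := by
    unfold ph
    rw [r10, r11]
    simp only [dot, trA2_c0, trA2_c1, trA2_c2]
    ring
  obtain ⟨g1, hg1, hP1⟩ := trA2_step N !![1, 0, 0; -k, 1, 0; 0, 0, 1]
    (Or.inl (by rw [Matrix.det_fin_three]; simp)) hPN (by rw [← hN1]; exact hph1)
  rw [← hN1] at hg1 hP1
  have huv : |dot (N1 0) (N1 1)| ≤ dot (N1 0) (N1 0) / 2 := by
    have h2 := trA2_round (dot (N 0) (N 1)) (dot (N 0) (N 0)) hA
    rw [← hk] at h2
    have e : dot (N1 0) (N1 1) = dot (N 0) (N 1) - k * dot (N 0) (N 0) := by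
      rw [r10, r11]; simp only [dot]; ring
    rw [e, r10]
    exact h2
  have hphN1 : 0 < ph N1 := by rw [hph1]; exact hphN
  obtain ⟨hA1, hB1⟩ := trA2_pos N1 hphN1
  -- step 2
  obtain ⟨l, hl⟩ : ∃ l : ℤ, l = round (dot (N1 2) (prp (N1 0) (N1 1)) /
    dot (crs (N1 0) (N1 1)) (crs (N1 0) (N1 1))) := ⟨_, rfl⟩
  obtain ⟨N2, hN2⟩ : ∃ N2, N2 = lact !![1, 0, 0; 0, 1, 0; 0, -l, 1] N1 := ⟨_, rfl⟩
  have r20 : N2 0 = N1 0 := by
    rw [hN2]; funext j; simp [lact, Fin.sum_univ_three]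
  have r21 : N2 1 = N1 1 := by
    rw [hN2]; funext j; simp [lact, Fin.sum_univ_three]
  have r22 : N2 2 = fun j => N1 2 j - l * N1 1 j := by
    rw [hN2]; funext j; simp [lact, Fin.sum_univ_three]; ring
  have hph2 : ph N2 = ph N1 := by
    unfold ph
    rw [r20, r21]
  obtain ⟨g2, hg2, hP2⟩ := trA2_step N1 !![1, 0, 0; 0, 1, 0; 0, -l, 1]
    (Or.inl (by rw [Matrix.det_fin_three]; simp)) hP1 (by rw [← hN2]; exact hph2)
  rw [← hN2] at hg2 hP2
  have hwp : |dot (N2 2) (prp (N2 0) (N2 1))| ≤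
      dot (crs (N2 0) (N2 1)) (crs (N2 0) (N2 1)) / 2 := by
    have h2 := trA2_round (dot (N1 2) (prp (N1 0) (N1 1)))
      (dot (crs (N1 0) (N1 1)) (crs (N1 0) (N1 1))) hB1
    rw [← hl] at h2
    have e : dot (N2 2) (prp (N2 0) (N2 1)) = dot (N1 2) (prp (N1 0) (N1 1)) -
        l * dot (crs (N1 0) (N1 1)) (crs (N1 0) (N1 1)) := by
      rw [r20, r21, r22]; simp only [dot, prp, trA2_c0, trA2_c1, trA2_c2]; ring
    rw [e, r20, r21]
    exact h2
  -- step 3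
  have hA2 : 0 < dot (N2 0) (N2 0) := by rw [r20]; exact hA1
  obtain ⟨m, hm⟩ : ∃ m : ℤ, m = round (dot (N2 2) (N2 0) / dot (N2 0) (N2 0)) := ⟨_, rfl⟩
  obtain ⟨N3, hN3⟩ : ∃ N3, N3 = lact !![1, 0, 0; 0, 1, 0; -m, 0, 1] N2 := ⟨_, rfl⟩
  have r30 : N3 0 = N2 0 := by
    rw [hN3]; funext j; simp [lact, Fin.sum_univ_three]
  have r31 : N3 1 = N2 1 := by
    rw [hN3]; funext j; simp [lact, Fin.sum_univ_three]
  have r32 : N3 2 = fun j => N2 2 j - m * N2 0 j := by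
    rw [hN3]; funext j; simp [lact, Fin.sum_univ_three]; ring
  have hph3 : ph N3 = ph N2 := by
    unfold ph
    rw [r30, r31]
  obtain ⟨g3, hg3, hP3⟩ := trA2_step N2 !![1, 0, 0; 0, 1, 0; -m, 0, 1]
    (Or.inl (by rw [Matrix.det_fin_three]; simp)) hP2 (by rw [← hN3]; exact hph3)
  rw [← hN3] at hg3 hP3
  have hwu : |dot (N3 2) (N3 0)| ≤ dot (N3 0) (N3 0) / 2 := by
    have h2 := trA2_round (dot (N2 2) (N2 0)) (dot (N2 0) (N2 0)) hA2
    rw [← hm] at h2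
    have e : dot (N3 2) (N3 0) = dot (N2 2) (N2 0) - m * dot (N2 0) (N2 0) := by
      rw [r30, r32]; simp only [dot]; ring
    rw [e, r30]
    exact h2
  have hwp3 : |dot (N3 2) (prp (N3 0) (N3 1))| ≤
      dot (crs (N3 0) (N3 1)) (crs (N3 0) (N3 1)) / 2 := by
    have e : dot (N3 2) (prp (N3 0) (N3 1)) = dot (N2 2) (prp (N2 0) (N2 1)) := by
      rw [r30, r31, r32]; simp only [dot, prp]; ring
    rw [e, r30, r31]
    exact hwp
  have huv3 : |dot (N3 0) (N3 1)| ≤ dot (N3 0) (N3 0) / 2 := by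
    rw [r30, r31, r20, r21]; exact huv
  have hphN3 : 0 < ph N3 := by rw [hph3, hph2]; exact hphN1
  obtain ⟨hA3, hB3⟩ := trA2_pos N3 hphN3
  -- determinant
  have hg : lact ((g3 * g2 * g1 * g0 : Gm) : Matrix (Fin 3) (Fin 3) ℤ) M = N3 := by
    rw [Units.val_mul, Units.val_mul, Units.val_mul, trA2_lact_mul, trA2_lact_mul, trA2_lact_mul,
      ← hN, hg1, hg2, hg3]
  have hdt : |dt N3| ≤ 1 := by
    rw [← hg, trA2_dt, abs_mul, trA2_det, one_mul]
    exact h1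
  refine ⟨g3 * g2 * g1 * g0, ?_⟩
  rw [hg]
  -- abbreviations
  obtain ⟨u, hu⟩ : ∃ u, u = N3 0 := ⟨_, rfl⟩
  obtain ⟨v, hv⟩ : ∃ v, v = N3 1 := ⟨_, rfl⟩
  obtain ⟨w, hw⟩ : ∃ w, w = N3 2 := ⟨_, rfl⟩
  have hD : dt N3 = dot w (crs u v) := by
    rw [hu, hv, hw]
    simp only [dt, dot, trA2_c0, trA2_c1, trA2_c2]
    ring
  rw [hD] at hdt
  have hph3e : ph N3 = dot u u * dot (crs u v) (crs u v) := by rw [hu, hv]; rfl
  -- swaps
  have hs1 : dot u u ≤ 4 / 3 * dot v v := by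
    obtain ⟨s, hs⟩ := trA2_unit !![0, 1, 0; 1, 0, 0; 0, 0, 1]
      (Or.inr (by rw [Matrix.det_fin_three]; simp))
    have h2 := hP3 s
    rw [hs, hph3e] at h2
    have e : ph (lact !![0, 1, 0; 1, 0, 0; 0, 0, 1] N3) =
        dot v v * dot (crs u v) (crs u v) := by
      unfold ph
      have e0 : lact !![0, 1, 0; 1, 0, 0; 0, 0, 1] N3 0 = v := by
        rw [hv]; funext j; simp [lact, Fin.sum_univ_three]
      have e1 : lact !![0, 1, 0; 1, 0, 0; 0, 0, 1] N3 1 = u := by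
        rw [hu]; funext j; simp [lact, Fin.sum_univ_three]
      rw [e0, e1]
      simp only [dot, trA2_c0, trA2_c1, trA2_c2]
      ring
    rw [e] at h2
    rw [← hu, ← hv] at hB3
    have h3 : dot u u * dot (crs u v) (crs u v) ≤
        (4 / 3 * dot v v) * dot (crs u v) (crs u v) := by linarith
    exact le_of_mul_le_mul_right h3 hB3
  have hs2 : dot (crs u v) (crs u v) ≤ 4 / 3 * dot (crs u w) (crs u w) := by
    obtain ⟨s, hs⟩ := trA2_unit !![1, 0, 0; 0, 0, 1; 0, 1, 0]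
      (Or.inr (by rw [Matrix.det_fin_three]; simp))
    have h2 := hP3 s
    rw [hs, hph3e] at h2
    have e : ph (lact !![1, 0, 0; 0, 0, 1; 0, 1, 0] N3) =
        dot u u * dot (crs u w) (crs u w) := by
      unfold ph
      have e0 : lact !![1, 0, 0; 0, 0, 1; 0, 1, 0] N3 0 = u := by
        rw [hu]; funext j; simp [lact, Fin.sum_univ_three]
      have e1 : lact !![1, 0, 0; 0, 0, 1; 0, 1, 0] N3 1 = w := by
        rw [hw]; funext j; simp [lact, Fin.sum_univ_three]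
      rw [e0, e1]
    rw [e] at h2
    rw [← hu] at hA3
    have h3 : dot u u * dot (crs u v) (crs u v) ≤
        dot u u * (4 / 3 * dot (crs u w) (crs u w)) := by linarith
    exact le_of_mul_le_mul_left h3 hA3
  have hL : dot u u * dot v v = dot (crs u v) (crs u v) + dot u v ^ 2 := by
    simp only [dot, trA2_c0, trA2_c1, trA2_c2]
    ring
  have hG : dot (crs u v) (crs u v) * dot (crs u w) (crs u w) =
      dot w (prp u v) ^ 2 + dot u u * dot w (crs u v) ^ 2 := by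
    simp only [dot, prp, trA2_c0, trA2_c1, trA2_c2]
    ring
  rw [← hu, ← hv, ← hw] at hwp3
  rw [← hu, ← hw] at hwu
  rw [← hu, ← hv] at huv3 hB3
  rw [← hu] at hA3
  obtain ⟨A, hAd⟩ : ∃ A, A = dot u u := ⟨_, rfl⟩
  obtain ⟨B, hBd⟩ : ∃ B, B = dot (crs u v) (crs u v) := ⟨_, rfl⟩
  have huvs : dot u v ^ 2 ≤ (A / 2) ^ 2 := by
    rw [hAd, ← sq_abs (dot u v)]
    exact pow_le_pow_left₀ (abs_nonneg _) huv3 2
  have hwps : dot w (prp u v) ^ 2 ≤ (B / 2) ^ 2 := by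
    rw [hBd, ← sq_abs (dot w (prp u v))]
    exact pow_le_pow_left₀ (abs_nonneg _) hwp3 2
  have hDs : dot w (crs u v) ^ 2 ≤ 1 := by
    rw [← sq_abs (dot w (crs u v))]
    calc |dot w (crs u v)| ^ 2 ≤ 1 ^ 2 := pow_le_pow_left₀ (abs_nonneg _) hdt 2
      _ = 1 := one_pow 2
  rw [← hAd] at hs1 hL hG hA3
  rw [← hBd] at hs2 hL hG hB3
  have hAB : A ^ 2 ≤ 2 * B := by
    have h2 : A * A ≤ A * (4 / 3 * dot v v) := mul_le_mul_of_nonneg_left hs1 hA3.le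
    nlinarith
  have hBA : B ^ 2 ≤ 2 * A := by
    have h2 : B * B ≤ B * (4 / 3 * dot (crs u w) (crs u w)) :=
      mul_le_mul_of_nonneg_left hs2 hB3.le
    have h3 : A * dot w (crs u v) ^ 2 ≤ A * 1 := mul_le_mul_of_nonneg_left hDs hA3.le
    nlinarith
  have hA4 : A ≤ 2 := by
    have h2 : (A ^ 2) ^ 2 ≤ (2 * B) ^ 2 := pow_le_pow_left₀ (by positivity) hAB 2
    have h3 : A * A ^ 3 ≤ A * 8 := by nlinarith
    have h4 : A ^ 3 ≤ 8 := le_of_mul_le_mul_left h3 hA3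
    by_contra hcon
    push Not at hcon
    have h5 : (2 : ℝ) ^ 3 < A ^ 3 := pow_lt_pow_left₀ hcon (by norm_num) (by norm_num)
    norm_num at h5
    linarith
  show S2 (N3 0) (N3 1) ∧ S3 (N3 0) (N3 1) (N3 2)
  rw [← hu, ← hv, ← hw]
  refine ⟨⟨?_, ?_, huv3, ?_, ?_⟩, hwu, hwp3, hdt⟩
  · rw [← hAd]; exact hA3
  · rw [← hAd]; exact hA4
  · rw [← hBd]; exact hB3
  · rw [← hAd, ← hBd]; exact hBA

end Pool.Agent.Helper679_TR
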