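import Pool.Agent.Helper679_TR.Defs
import Pool.Agent.Helper679_TR.Reduce
import Pool.Agent.Helper679_TR.Mp
import Pool.Agent.Helper679_TR.Pos
import Pool.Agent.Helper679_TR.Cover
import Pool.Agent.Helper679_TR.Order

/-! The space of matrices with the actions from the left and from the right. -/

namespace Pool.Agent.Helper679_TR

open Set MeasureTheory Filter
open scoped ENNReal Topology

set_option linter.deprecated false

/-! ### the left action -/

theorem lact_one (M : Om) : lact 1 M = M := by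
  funext i j
  simp [lact, Matrix.one_apply]

theorem lact_mul' (g h : Gm) (M : Om) :
    lact ((g * h : Gm) : Matrix (Fin 3) (Fin 3) ℤ) M = lact g (lact h M) := by
  rw [Units.val_mul]
  exact trA2_lact_mul _ _ _

theorem lact_col (g : Matrix (Fin 3) (Fin 3) ℤ) (M : Om) (i : Fin 3) :
    lact g M i 0 = ∑ k, (g i k : ℝ) * M k 0 := rfl

theorem irr_lact (g : Gm) {M : Om} (h : Irr M) : Irr (lact g M) := by
  intro n hn
  have h1 : ∑ i, (n i : ℝ) * lact g M i 0 =
      ∑ k, ((Matrix.vecMul n (g : Matrix (Fin 3) (Fin 3) ℤ) k : ℤ) : ℝ) * M k 0 := by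
    simp only [lact, Matrix.vecMul, dotProduct, Fin.sum_univ_three]
    push_cast
    ring
  rw [h1]
  apply h
  intro h2
  apply hn
  have h3 : Matrix.vecMul (Matrix.vecMul n (g : Matrix (Fin 3) (Fin 3) ℤ))
      ((g⁻¹ : Gm) : Matrix (Fin 3) (Fin 3) ℤ) = n := by
    rw [Matrix.vecMul_vecMul, ← Units.val_mul, mul_inv_cancel, Units.val_one, Matrix.vecMul_one]
  rw [← h3, h2, Matrix.zero_vecMul]

theorem fre_lact (g : Gm) {M : Om} (h : Fre M) : Fre (lact g M) := by
  intro g' r hr hg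
  have h1 : lact ((g' : Matrix (Fin 3) (Fin 3) ℤ)) (lact g M) =
      lact ((g' * g : Gm) : Matrix (Fin 3) (Fin 3) ℤ) M := (lact_mul' _ _ _).symm
  have h2 : g⁻¹ * g' * g = 1 := by
    refine h _ r hr ?_
    intro i
    have e1 : ∑ k, (((g⁻¹ * g' * g : Gm) : Matrix (Fin 3) (Fin 3) ℤ) i k : ℝ) * M k 0 =
        lact ((g⁻¹ : Gm) : Matrix (Fin 3) (Fin 3) ℤ) (lact g' (lact g M)) i 0 := by
      rw [← lact_mul', ← lact_mul', mul_assoc]
      rfl
    have e2 : ∀ k, lact (g' : Matrix (Fin 3) (Fin 3) ℤ) (lact g M) k 0 = r * lact g M k 0 := hg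
    have e3 : lact ((g⁻¹ : Gm) : Matrix (Fin 3) (Fin 3) ℤ) (lact g M) = M := by
      rw [← lact_mul', inv_mul_cancel, Units.val_one, lact_one]
    rw [e1]
    calc lact ((g⁻¹ : Gm) : Matrix (Fin 3) (Fin 3) ℤ) (lact g' (lact g M)) i 0
        = ∑ k, (((g⁻¹ : Gm) : Matrix (Fin 3) (Fin 3) ℤ) i k : ℝ) * (r * lact g M k 0) := by
          rw [lact_col]
          simp only [e2]
      _ = r * lact ((g⁻¹ : Gm) : Matrix (Fin 3) (Fin 3) ℤ) (lact g M) i 0 := by
          rw [lact_col, Finset.mul_sum]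
          exact Finset.sum_congr rfl fun k _ => by ring
      _ = r * M i 0 := by rw [e3]
  have h3 : g' = g * (g⁻¹ * g' * g) * g⁻¹ := by group
  rw [h3, h2]
  group

theorem xx_lact (g : Gm) {M : Om} (h : M ∈ XX) : lact g M ∈ XX := by
  obtain ⟨h1, h2, h3, h4⟩ := h
  have hd : |dt (lact g M)| = |dt M| := by
    rw [trA2_dt, abs_mul, trA2_det, one_mul]
  refine ⟨?_, ?_, irr_lact g h3, fre_lact g h4⟩
  · rw [← abs_ne_zero, hd, abs_ne_zero]
    exact h1
  · rw [hd]
    exact h2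

noncomputable instance : MulAction Gm XX where
  smul g x := ⟨lact g x.1, xx_lact g x.2⟩
  one_smul x := Subtype.ext (lact_one x.1)
  mul_smul g h x := Subtype.ext (lact_mul' g h x.1)

theorem smul_val (g : Gm) (x : XX) : (g • x).1 = lact g x.1 := rfl

/-! ### the right maps -/

/-- right multiplication by the transpose of `L` -/
def rt (L : Matrix (Fin 3) (Fin 3) ℝ) (M : Om) : Om := fun i => L.mulVec (M i)

/-- the matrices we use: determinant 1, first row `(r, 0, 0)`, `r > 0` -/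
structure Rg (L : Matrix (Fin 3) (Fin 3) ℝ) : Prop where
  d : L.det = 1
  p : 0 < L 0 0
  z1 : L 0 1 = 0
  z2 : L 0 2 = 0

theorem rt_lact (L : Matrix (Fin 3) (Fin 3) ℝ) (g : Matrix (Fin 3) (Fin 3) ℤ) (M : Om) :
    rt L (lact g M) = lact g (rt L M) := by
  funext i j
  simp only [rt, lact, Matrix.mulVec, dotProduct, Fin.sum_univ_three]
  ring

theorem rt_rt (L L' : Matrix (Fin 3) (Fin 3) ℝ) (M : Om) : rt L (rt L' M) = rt (L * L') M := by
  funext i
  simp only [rt, Matrix.mulVec_mulVec]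

theorem rt_one (M : Om) : rt 1 M = M := by
  funext i
  simp only [rt, Matrix.one_mulVec]

theorem rt_col {L : Matrix (Fin 3) (Fin 3) ℝ} (hL : Rg L) (M : Om) (i : Fin 3) :
    rt L M i 0 = L 0 0 * M i 0 := by
  simp only [rt, Matrix.mulVec, dotProduct, Fin.sum_univ_three, hL.z1, hL.z2]
  ring

theorem rt_dt (L : Matrix (Fin 3) (Fin 3) ℝ) (M : Om) : dt (rt L M) = L.det * dt M := by
  rw [Matrix.det_fin_three]
  simp only [rt, dt, Matrix.mulVec, dotProduct, Fin.sum_univ_three]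
  ring

theorem rt_irr {L : Matrix (Fin 3) (Fin 3) ℝ} (hL : Rg L) (M : Om) :
    Irr (rt L M) ↔ Irr M := by
  unfold Irr
  refine forall_congr' fun n => forall_congr' fun _ => ?_
  have h1 : ∑ i, (n i : ℝ) * rt L M i 0 = L 0 0 * ∑ i, (n i : ℝ) * M i 0 := by
    simp only [rt_col hL, Fin.sum_univ_three]
    ring
  rw [h1, mul_ne_zero_iff]
  exact ⟨fun h => h.2, fun h => ⟨hL.p.ne', h⟩⟩

theorem rt_fre {L : Matrix (Fin 3) (Fin 3) ℝ} (hL : Rg L) (M : Om) :
    Fre (rt L M) ↔ Fre M := by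
  unfold Fre
  refine forall_congr' fun g => forall_congr' fun r => forall_congr' fun _ => ?_
  have h1 : (∀ i, ∑ k, ((g : Matrix (Fin 3) (Fin 3) ℤ) i k : ℝ) * rt L M k 0 =
      r * rt L M i 0) ↔ (∀ i, ∑ k, ((g : Matrix (Fin 3) (Fin 3) ℤ) i k : ℝ) * M k 0 =
      r * M i 0) := by
    refine forall_congr' fun i => ?_
    have e1 : ∑ k, ((g : Matrix (Fin 3) (Fin 3) ℤ) i k : ℝ) * rt L M k 0 =
        L 0 0 * ∑ k, ((g : Matrix (Fin 3) (Fin 3) ℤ) i k : ℝ) * M k 0 := by
      simp only [rt_col hL, Fin.sum_univ_three]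
      ring
    have e2 : r * rt L M i 0 = L 0 0 * (r * M i 0) := by
      rw [rt_col hL]
      ring
    rw [e1, e2]
    exact mul_right_inj' hL.p.ne'
  rw [h1]

theorem rt_mem {L : Matrix (Fin 3) (Fin 3) ℝ} (hL : Rg L) (M : Om) : rt L M ∈ XX ↔ M ∈ XX := by
  unfold XX
  simp only [Set.mem_setOf_eq]
  rw [rt_dt, hL.d, one_mul, rt_irr hL, rt_fre hL]

/-- the flow on the space -/
def rX (L : Matrix (Fin 3) (Fin 3) ℝ) (hL : Rg L) (x : XX) : XX := ⟨rt L x.1, (rt_mem hL _).2 x.2⟩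

/-- the measure -/
noncomputable def mu : Measure XX := Measure.comap Subtype.val volume

theorem mu_apply (A : Set XX) : mu A = volume (Subtype.val '' A) :=
  comap_subtype_coe_apply measurableSet_XX _ _

theorem mp_sub {f : Om → Om} (hf : MeasurePreserving f volume volume)
    (h1 : ∀ M, f M ∈ XX ↔ M ∈ XX) {f' : XX → XX} (hf' : ∀ x, (f' x).1 = f x.1) :
    MeasurePreserving f' mu mu := by
  have hm : Measurable f' := by
    have : Measurable fun x : XX => f x.1 := hf.measurable.comp measurable_subtype_coe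
    refine Measurable.of_comap_le ?_ |>.mono le_rfl le_rfl
    rintro s ⟨t, ht, rfl⟩
    obtain ⟨u, hu, rfl⟩ := ht
    have e : f' ⁻¹' (Subtype.val ⁻¹' u) = (fun x : XX => f x.1) ⁻¹' u := by
      ext x
      simp [hf']
    rw [e]
    exact this hu
  refine ⟨hm, ?_⟩
  ext A hA
  rw [Measure.map_apply hm hA, mu_apply, mu_apply]
  have hA' : MeasurableSet (Subtype.val '' A : Set Om) := measurableSet_XX.subtype_image hA
  have e : (Subtype.val '' (f' ⁻¹' A) : Set Om) = f ⁻¹' (Subtype.val '' A) := by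
    ext M
    constructor
    · rintro ⟨x, hx, rfl⟩
      exact ⟨f' x, hx, hf' x⟩
    · rintro ⟨y, hy, hyM⟩
      have hM : M ∈ XX := (h1 M).1 (hyM ▸ y.2)
      refine ⟨⟨M, hM⟩, ?_, rfl⟩
      have : f' ⟨M, hM⟩ = y := Subtype.ext ((hf' _).trans hyM.symm)
      show f' ⟨M, hM⟩ ∈ A
      rw [this]
      exact hy
  rw [e, hf.measure_preimage hA'.nullMeasurableSet]

theorem mp_smul (g : Gm) : MeasurePreserving (fun x : XX => g • x) mu mu := by
  refine mp_sub (mp_lact g) (fun M => ⟨fun h => ?_, fun h => xx_lact g h⟩) (fun x => rfl)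
  have := xx_lact g⁻¹ h
  rwa [← lact_mul', inv_mul_cancel, Units.val_one, lact_one] at this

theorem mp_rX {L : Matrix (Fin 3) (Fin 3) ℝ} (hL : Rg L) : MeasurePreserving (rX L hL) mu mu :=
  mp_sub (f := rt L) (mp_right L (by rw [hL.d, abs_one])) (fun M => rt_mem hL M) (fun x => rfl)

theorem rX_smul {L : Matrix (Fin 3) (Fin 3) ℝ} (hL : Rg L) (g : Gm) (x : XX) :
    rX L hL (g • x) = g • rX L hL x := Subtype.ext (rt_lact _ _ _)

theorem rX_rX {L L' : Matrix (Fin 3) (Fin 3) ℝ} (hL : Rg L) (hL' : Rg L') (h : L * L' = 1)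
    (x : XX) : rX L hL (rX L' hL' x) = x := by
  apply Subtype.ext
  show rt L (rt L' x.1) = x.1
  rw [rt_rt, h, rt_one]

theorem rX_comm {L L' : Matrix (Fin 3) (Fin 3) ℝ} (hL : Rg L) (hL' : Rg L') (h : L * L' = L' * L)
    (x : XX) : rX L hL (rX L' hL' x) = rX L' hL' (rX L hL x) := by
  apply Subtype.ext
  show rt L (rt L' x.1) = rt L' (rt L x.1)
  rw [rt_rt, rt_rt, h]

end Pool.Agent.Helper679_TR
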