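import Pool.Agent.Helper679_TR.Conc

/-! From matrices to Archimedean orders. -/

namespace Pool.Agent.Helper679_TR

open Set MeasureTheory Filter
open scoped ENNReal Topology

set_option linter.deprecated false

/-- scalar product of an integer vector with column 0 -/
def sc (n : Fin 3 → ℤ) (M : Om) : ℝ := ∑ i, (n i : ℝ) * M i 0

theorem sc_add (m n : Fin 3 → ℤ) (M : Om) : sc (m + n) M = sc m M + sc n M := by
  simp only [sc, Fin.sum_univ_three, Pi.add_apply]
  push_cast
  ring

theorem sc_sub (m n : Fin 3 → ℤ) (M : Om) : sc (m - n) M = sc m M - sc n M := by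
  simp only [sc, Fin.sum_univ_three, Pi.sub_apply]
  push_cast
  ring

theorem sc_zero (M : Om) : sc 0 M = 0 := by
  simp [sc]

theorem sc_nsmul (k : ℕ) (n : Fin 3 → ℤ) (M : Om) : sc (k • n) M = k * sc n M := by
  simp only [sc, Fin.sum_univ_three, Pi.smul_apply, nsmul_eq_mul]
  push_cast
  ring

open Classical in
/-- the cone of a matrix -/
noncomputable def cone (M : Om) : (Fin 3 → ℤ) → Bool := fun n => decide (0 < sc n M)

theorem cone_iff (M : Om) (n : Fin 3 → ℤ) : cone M n = true ↔ 0 < sc n M := by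
  classical
  unfold cone
  rw [decide_eq_true_iff]

theorem cone_mem {M : Om} (h : Irr M) : cone M ∈ Ar := by
  refine ⟨fun a b => sc a M < sc b M, ⟨fun a => lt_irrefl _, fun a b c => lt_trans, ?_, ?_, ?_⟩, ?_⟩
  · intro a b hab
    have h1 : sc (a - b) M ≠ 0 := h (a - b) (sub_ne_zero.2 hab)
    rw [sc_sub] at h1
    exact lt_or_gt_of_ne (sub_ne_zero.1 h1)
  · intro a b c hab
    rw [sc_add, sc_add]
    linarith
  · intro a b ha
    rw [sc_zero] at ha
    obtain ⟨k, hk⟩ := exists_nat_gt (sc b M / sc a M)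
    refine ⟨k, ?_⟩
    rw [sc_nsmul]
    exact (div_lt_iff₀ ha).1 hk
  · intro a
    show cone M a = true ↔ sc 0 M < sc a M
    rw [cone_iff, sc_zero]

/-- the order of a point -/
noncomputable def pt (x : XX) : Ar := ⟨cone x.1, cone_mem x.2.2.2.1⟩

/-- the inverse transpose -/
def tr (g : Gm) : Gm where
  val := ((g⁻¹ : Gm) : Matrix (Fin 3) (Fin 3) ℤ).transpose
  inv := (g : Matrix (Fin 3) (Fin 3) ℤ).transpose
  val_inv := by rw [← Matrix.transpose_mul, ← Units.val_mul, mul_inv_cancel, Units.val_one,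
    Matrix.transpose_one]
  inv_val := by rw [← Matrix.transpose_mul, ← Units.val_mul, inv_mul_cancel, Units.val_one,
    Matrix.transpose_one]

theorem sc_mulVec (A : Matrix (Fin 3) (Fin 3) ℤ) (n : Fin 3 → ℤ) (M : Om) :
    sc (A.mulVec n) M = sc n (lact A.transpose M) := by
  simp only [sc, lact, Matrix.mulVec, dotProduct, Fin.sum_univ_three, Matrix.transpose_apply]
  push_cast
  ring

theorem mv_pt (g : Gm) (x : XX) : mv g (pt x : (Fin 3 → ℤ) → Bool) = pt (tr g • x) := by
  funext n
  rw [Bool.eq_iff_iff]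
  show cone x.1 _ = true ↔ cone (lact (tr g) x.1) n = true
  rw [cone_iff, cone_iff, sc_mulVec]
  rfl

theorem tr_tr (g : Gm) : tr (tr g) = g := by
  apply Units.ext
  show ((tr g)⁻¹ : Gm).1.transpose = g.1
  show (g.1.transpose).transpose = g.1
  rw [Matrix.transpose_transpose]

theorem rel_pt (g : Gm) (x : XX) : OrbitRel (pt x) (pt (g • x)) := by
  refine ⟨tr g, ?_⟩
  have := mv_pt (tr g) x
  rw [tr_tr] at this
  exact this.symm

theorem eq_of_rat {α β : ℝ} (h : ∀ p q : ℤ, 0 < q → (0 < q * α - p ↔ 0 < q * β - p)) :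
    α = β := by
  by_contra hne
  rcases lt_or_gt_of_ne hne with hlt | hlt
  · obtain ⟨r, h1, h2⟩ := exists_rat_btwn hlt
    have hq : (0 : ℝ) < r.den := by exact_mod_cast r.den_pos
    have hr : (r : ℝ) * r.den = r.num := by exact_mod_cast Rat.mul_den_eq_num r
    have e := h r.num r.den (by exact_mod_cast r.den_pos)
    push_cast at e
    have e2 : 0 < (r.den : ℝ) * β - r.num := by
      rw [← hr]
      nlinarith
    have e1 := e.2 e2
    rw [← hr] at e1
    nlinarith
  · obtain ⟨r, h1, h2⟩ := exists_rat_btwn hlt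
    have hq : (0 : ℝ) < r.den := by exact_mod_cast r.den_pos
    have hr : (r : ℝ) * r.den = r.num := by exact_mod_cast Rat.mul_den_eq_num r
    have e := h r.num r.den (by exact_mod_cast r.den_pos)
    push_cast at e
    have e2 : 0 < (r.den : ℝ) * α - r.num := by
      rw [← hr]
      nlinarith
    have e1 := e.1 e2
    rw [← hr] at e1
    nlinarith

theorem sc_two (p q : ℤ) (i : Fin 3) (M : Om) :
    sc (fun j => (if j = i then q else 0) + (if j = 0 then p else 0)) M =
      q * M i 0 + p * M 0 0 := by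
  simp only [sc]
  have : ∀ j : Fin 3, (((if j = i then q else 0) + (if j = 0 then p else 0) : ℤ) : ℝ) * M j 0 =
      (if j = i then (q : ℝ) * M j 0 else 0) + (if j = 0 then (p : ℝ) * M j 0 else 0) := by
    intro j
    split_ifs <;> push_cast <;> ring
  simp only [this, Finset.sum_add_distrib, Finset.sum_ite_eq', Finset.mem_univ, if_true]

theorem cone_eq {M N : Om} (hM : Irr M) (hN : Irr N) (h : cone M = cone N) :
    ∃ r : ℝ, 0 < r ∧ ∀ i, N i 0 = r * M i 0 := by
  have h1 : ∀ n, 0 < sc n M ↔ 0 < sc n N := by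
    intro n
    rw [← cone_iff, ← cone_iff, h]
  have hM0 := hM.ne 0
  have hN0 := hN.ne 0
  have h2 : ∀ (p q : ℤ) (i : Fin 3), 0 < q * M i 0 + p * M 0 0 ↔ 0 < q * N i 0 + p * N 0 0 := by
    intro p q i
    rw [← sc_two, ← sc_two]
    exact h1 _
  have h3 : 0 < M 0 0 ↔ 0 < N 0 0 := by
    have := h2 1 0 0
    simpa using this
  have key : ∀ i, M i 0 / M 0 0 = N i 0 / N 0 0 := by
    intro i
    apply eq_of_rat
    intro p q hq
    rcases lt_or_gt_of_ne hM0 with hs | hs
    · have hs' : N 0 0 < 0 := lt_of_le_of_ne (not_lt.1 (fun h4 => absurd (h3.2 h4) (not_lt.2 hs.le)))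
        hN0
      have e1 : (q : ℝ) * (M i 0 / M 0 0) - p = ((-q : ℤ) * M i 0 + p * M 0 0) / (-(M 0 0)) := by
        push_cast
        field_simp
        ring
      have e2 : (q : ℝ) * (N i 0 / N 0 0) - p = ((-q : ℤ) * N i 0 + p * N 0 0) / (-(N 0 0)) := by
        push_cast
        field_simp
        ring
      rw [e1, e2, div_pos_iff_of_pos_right (by linarith), div_pos_iff_of_pos_right (by linarith)]
      exact h2 p (-q) i
    · have hs' : 0 < N 0 0 := h3.1 hs
      have e1 : (q : ℝ) * (M i 0 / M 0 0) - p = (q * M i 0 + (-p : ℤ) * M 0 0) / (M 0 0) := by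
        push_cast
        field_simp
        ring
      have e2 : (q : ℝ) * (N i 0 / N 0 0) - p = (q * N i 0 + (-p : ℤ) * N 0 0) / (N 0 0) := by
        push_cast
        field_simp
        ring
      rw [e1, e2, div_pos_iff_of_pos_right hs, div_pos_iff_of_pos_right hs']
      exact h2 (-p) q i
  refine ⟨N 0 0 / M 0 0, ?_, ?_⟩
  · rcases lt_or_gt_of_ne hM0 with hs | hs
    · have hs' : N 0 0 < 0 := lt_of_le_of_ne (not_lt.1 (fun h4 => absurd (h3.2 h4) (not_lt.2 hs.le)))
        hN0
      exact div_pos_of_neg_of_neg hs' hs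
    · exact div_pos (h3.1 hs) hs
  · intro i
    have := key i
    field_simp at this ⊢
    linarith

theorem pt_inj (x : XX) {s t : Gm} (h : pt (s • x) = pt (t • x)) : s = t := by
  have h1 : cone (s • x).1 = cone (t • x).1 := congrArg Subtype.val h
  obtain ⟨r, hr, hr2⟩ := cone_eq (s • x).2.2.2.1 (t • x).2.2.2.1 h1
  have h2 : Fre (s • x).1 := (s • x).2.2.2.2
  have h3 : t * s⁻¹ = 1 := by
    refine h2 _ r hr ?_
    intro i
    have e1 : ((t * s⁻¹ : Gm) • (s • x)) = t • x := by
      rw [smul_smul]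
      group
    have e2 : ((t * s⁻¹ : Gm) • (s • x)).1 i 0 = (t • x).1 i 0 := by rw [e1]
    rw [← hr2 i, ← e2]
    rfl
  exact (mul_inv_eq_one.1 h3).symm

/-- the tree on the group -/
noncomputable def TT (G : SimpleGraph Ar) (x : XX) : SimpleGraph Gm := G.comap fun s => pt (s • x)

theorem tt_adj (G : SimpleGraph Ar) (x : XX) (s t : Gm) :
    (TT G x).Adj s t ↔ G.Adj (pt (s • x)) (pt (t • x)) := Iff.rfl

theorem tt_tree {G : SimpleGraph Ar} (ha : G.IsAcyclic) (hr : ∀ x y, G.Reachable x y ↔ OrbitRel x y)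
    (x : XX) : (TT G x).IsTree := by
  constructor
  · have key : ∀ {P Q : Ar} (p : G.Walk P Q) (s t : Gm), pt (s • x) = P → pt (t • x) = Q →
        (TT G x).Reachable s t := by
      intro P Q p
      induction p with
      | nil =>
        intro s t hs ht
        have : s = t := pt_inj x (hs.trans ht.symm)
        rw [this]
      | @cons P R Q h p ih =>
        intro s t hs ht
        have h1 : OrbitRel P R := (hr P R).1 h.reachable
        obtain ⟨g, hg⟩ := h1
        have h2 : pt ((tr g * s) • x) = R := by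
          apply Subtype.ext
          rw [hg, ← hs, mv_pt, smul_smul]
        have h3 : (TT G x).Adj s (tr g * s) := by
          rw [tt_adj, hs, h2]
          exact h
        exact h3.reachable.trans (ih _ _ h2 ht)
    have : Nonempty Gm := ⟨1⟩
    refine ⟨fun s t => ?_⟩
    have h1 : G.Reachable (pt (s • x)) (pt (t • x)) := by
      rw [hr]
      have := rel_pt (t * s⁻¹) (s • x)
      rwa [smul_smul, inv_mul_cancel_right] at this
    obtain ⟨p⟩ := h1
    exact key p s t rfl rfl
  · exact SimpleGraph.IsAcyclic.comap (⟨fun s => pt (s • x), fun h => h⟩ : TT G x →g G)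
      (fun s t h => pt_inj x h) ha

theorem tt_smul (G : SimpleGraph Ar) (h : Gm) (x : XX) (s t : Gm) :
    (TT G (h • x)).Adj s t ↔ (TT G x).Adj (s * h) (t * h) := by
  rw [tt_adj, tt_adj, smul_smul, smul_smul]

theorem pt_rX {L : Matrix (Fin 3) (Fin 3) ℝ} (hL : Rg L) (x : XX) : pt (rX L hL x) = pt x := by
  apply Subtype.ext
  funext n
  rw [Bool.eq_iff_iff]
  show cone (rt L x.1) n = true ↔ cone x.1 n = true
  rw [cone_iff, cone_iff]
  have : sc n (rt L x.1) = L 0 0 * sc n x.1 := by
    simp only [sc, rt_col hL, Fin.sum_univ_three]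
    ring
  rw [this]
  exact mul_pos_iff_of_pos_left hL.p

theorem tt_rX (G : SimpleGraph Ar) {L : Matrix (Fin 3) (Fin 3) ℝ} (hL : Rg L) (x : XX) :
    TT G (rX L hL x) = TT G x := by
  ext s t
  rw [tt_adj, tt_adj, ← rX_smul, ← rX_smul, pt_rX, pt_rX]

theorem measurable_pt : Measurable pt := by
  refine Measurable.subtype_mk (measurable_pi_lambda _ fun n => ?_)
  apply measurable_to_bool
  have : (fun x : XX => cone x.1 n) ⁻¹' {true} = {x : XX | 0 < sc n x.1} := by
    ext x
    exact cone_iff x.1 n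
  rw [this]
  refine measurableSet_lt measurable_const ?_
  unfold sc
  refine Finset.measurable_sum _ fun i _ => ?_
  exact ((meas_entry i 0).comp measurable_subtype_coe).const_mul _

theorem tt_meas {G : SimpleGraph Ar}
    (hG : @MeasurableSet (Ar × Ar) (borel (Ar × Ar)) {p : Ar × Ar | G.Adj p.1 p.2}) (s t : Gm) :
    MeasurableSet {x | (TT G x).Adj s t} := by
  have h1 : MeasurableSet {p : Ar × Ar | G.Adj p.1 p.2} := by
    rw [BorelSpace.measurable_eq (α := Ar × Ar)]
    exact hG
  have h2 : Measurable fun x : XX => (pt (s • x), pt (t • x)) :=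
    (measurable_pt.comp (mp_smul s).measurable).prodMk (measurable_pt.comp (mp_smul t).measurable)
  exact h2 h1

end Pool.Agent.Helper679_TR
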