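import Mathlib

/-! Definitions: 3 × 3 real matrices, the group GL₃(ℤ), a reduction domain. -/

namespace Pool.Agent.Helper679_TR

open Set MeasureTheory

/-- 3 × 3 real matrices, as functions, with Lebesgue measure; `M i j` is row `i`, column `j` -/
abbrev Om := Fin 3 → Fin 3 → ℝ

/-- the group GL₃(ℤ) -/
abbrev Gm := (Matrix (Fin 3) (Fin 3) ℤ)ˣ

/-- left multiplication by an integer matrix -/
def lact (g : Matrix (Fin 3) (Fin 3) ℤ) (M : Om) : Om := fun i j => ∑ k, (g i k : ℝ) * M k j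

/-- the determinant -/
def dt (M : Om) : ℝ :=
  M 0 0 * (M 1 1 * M 2 2 - M 1 2 * M 2 1) - M 0 1 * (M 1 0 * M 2 2 - M 1 2 * M 2 0)
    + M 0 2 * (M 1 0 * M 2 1 - M 1 1 * M 2 0)

/-- scalar product -/
def dot (u v : Fin 3 → ℝ) : ℝ := u 0 * v 0 + u 1 * v 1 + u 2 * v 2

/-- vector product -/
def crs (u v : Fin 3 → ℝ) : Fin 3 → ℝ :=
  ![u 1 * v 2 - u 2 * v 1, u 2 * v 0 - u 0 * v 2, u 0 * v 1 - u 1 * v 0]

/-- `|u|²` times the component of `v` orthogonal to `u` -/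
def prp (u v : Fin 3 → ℝ) : Fin 3 → ℝ := fun j => dot u u * v j - dot u v * u j

/-- the condition on the first two rows -/
def S2 (u v : Fin 3 → ℝ) : Prop :=
  0 < dot u u ∧ dot u u ≤ 2 ∧ |dot u v| ≤ dot u u / 2 ∧ 0 < dot (crs u v) (crs u v) ∧
    (dot (crs u v) (crs u v)) ^ 2 ≤ 2 * dot u u

/-- the condition on the third row -/
def S3 (u v w : Fin 3 → ℝ) : Prop :=
  |dot w u| ≤ dot u u / 2 ∧ |dot w (prp u v)| ≤ dot (crs u v) (crs u v) / 2 ∧
    |dot w (crs u v)| ≤ 1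

/-- the reduction domain -/
def SS : Set Om := {M | S2 (M 0) (M 1) ∧ S3 (M 0) (M 1) (M 2)}

/-- column 0 is rationally independent -/
def Irr (M : Om) : Prop := ∀ n : Fin 3 → ℤ, n ≠ 0 → ∑ i, (n i : ℝ) * M i 0 ≠ 0

/-- column 0 is not an eigenvector, with positive eigenvalue, of an integer matrix `≠ 1` -/
def Fre (M : Om) : Prop :=
  ∀ g : Gm, ∀ r : ℝ, 0 < r →
    (∀ i, ∑ k, ((g : Matrix (Fin 3) (Fin 3) ℤ) i k : ℝ) * M k 0 = r * M i 0) → g = 1

/-- the space of matrices we act on -/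
def XX : Set Om := {M | dt M ≠ 0 ∧ |dt M| ≤ 1 ∧ Irr M ∧ Fre M}

end Pool.Agent.Helper679_TR
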