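import Pool.Agent.Helper679_TR.Defs

/-! Fib2 -/

namespace Pool.Agent.Helper679_TR

open Set MeasureTheory
open scoped ENNReal




theorem b2_key (L : Matrix (Fin 3) (Fin 3) ℝ) (d A s t : ℝ) (hA : 0 < A) (hd : 0 < d)
    (hdet : |L.det| = d * A) (ht : 0 ≤ t) (hts : t * t = s) (h : 4 * s ≤ 10 * d)
    (S : Set (Fin 3 → ℝ))
    (hS : ∀ v ∈ S, |(L.mulVec v) 0| ≤ A / 2 ∧ |(L.mulVec v) 1| ≤ t ∧ |(L.mulVec v) 2| ≤ t) :
    volume S ≤ 10 := by
  have hdet0 : L.det ≠ 0 := by
    intro h0
    rw [h0, abs_zero] at hdet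
    have : 0 < d * A := mul_pos hd hA
    linarith
  have hsub : S ⊆ (Matrix.toLin' L) ⁻¹' (Icc ![-(A / 2), -t, -t] ![A / 2, t, t]) := by
    intro v hv
    obtain ⟨h0, h1, h2⟩ := hS v hv
    rw [mem_preimage, Matrix.toLin'_apply, mem_Icc]
    constructor
    · intro i
      fin_cases i
      · exact (abs_le.mp h0).1
      · exact (abs_le.mp h1).1
      · exact (abs_le.mp h2).1
    · intro i
      fin_cases i
      · exact (abs_le.mp h0).2
      · exact (abs_le.mp h1).2
      · exact (abs_le.mp h2).2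
  refine le_trans (measure_mono hsub) ?_
  have hdet1 : LinearMap.det (Matrix.toLin' L) ≠ 0 := by
    rw [LinearMap.det_toLin']
    exact hdet0
  rw [Measure.addHaar_preimage_linearMap volume hdet1, LinearMap.det_toLin', Real.volume_Icc_pi,
    Fin.prod_univ_three]
  have e0 : (![A / 2, t, t] : Fin 3 → ℝ) 0 - (![-(A / 2), -t, -t] : Fin 3 → ℝ) 0 = A := by
    show A / 2 - -(A / 2) = A
    ring
  have e1 : (![A / 2, t, t] : Fin 3 → ℝ) 1 - (![-(A / 2), -t, -t] : Fin 3 → ℝ) 1 = 2 * t := by
    show t - -t = 2 * t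
    ring
  have e2 : (![A / 2, t, t] : Fin 3 → ℝ) 2 - (![-(A / 2), -t, -t] : Fin 3 → ℝ) 2 = 2 * t := by
    show t - -t = 2 * t
    ring
  rw [e0, e1, e2, abs_inv, hdet, ← ENNReal.ofReal_mul hA.le, ← ENNReal.ofReal_mul (by positivity),
    ← ENNReal.ofReal_mul (by positivity)]
  have h10 : (10 : ℝ≥0∞) = ENNReal.ofReal 10 := by
    simp
  rw [h10]
  apply ENNReal.ofReal_le_ofReal
  have e3 : (d * A)⁻¹ * (A * (2 * t) * (2 * t)) = 4 * (t * t) / d := by
    field_simp
    ring
  rw [e3, hts, div_le_iff₀ hd]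
  exact h

theorem volume_S2 (u : Fin 3 → ℝ) : volume {v : Fin 3 → ℝ | S2 u v} ≤ 10 := by
  by_cases hu : 0 < dot u u ∧ dot u u ≤ 2
  · obtain ⟨hA, hA2⟩ := hu
    set A := dot u u with hAdef
    have hAe : A = u 0 * u 0 + u 1 * u 1 + u 2 * u 2 := rfl
    set s := Real.sqrt (2 * A) with hs
    set t := Real.sqrt s with ht
    have hs0 : 0 ≤ s := Real.sqrt_nonneg _
    have ht0 : 0 ≤ t := Real.sqrt_nonneg _
    have hss : s * s = 2 * A := Real.mul_self_sqrt (by linarith)
    have hts : t * t = s := Real.mul_self_sqrt hs0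
    -- bounds for the components of the vector product
    have hC : ∀ v : Fin 3 → ℝ, S2 u v → ∀ i, |crs u v i| ≤ t := by
      intro v hv i
      obtain ⟨-, -, -, h4, h5⟩ := hv
      have h6 : dot (crs u v) (crs u v) ≤ s := by
        rw [hs]
        apply Real.le_sqrt_of_sq_le
        exact h5
      have h7 : dot (crs u v) (crs u v) = crs u v 0 * crs u v 0 + crs u v 1 * crs u v 1
          + crs u v 2 * crs u v 2 := rfl
      rw [ht]
      apply Real.abs_le_sqrt
      have q0 := mul_self_nonneg (crs u v 0)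
      have q1 := mul_self_nonneg (crs u v 1)
      have q2 := mul_self_nonneg (crs u v 2)
      fin_cases i
      · show crs u v 0 ^ 2 ≤ s
        nlinarith
      · show crs u v 1 ^ 2 ≤ s
        nlinarith
      · show crs u v 2 ^ 2 ≤ s
        nlinarith
    have hpos : ∀ x : ℝ, A / 3 ≤ x * x → 0 < |x| ∧ 4 * s ≤ 10 * |x| := by
      intro x hx
      have hx0 : 0 < |x| := by
        rw [abs_pos]
        intro h0
        rw [h0] at hx
        linarith
      refine ⟨hx0, ?_⟩
      have h1 : (4 * s) ^ 2 ≤ (10 * |x|) ^ 2 := by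
        have h2 : |x| * |x| = x * x := abs_mul_abs_self x
        nlinarith
      exact (sq_le_sq₀ (by positivity) (by positivity)).mp h1
    have hbig : A / 3 ≤ u 0 * u 0 ∨ A / 3 ≤ u 1 * u 1 ∨ A / 3 ≤ u 2 * u 2 := by
      by_contra hcon
      rw [not_or, not_or, not_le, not_le, not_le] at hcon
      linarith [hcon.1, hcon.2.1, hcon.2.2]
    rcases hbig with hb | hb | hb
    · obtain ⟨hd, hle⟩ := hpos _ hb
      refine b2_key !![u 0, u 1, u 2; u 2, 0, -u 0; -u 1, u 0, 0] |u 0| A s t hA hd ?_ ht0 hts hle _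
        ?_
      · have : (!![u 0, u 1, u 2; u 2, 0, -u 0; -u 1, u 0, 0] : Matrix (Fin 3) (Fin 3) ℝ).det
            = u 0 * A := by
          rw [Matrix.det_fin_three, hAe]
          simp
          ring
        rw [this, abs_mul, abs_of_pos hA]
      · intro v hv
        have h1 := hC v hv 1
        have h2 := hC v hv 2
        have e0 : (Matrix.mulVec !![u 0, u 1, u 2; u 2, 0, -u 0; -u 1, u 0, 0] v) 0 = dot u v := by
          simp [Matrix.mulVec, dotProduct, Fin.sum_univ_three, dot]
        have e1 : (Matrix.mulVec !![u 0, u 1, u 2; u 2, 0, -u 0; -u 1, u 0, 0] v) 1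
            = crs u v 1 := by
          simp [Matrix.mulVec, dotProduct, Fin.sum_univ_three, crs]
          ring
        have e2 : (Matrix.mulVec !![u 0, u 1, u 2; u 2, 0, -u 0; -u 1, u 0, 0] v) 2
            = crs u v 2 := by
          simp [Matrix.mulVec, dotProduct, Fin.sum_univ_three, crs]
          ring
        rw [e0, e1, e2]
        exact ⟨hv.2.2.1, h1, h2⟩
    · obtain ⟨hd, hle⟩ := hpos _ hb
      refine b2_key !![u 0, u 1, u 2; 0, -u 2, u 1; -u 1, u 0, 0] |u 1| A s t hA hd ?_ ht0 hts hle _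
        ?_
      · have : (!![u 0, u 1, u 2; 0, -u 2, u 1; -u 1, u 0, 0] : Matrix (Fin 3) (Fin 3) ℝ).det
            = -(u 1) * A := by
          rw [Matrix.det_fin_three, hAe]
          simp
          ring
        rw [this, abs_mul, abs_of_pos hA, abs_neg]
      · intro v hv
        have h1 := hC v hv 0
        have h2 := hC v hv 2
        have e0 : (Matrix.mulVec !![u 0, u 1, u 2; 0, -u 2, u 1; -u 1, u 0, 0] v) 0 = dot u v := by
          simp [Matrix.mulVec, dotProduct, Fin.sum_univ_three, dot]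
        have e1 : (Matrix.mulVec !![u 0, u 1, u 2; 0, -u 2, u 1; -u 1, u 0, 0] v) 1
            = crs u v 0 := by
          simp [Matrix.mulVec, dotProduct, Fin.sum_univ_three, crs]
          ring
        have e2 : (Matrix.mulVec !![u 0, u 1, u 2; 0, -u 2, u 1; -u 1, u 0, 0] v) 2
            = crs u v 2 := by
          simp [Matrix.mulVec, dotProduct, Fin.sum_univ_three, crs]
          ring
        rw [e0, e1, e2]
        exact ⟨hv.2.2.1, h1, h2⟩
    · obtain ⟨hd, hle⟩ := hpos _ hb
      refine b2_key !![u 0, u 1, u 2; 0, -u 2, u 1; u 2, 0, -u 0] |u 2| A s t hA hd ?_ ht0 hts hle _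
        ?_
      · have : (!![u 0, u 1, u 2; 0, -u 2, u 1; u 2, 0, -u 0] : Matrix (Fin 3) (Fin 3) ℝ).det
            = u 2 * A := by
          rw [Matrix.det_fin_three, hAe]
          simp
          ring
        rw [this, abs_mul, abs_of_pos hA]
      · intro v hv
        have h1 := hC v hv 0
        have h2 := hC v hv 1
        have e0 : (Matrix.mulVec !![u 0, u 1, u 2; 0, -u 2, u 1; u 2, 0, -u 0] v) 0 = dot u v := by
          simp [Matrix.mulVec, dotProduct, Fin.sum_univ_three, dot]
        have e1 : (Matrix.mulVec !![u 0, u 1, u 2; 0, -u 2, u 1; u 2, 0, -u 0] v) 1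
            = crs u v 0 := by
          simp [Matrix.mulVec, dotProduct, Fin.sum_univ_three, crs]
          ring
        have e2 : (Matrix.mulVec !![u 0, u 1, u 2; 0, -u 2, u 1; u 2, 0, -u 0] v) 2
            = crs u v 1 := by
          simp [Matrix.mulVec, dotProduct, Fin.sum_univ_three, crs]
          ring
        rw [e0, e1, e2]
        exact ⟨hv.2.2.1, h1, h2⟩
  · have h0 : {v : Fin 3 → ℝ | S2 u v} = ∅ := by
      ext v
      rw [mem_setOf_eq, mem_empty_iff_false, iff_false]
      intro hv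
      exact hu ⟨hv.1, hv.2.1⟩
    rw [h0, measure_empty]
    exact bot_le

end Pool.Agent.Helper679_TR
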