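import Pool.Agent.Helper679_TR.Defs

/-! Fib3 -/

namespace Pool.Agent.Helper679_TR

open Set MeasureTheory
open scoped ENNReal

theorem b3_det (u v : Fin 3 → ℝ) :
    (!![u 0, u 1, u 2; prp u v 0, prp u v 1, prp u v 2; crs u v 0, crs u v 1, crs u v 2] :
      Matrix (Fin 3) (Fin 3) ℝ).det = dot u u * dot (crs u v) (crs u v) := by
  have c0 : crs u v 0 = u 1 * v 2 - u 2 * v 1 := rfl
  have c1 : crs u v 1 = u 2 * v 0 - u 0 * v 2 := rfl
  have c2 : crs u v 2 = u 0 * v 1 - u 1 * v 0 := rfl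
  rw [Matrix.det_fin_three]
  simp only [Matrix.of_apply, Matrix.cons_val', Matrix.cons_val_zero, Matrix.cons_val_one,
    Matrix.cons_val, Matrix.cons_val_fin_one, prp, dot, c0, c1, c2]
  ring

theorem volume_S3 (u v : Fin 3 → ℝ) (hB : 0 < dot (crs u v) (crs u v)) :
    volume {w : Fin 3 → ℝ | S3 u v w} ≤ 2 := by
  have hA : 0 < dot u u := by
    have h0 : 0 ≤ dot u u := by
      unfold dot
      nlinarith [mul_self_nonneg (u 0), mul_self_nonneg (u 1), mul_self_nonneg (u 2)]
    rcases h0.lt_or_eq with h | h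
    · exact h
    · exfalso
      have h1 : u 0 = 0 ∧ u 1 = 0 ∧ u 2 = 0 := by
        unfold dot at h
        refine ⟨?_, ?_, ?_⟩ <;>
        nlinarith [mul_self_nonneg (u 0), mul_self_nonneg (u 1), mul_self_nonneg (u 2)]
      have c0 : crs u v 0 = u 1 * v 2 - u 2 * v 1 := rfl
      have c1 : crs u v 1 = u 2 * v 0 - u 0 * v 2 := rfl
      have c2 : crs u v 2 = u 0 * v 1 - u 1 * v 0 := rfl
      unfold dot at hB
      rw [c0, c1, c2, h1.1, h1.2.1, h1.2.2] at hB
      norm_num at hB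
  set A := dot u u with hAdef
  set B := dot (crs u v) (crs u v) with hBdef
  set L : Matrix (Fin 3) (Fin 3) ℝ :=
    !![u 0, u 1, u 2; prp u v 0, prp u v 1, prp u v 2; crs u v 0, crs u v 1, crs u v 2] with hL
  have hdet : L.det = A * B := b3_det u v
  have hdet0 : L.det ≠ 0 := by
    rw [hdet]
    exact (mul_pos hA hB).ne'
  have hsub : {w : Fin 3 → ℝ | S3 u v w} ⊆
      (Matrix.toLin' L) ⁻¹' (Icc ![-(A / 2), -(B / 2), -1] ![A / 2, B / 2, 1]) := by
    rintro w ⟨h0, h1, h2⟩
    have e0 : (L.mulVec w) 0 = dot w u := by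
      simp [hL, Matrix.mulVec, dotProduct, Fin.sum_univ_three, dot]
      ring
    have e1 : (L.mulVec w) 1 = dot w (prp u v) := by
      simp [hL, Matrix.mulVec, dotProduct, Fin.sum_univ_three, dot]
      ring
    have e2 : (L.mulVec w) 2 = dot w (crs u v) := by
      simp [hL, Matrix.mulVec, dotProduct, Fin.sum_univ_three, dot]
      ring
    rw [← e0] at h0
    rw [← e1] at h1
    rw [← e2] at h2
    rw [mem_preimage, Matrix.toLin'_apply, mem_Icc]
    constructor
    · intro i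
      fin_cases i
      · exact (abs_le.mp h0).1
      · exact (abs_le.mp h1).1
      · exact (abs_le.mp h2).1
    · intro i
      fin_cases i
      · exact (abs_le.mp h0).2
      · exact (abs_le.mp h1).2
      · exact (abs_le.mp h2).2
  refine le_trans (measure_mono hsub) ?_
  have hdet1 : LinearMap.det (Matrix.toLin' L) ≠ 0 := by
    rw [LinearMap.det_toLin']
    exact hdet0
  rw [Measure.addHaar_preimage_linearMap volume hdet1, LinearMap.det_toLin', Real.volume_Icc_pi,
    Fin.prod_univ_three]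
  have e0 : (![A / 2, B / 2, 1] : Fin 3 → ℝ) 0 - (![-(A / 2), -(B / 2), -1] : Fin 3 → ℝ) 0 = A := by
    show A / 2 - -(A / 2) = A
    ring
  have e1 : (![A / 2, B / 2, 1] : Fin 3 → ℝ) 1 - (![-(A / 2), -(B / 2), -1] : Fin 3 → ℝ) 1 = B := by
    show B / 2 - -(B / 2) = B
    ring
  have e2 : (![A / 2, B / 2, 1] : Fin 3 → ℝ) 2 - (![-(A / 2), -(B / 2), -1] : Fin 3 → ℝ) 2 = 2 := by
    show (1 : ℝ) - -1 = 2
    norm_num
  rw [e0, e1, e2, abs_inv, hdet, abs_of_pos (mul_pos hA hB), ← ENNReal.ofReal_mul hA.le,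
    ← ENNReal.ofReal_mul (by positivity), ← ENNReal.ofReal_mul (by positivity)]
  have e3 : (A * B)⁻¹ * (A * B * 2) = 2 := by
    field_simp
  rw [e3]
  simp

end Pool.Agent.Helper679_TR
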