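import Pool.Agent.Helper679_TR.Sect
import Pool.Agent.Helper679_TR.Abs2

/-! The orbit relation is not treeable. -/

namespace Pool.Agent.Helper679_TR

open Set MeasureTheory Filter
open scoped ENNReal Topology

set_option linter.deprecated false

/-- the shear `q ↦ q + t p` -/
def La (t : ℝ) : Matrix (Fin 3) (Fin 3) ℝ := !![1, 0, 0; 0, 1, 0; 0, t, 1]

/-- the shear `p ↦ p + t q` -/
def Lb (t : ℝ) : Matrix (Fin 3) (Fin 3) ℝ := !![1, 0, 0; 0, 1, t; 0, 0, 1]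

/-- the diagonal flow -/
noncomputable def Lz (n : ℕ) : Matrix (Fin 3) (Fin 3) ℝ :=
  !![4 ^ n, 0, 0; 0, (1 / 2) ^ n, 0; 0, 0, (1 / 2) ^ n]

theorem ra (t : ℝ) : Rg (La t) := by
  refine ⟨?_, ?_, ?_, ?_⟩ <;> simp [La, Matrix.det_fin_three]

theorem rb (t : ℝ) : Rg (Lb t) := by
  refine ⟨?_, ?_, ?_, ?_⟩ <;> simp [Lb, Matrix.det_fin_three]

theorem rz (n : ℕ) : Rg (Lz n) := by
  refine ⟨?_, ?_, ?_, ?_⟩
  · simp only [Lz, Matrix.det_fin_three, Matrix.of_apply, Matrix.cons_val', Matrix.cons_val_zero,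
      Matrix.cons_val_one, Matrix.cons_val, Matrix.cons_val_fin_one]
    have : (4 : ℝ) ^ n * (1 / 2) ^ n * (1 / 2) ^ n = 1 := by
      rw [← mul_pow, ← mul_pow]
      norm_num
    linarith
  · simp [Lz]
  · simp [Lz]
  · simp [Lz]

theorem la_mul (s t : ℝ) : La s * La t = La (s + t) := by
  ext i j
  fin_cases i <;> fin_cases j <;> simp [La, Matrix.mul_apply, Fin.sum_univ_three, add_comm]

theorem lb_mul (s t : ℝ) : Lb s * Lb t = Lb (s + t) := by
  ext i j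
  fin_cases i <;> fin_cases j <;> simp [Lb, Matrix.mul_apply, Fin.sum_univ_three, add_comm]

theorem la_zero : La 0 = 1 := by
  ext i j
  fin_cases i <;> fin_cases j <;> simp [La]

theorem lb_zero : Lb 0 = 1 := by
  ext i j
  fin_cases i <;> fin_cases j <;> simp [Lb]

theorem la_lz (t : ℝ) (n : ℕ) : La t * Lz n = Lz n * La t := by
  ext i j
  fin_cases i <;> fin_cases j <;> simp [La, Lz, Matrix.mul_apply, Fin.sum_univ_three, mul_comm]

theorem lb_lz (t : ℝ) (n : ℕ) : Lb t * Lz n = Lz n * Lb t := by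
  ext i j
  fin_cases i <;> fin_cases j <;> simp [Lb, Lz, Matrix.mul_apply, Fin.sum_univ_three, mul_comm]

theorem rt_a (t : ℝ) (M : Om) (i : Fin 3) : rt (La t) M i 1 = M i 1 ∧
    rt (La t) M i 2 = M i 2 + t * M i 1 := by
  constructor
  · simp [rt, La, Matrix.mulVec, dotProduct, Fin.sum_univ_three]
  · simp [rt, La, Matrix.mulVec, dotProduct, Fin.sum_univ_three]
    ring

theorem rt_b (t : ℝ) (M : Om) (i : Fin 3) : rt (Lb t) M i 1 = M i 1 + t * M i 2 ∧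
    rt (Lb t) M i 2 = M i 2 := by
  constructor
  · simp [rt, Lb, Matrix.mulVec, dotProduct, Fin.sum_univ_three]
  · simp [rt, Lb, Matrix.mulVec, dotProduct, Fin.sum_univ_three]

/-- the first half -/
def E1 : Set XX := {x | |x.1 0 2| < |x.1 0 1|}

/-- the second half -/
def E2 : Set XX := {x | |x.1 0 1| ≤ |x.1 0 2| ∧ x.1 0 2 ≠ 0}

theorem meas_val (i j : Fin 3) : Measurable fun x : XX => x.1 i j :=
  (meas_entry i j).comp measurable_subtype_coe

theorem mE1 : MeasurableSet E1 := by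
  refine measurableSet_lt ?_ ?_
  · exact measurable_abs.comp (meas_val 0 2)
  · exact measurable_abs.comp (meas_val 0 1)

theorem mE2 : MeasurableSet E2 := by
  have h1 : MeasurableSet {x : XX | |x.1 0 1| ≤ |x.1 0 2|} :=
    measurableSet_le (measurable_abs.comp (meas_val 0 1)) (measurable_abs.comp (meas_val 0 2))
  have h2 : MeasurableSet {x : XX | x.1 0 2 ≠ 0} :=
    (meas_val 0 2 (measurableSet_singleton 0)).compl
  exact h1.inter h2

/-- matrices with entry `(0,2)` zero -/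
def Zs : Submodule ℝ Om where
  carrier := {M | M 0 2 = 0}
  add_mem' := by
    intro M N hM hN
    have hM' : M 0 2 = 0 := hM
    have hN' : N 0 2 = 0 := hN
    show M 0 2 + N 0 2 = 0
    rw [hM', hN', add_zero]
  zero_mem' := rfl
  smul_mem' := by
    intro c M hM
    have hM' : M 0 2 = 0 := hM
    show c * M 0 2 = 0
    rw [hM', mul_zero]

theorem null_compl : mu (E1 ∪ E2)ᶜ = 0 := by
  rw [mu_apply]
  have h1 : volume (Zs : Set Om) = 0 := by
    apply Measure.addHaar_submodule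
    intro h
    have h2 : (fun _ _ => 1 : Om) ∈ Zs := by
      rw [h]
      trivial
    have h3 : (1 : ℝ) = 0 := h2
    exact one_ne_zero h3
  refine measure_mono_null ?_ h1
  rintro _ ⟨x, hx, rfl⟩
  by_contra h2
  apply hx
  by_cases h3 : |x.1 0 2| < |x.1 0 1|
  · exact Or.inl h3
  · exact Or.inr ⟨not_lt.1 h3, h2⟩

theorem a_sub {t : ℝ} (ht : |t| = 3) : rX (La t) (ra t) ⁻¹' E1 ⊆ E2 := by
  intro x hx
  have h1 : |rt (La t) x.1 0 2| < |rt (La t) x.1 0 1| := hx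
  rw [(rt_a t x.1 0).1, (rt_a t x.1 0).2] at h1
  have h2 : |t * x.1 0 1| ≤ |x.1 0 2 + t * x.1 0 1| + |x.1 0 2| := by
    have := abs_sub (x.1 0 2 + t * x.1 0 1) (x.1 0 2)
    rwa [add_sub_cancel_left] at this
  rw [abs_mul, ht] at h2
  have h3 := abs_nonneg (x.1 0 1)
  refine ⟨by linarith, ?_⟩
  intro h4
  have h5 : |x.1 0 2| = 0 := by rw [h4, abs_zero]
  linarith

theorem b_sub {t : ℝ} (ht : |t| = 3) : rX (Lb t) (rb t) ⁻¹' E2 ⊆ E1 := by
  intro x hx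
  have h1 : |rt (Lb t) x.1 0 1| ≤ |rt (Lb t) x.1 0 2| ∧ rt (Lb t) x.1 0 2 ≠ 0 := hx
  rw [(rt_b t x.1 0).1, (rt_b t x.1 0).2] at h1
  have h2 : |t * x.1 0 2| ≤ |x.1 0 1 + t * x.1 0 2| + |x.1 0 1| := by
    have := abs_sub (x.1 0 1 + t * x.1 0 2) (x.1 0 1)
    rwa [add_sub_cancel_left] at this
  rw [abs_mul, ht] at h2
  have h3 := abs_pos.2 h1.2
  show |x.1 0 2| < |x.1 0 1|
  linarith [h1.1]

theorem a_disj : Disjoint (rX (La (-3)) (ra _) ⁻¹' E1) (rX (La 3) (ra _) ⁻¹' E1) := by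
  rw [Set.disjoint_left]
  intro x hx hy
  have h1 : |rt (La (-3)) x.1 0 2| < |rt (La (-3)) x.1 0 1| := hx
  have h2 : |rt (La 3) x.1 0 2| < |rt (La 3) x.1 0 1| := hy
  rw [(rt_a _ x.1 0).1, (rt_a _ x.1 0).2] at h1 h2
  have h3 : |(x.1 0 2 + 3 * x.1 0 1) - (x.1 0 2 + (-3) * x.1 0 1)| ≤
      |x.1 0 2 + 3 * x.1 0 1| + |x.1 0 2 + (-3) * x.1 0 1| := abs_sub _ _
  have h4 : (x.1 0 2 + 3 * x.1 0 1) - (x.1 0 2 + (-3) * x.1 0 1) = 6 * x.1 0 1 := by ring
  rw [h4, abs_mul, abs_of_pos (by norm_num : (0 : ℝ) < 6)] at h3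
  have h5 := abs_nonneg (x.1 0 1)
  linarith

theorem b_disj : Disjoint (rX (Lb (-3)) (rb _) ⁻¹' E2) (rX (Lb 3) (rb _) ⁻¹' E2) := by
  rw [Set.disjoint_left]
  intro x hx hy
  have h1 : |rt (Lb (-3)) x.1 0 1| ≤ |rt (Lb (-3)) x.1 0 2| ∧ rt (Lb (-3)) x.1 0 2 ≠ 0 := hx
  have h2 : |rt (Lb 3) x.1 0 1| ≤ |rt (Lb 3) x.1 0 2| ∧ rt (Lb 3) x.1 0 2 ≠ 0 := hy
  rw [(rt_b _ x.1 0).1, (rt_b _ x.1 0).2] at h1 h2
  have h3 : |(x.1 0 1 + 3 * x.1 0 2) - (x.1 0 1 + (-3) * x.1 0 2)| ≤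
      |x.1 0 1 + 3 * x.1 0 2| + |x.1 0 1 + (-3) * x.1 0 2| := abs_sub _ _
  have h4 : (x.1 0 1 + 3 * x.1 0 2) - (x.1 0 1 + (-3) * x.1 0 2) = 6 * x.1 0 2 := by ring
  rw [h4, abs_mul, abs_of_pos (by norm_num : (0 : ℝ) < 6)] at h3
  have h5 := abs_pos.2 h1.2
  linarith [h1.1, h2.1]

/-- the decay of the flow -/
theorem decay {σ : XX → Gm} (h1 : ∀ g, MeasurableSet {x | σ x = g})
    (h2 : ∀ (h : Gm) x, σ (h • x) = σ x * h⁻¹) (h3 : ∀ x, σ x = 1 → (x : Om) ∈ SS)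
    (hfin : mu {x | σ x = 1} ≠ ∞) (g : Gm) :
    Tendsto (fun n => mu {x | σ x = 1 ∧ σ (rX (Lz n) (rz n) x) = g}) atTop (𝓝 0) := by
  set C : ℕ → Set XX := fun n => {x | σ x = 1} ∩ {x | 4 ^ n * |(g • x).1 0 0| ≤ 2} with hC
  have hm : ∀ n, MeasurableSet (C n) := by
    intro n
    refine (h1 1).inter (measurableSet_le ?_ measurable_const)
    exact ((measurable_abs.comp ((meas_val 0 0).comp (mp_smul g).measurable))).const_mul _
  have hanti : Antitone C := by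
    intro m n hmn x hx
    refine ⟨hx.1, ?_⟩
    have hx2 : 4 ^ n * |(g • x).1 0 0| ≤ 2 := hx.2
    show 4 ^ m * |(g • x).1 0 0| ≤ 2
    refine le_trans ?_ hx2
    gcongr
    norm_num
  have hempty : (⋂ n, C n) = ∅ := by
    rw [Set.eq_empty_iff_forall_notMem]
    intro x hx
    rw [Set.mem_iInter] at hx
    have h0 : (g • x).1 0 0 ≠ 0 := Irr.ne (g • x).2.2.2.1 0
    have hpos : 0 < |(g • x).1 0 0| := abs_pos.2 h0
    obtain ⟨n, hn⟩ := pow_unbounded_of_one_lt (2 / |(g • x).1 0 0|) (by norm_num : (1 : ℝ) < 4)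
    have h4 : 4 ^ n * |(g • x).1 0 0| ≤ 2 := (hx n).2
    rw [div_lt_iff₀ hpos] at hn
    linarith
  have hlim := tendsto_measure_iInter_atTop (μ := mu) (s := C)
    (fun n => (hm n).nullMeasurableSet) hanti
    ⟨0, ne_top_of_le_ne_top hfin (measure_mono Set.inter_subset_left)⟩
  rw [hempty, measure_empty] at hlim
  refine tendsto_of_tendsto_of_tendsto_of_le_of_le tendsto_const_nhds hlim (fun _ => bot_le) ?_
  intro n
  apply measure_mono
  rintro x ⟨hx1, hx2⟩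
  refine ⟨hx1, ?_⟩
  have h4 : σ (g • rX (Lz n) (rz n) x) = 1 := by
    rw [h2, hx2, mul_inv_cancel]
  have h5 := (h3 _ h4).1
  have h6 : dot ((g • rX (Lz n) (rz n) x).1 0) ((g • rX (Lz n) (rz n) x).1 0) ≤ 2 := h5.2.1
  rw [← rX_smul] at h6
  have h7 : (rX (Lz n) (rz n) (g • x)).1 0 0 = 4 ^ n * (g • x).1 0 0 := by
    have := rt_col (rz n) (g • x).1 0
    have h8 : Lz n 0 0 = 4 ^ n := by simp [Lz]
    rw [h8] at this
    exact this
  set N := (rX (Lz n) (rz n) (g • x)).1 with hN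
  have h8 : N 0 0 * N 0 0 ≤ 2 := by
    have : dot (N 0) (N 0) = N 0 0 * N 0 0 + N 0 1 * N 0 1 + N 0 2 * N 0 2 := rfl
    nlinarith [mul_self_nonneg (N 0 1), mul_self_nonneg (N 0 2)]
  show 4 ^ n * |(g • x).1 0 0| ≤ 2
  have h9 : 4 ^ n * |(g • x).1 0 0| = |N 0 0| := by
    rw [h7, abs_mul, abs_of_pos (by positivity : (0 : ℝ) < 4 ^ n)]
  rw [h9]
  apply abs_le_of_sq_le_sq _ (by norm_num)
  nlinarith

theorem not_treeable : ¬ Treeable OrbitRel := by
  rintro ⟨G, hG, ha, hr⟩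
  obtain ⟨σ, h1, h2, h3⟩ := exists_sigma
  have hfin : mu {x | σ x = 1} ≠ ∞ := by
    rw [mu_apply]
    refine ne_top_of_le_ne_top volume_SS.ne (measure_mono ?_)
    rintro _ ⟨x, hx, rfl⟩
    exact h3 x hx
  let B : Base Gm XX :=
    { μ := mu
      act := mp_smul
      T := TT G
      tree := tt_tree ha hr
      Tm := tt_meas hG
      Te := tt_smul G
      σ := σ
      σm := h1
      σe := h2
      fin := hfin
      ρ := rho
      ρt := rho_ne
      ρ1 := rho_one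
      ρm := rho_mul
      ρf := rho_fin }
  have hpos : B.μ B.F ≠ 0 := by
    intro h0
    have h4 : B.μ Set.univ = 0 := by
      have h5 := Base.unfold_int (B := B) (φ := fun _ => 1) measurable_const
      rw [setLIntegral_measure_zero _ _ h0] at h5
      simpa using h5
    have h5 : B.μ Set.univ = volume XX := by
      show mu Set.univ = _
      rw [mu_apply, Set.image_univ, Subtype.range_coe]
    exact volume_XX (h5 ▸ h4)
  have fl : ∀ {L : Matrix (Fin 3) (Fin 3) ℝ} (hL : Rg L), B.Fl (rX L hL) := fun hL =>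
    ⟨mp_rX hL, rX_smul hL, tt_rX G hL⟩
  have aa : ∀ s t : ℝ, s + t = 0 → ∀ x, rX (La s) (ra s) (rX (La t) (ra t) x) = x := by
    intro s t hst
    exact rX_rX _ _ (by rw [la_mul, hst, la_zero])
  have bb : ∀ s t : ℝ, s + t = 0 → ∀ x, rX (Lb s) (rb s) (rX (Lb t) (rb t) x) = x := by
    intro s t hst
    exact rX_rX _ _ (by rw [lb_mul, hst, lb_zero])
  exact Base.final (B := B) hpos (a := rX (La 3) (ra 3)) (a' := rX (La (-3)) (ra (-3)))
    (b := rX (Lb 3) (rb 3)) (b' := rX (Lb (-3)) (rb (-3)))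
    (z := fun n => rX (Lz n) (rz n)) (fl _) (fl _) (fl _) (fl _) (fun n => fl _)
    (aa _ _ (by norm_num)) (aa _ _ (by norm_num)) (bb _ _ (by norm_num)) (bb _ _ (by norm_num))
    (fun n => rX_comm _ _ (la_lz _ _)) (fun n => rX_comm _ _ (la_lz _ _))
    (fun n => rX_comm _ _ (lb_lz _ _)) (fun n => rX_comm _ _ (lb_lz _ _))
    (decay h1 h2 h3 hfin) mE1 mE2 null_compl
    (a_sub (by norm_num)) (a_sub (by norm_num)) a_disj
    (b_sub (by norm_num)) (b_sub (by norm_num)) b_disj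

end Pool.Agent.Helper679_TR
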