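import Pool.Agent.Helper679_TR.Defs
import Pool.Agent.Helper679_TR.Fib2
import Pool.Agent.Helper679_TR.Fib3

/-! VolSS -/

namespace Pool.Agent.Helper679_TR

open Set MeasureTheory
open scoped ENNReal






/-
TARGETS. The first: SS is a finite intersection of sets {0 < f}, {f ≤ g} with f, g continuous.
The second: by the measure preserving equivalences `MeasurableEquiv.piFinSuccAbove` (`volume_preserving_piFinSuccAbove`)
write Om = (Fin 3 → ℝ) × (Fin 3 → ℝ) × (Fin 3 → ℝ) (rows u, v, w) and use Tonelli (`Measure.prod_apply`,
`lintegral` bounds): volume SS ≤ ∫_{u : dot u u ≤ 2} ∫_{v : S2 u v} (volume of the w with S3 u v w) ≤ 2 * 10 *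
volume {u | dot u u ≤ 2} < ∞, since {u | dot u u ≤ 2} is inside the box [-2,2]^3.
-/
theorem measurableSet_SS : MeasurableSet SS := by
  have h : SS = {M : Om | (0 < dot (M 0) (M 0) ∧ dot (M 0) (M 0) ≤ 2 ∧
      |dot (M 0) (M 1)| ≤ dot (M 0) (M 0) / 2 ∧ 0 < dot (crs (M 0) (M 1)) (crs (M 0) (M 1)) ∧
      (dot (crs (M 0) (M 1)) (crs (M 0) (M 1))) ^ 2 ≤ 2 * dot (M 0) (M 0)) ∧
      (|dot (M 2) (M 0)| ≤ dot (M 0) (M 0) / 2 ∧
        |dot (M 2) (prp (M 0) (M 1))| ≤ dot (crs (M 0) (M 1)) (crs (M 0) (M 1)) / 2 ∧
        |dot (M 2) (crs (M 0) (M 1))| ≤ 1)} := rfl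
  rw [h]
  have h1 : Measurable fun M : Om => dot (M 0) (M 0) := by unfold dot; fun_prop
  have h2 : Measurable fun M : Om => dot (M 0) (M 1) := by unfold dot; fun_prop
  have h3 : Measurable fun M : Om => dot (crs (M 0) (M 1)) (crs (M 0) (M 1)) := by
    simp only [dot, crs, Matrix.cons_val_zero, Matrix.cons_val_one, Matrix.cons_val]
    fun_prop
  have h4 : Measurable fun M : Om => dot (M 2) (M 0) := by unfold dot; fun_prop
  have h5 : Measurable fun M : Om => dot (M 2) (prp (M 0) (M 1)) := by
    simp only [dot, prp]
    fun_prop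
  have h6 : Measurable fun M : Om => dot (M 2) (crs (M 0) (M 1)) := by
    simp only [dot, crs, Matrix.cons_val_zero, Matrix.cons_val_one, Matrix.cons_val]
    fun_prop
  refine MeasurableSet.inter (MeasurableSet.inter ?_ (MeasurableSet.inter ?_
    (MeasurableSet.inter ?_ (MeasurableSet.inter ?_ ?_)))) (MeasurableSet.inter ?_
    (MeasurableSet.inter ?_ ?_))
  · exact measurableSet_lt measurable_const h1
  · exact measurableSet_le h1 measurable_const
  · exact measurableSet_le h2.abs (h1.div_const 2)
  · exact measurableSet_lt measurable_const h3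
  · exact measurableSet_le (h3.pow_const 2) (h1.const_mul 2)
  · exact measurableSet_le h4.abs (h1.div_const 2)
  · exact measurableSet_le h5.abs (h3.div_const 2)
  · exact measurableSet_le h6.abs measurable_const

theorem volume_SS : volume SS < ∞ := by
  let e := MeasurableEquiv.piFinSuccAbove (fun _ : Fin 3 => (Fin 3 → ℝ)) 0
  let S' : Set ((Fin 3 → ℝ) × (Fin 2 → Fin 3 → ℝ)) :=
    {p | S2 p.1 (p.2 0) ∧ S3 p.1 (p.2 0) (p.2 1)}
  have he : MeasurePreserving e volume volume :=
    volume_preserving_piFinSuccAbove (fun _ : Fin 3 => (Fin 3 → ℝ)) 0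
  have hS : SS = e ⁻¹' S' := rfl
  have hS' : S' = e.symm ⁻¹' SS := by
    rw [hS, ← preimage_comp]
    simp
  have hm' : MeasurableSet S' := by
    rw [hS']
    exact e.symm.measurable measurableSet_SS
  rw [hS, he.measure_preimage hm'.nullMeasurableSet, Measure.volume_eq_prod,
    Measure.prod_apply hm']
  have hin : ∀ u : Fin 3 → ℝ, volume (Prod.mk u ⁻¹' S') ≤
      (Icc (fun _ => (-2 : ℝ)) (fun _ => (2 : ℝ)) : Set (Fin 3 → ℝ)).indicator (fun _ => (20 : ℝ≥0∞)) u := by
    intro u
    by_cases hu : u ∈ (Icc (fun _ => (-2 : ℝ)) (fun _ => (2 : ℝ)) : Set (Fin 3 → ℝ))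
    · rw [indicator_of_mem hu]
      let T : Set ((Fin 3 → ℝ) × (Fin 3 → ℝ)) := {q | S2 u q.1 ∧ S3 u q.1 q.2}
      let e2 := MeasurableEquiv.finTwoArrow (α := Fin 3 → ℝ)
      have he2 : MeasurePreserving e2 volume volume := volume_preserving_finTwoArrow (Fin 3 → ℝ)
      have hT : Prod.mk u ⁻¹' S' = e2 ⁻¹' T := rfl
      have hT' : T = e2.symm ⁻¹' (Prod.mk u ⁻¹' S') := by
        rw [hT, ← preimage_comp]
        simp
      have hmT : MeasurableSet T := by
        rw [hT']
        exact e2.symm.measurable (measurable_prodMk_left hm')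
      rw [hT, he2.measure_preimage hmT.nullMeasurableSet, Measure.volume_eq_prod,
        Measure.prod_apply hmT]
      have hmS2 : MeasurableSet {v : Fin 3 → ℝ | S2 u v} := by
        have g1 : Measurable fun v : Fin 3 → ℝ => dot u v := by unfold dot; fun_prop
        have g2 : Measurable fun v : Fin 3 → ℝ => dot (crs u v) (crs u v) := by
          simp only [dot, crs, Matrix.cons_val_zero, Matrix.cons_val_one, Matrix.cons_val]
          fun_prop
        refine MeasurableSet.inter ?_ (MeasurableSet.inter ?_
          (MeasurableSet.inter ?_ (MeasurableSet.inter ?_ ?_)))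
        · exact MeasurableSet.const (0 < dot u u)
        · exact MeasurableSet.const (dot u u ≤ 2)
        · exact measurableSet_le g1.abs measurable_const
        · exact measurableSet_lt measurable_const g2
        · exact measurableSet_le (g2.pow_const 2) measurable_const
      calc ∫⁻ v, volume (Prod.mk v ⁻¹' T) ≤
          ∫⁻ v, {v : Fin 3 → ℝ | S2 u v}.indicator (fun _ => (2 : ℝ≥0∞)) v := by
            apply lintegral_mono
            intro v
            by_cases hv : S2 u v
            · show volume (Prod.mk v ⁻¹' T) ≤ _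
              rw [indicator_of_mem (show v ∈ {v : Fin 3 → ℝ | S2 u v} from hv)]
              calc volume (Prod.mk v ⁻¹' T) ≤ volume {w : Fin 3 → ℝ | S3 u v w} := by
                    apply measure_mono
                    intro w hw
                    exact hw.2
                _ ≤ 2 := volume_S3 u v hv.2.2.2.1
            · show volume (Prod.mk v ⁻¹' T) ≤ _
              have : Prod.mk v ⁻¹' T = ∅ := by
                ext w
                constructor
                · intro hw
                  exact hv hw.1
                · intro hw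
                  exact hw.elim
              rw [this, measure_empty]
              exact bot_le
        _ = 2 * volume {v : Fin 3 → ℝ | S2 u v} := by
            rw [lintegral_indicator_const hmS2]
        _ ≤ 2 * 10 := by gcongr; exact volume_S2 u
        _ = 20 := by norm_num
    · rw [indicator_of_notMem hu]
      have : Prod.mk u ⁻¹' S' = ∅ := by
        ext q
        constructor
        · intro hq
          have h1 : S2 u (q 0) := hq.1
          have h2 : dot u u ≤ 2 := h1.2.1
          exfalso
          apply hu
          unfold dot at h2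
          have hb : ∀ x : ℝ, x * x ≤ 2 → -2 ≤ x ∧ x ≤ 2 := by
            intro x hx
            constructor <;> nlinarith
          constructor
          · intro i
            fin_cases i
            · exact (hb (u 0) (by nlinarith [mul_self_nonneg (u 1), mul_self_nonneg (u 2)])).1
            · exact (hb (u 1) (by nlinarith [mul_self_nonneg (u 0), mul_self_nonneg (u 2)])).1
            · exact (hb (u 2) (by nlinarith [mul_self_nonneg (u 1), mul_self_nonneg (u 0)])).1
          · intro i
            fin_cases i
            · exact (hb (u 0) (by nlinarith [mul_self_nonneg (u 1), mul_self_nonneg (u 2)])).2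
            · exact (hb (u 1) (by nlinarith [mul_self_nonneg (u 0), mul_self_nonneg (u 2)])).2
            · exact (hb (u 2) (by nlinarith [mul_self_nonneg (u 1), mul_self_nonneg (u 0)])).2
        · intro hq
          exact hq.elim
      rw [this, measure_empty]
  calc ∫⁻ u, volume (Prod.mk u ⁻¹' S') ≤ ∫⁻ u,
      (Icc (fun _ => (-2 : ℝ)) (fun _ => (2 : ℝ)) : Set (Fin 3 → ℝ)).indicator (fun _ => (20 : ℝ≥0∞)) u :=
        lintegral_mono hin
    _ = 20 * volume (Icc (fun _ => (-2 : ℝ)) (fun _ => (2 : ℝ)) : Set (Fin 3 → ℝ)) := by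
        rw [lintegral_indicator_const measurableSet_Icc]
    _ < ∞ := by
        apply ENNReal.mul_lt_top (by norm_num)
        exact isCompact_Icc.measure_lt_top

end Pool.Agent.Helper679_TR
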