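import Pool.Agent.Helper679_TR.Cone
import Pool.Agent.Helper679_TR.VolSS

/-! The fundamental domain, the length function, the decay. -/

namespace Pool.Agent.Helper679_TR

open Set MeasureTheory Filter
open scoped ENNReal Topology

set_option linter.deprecated false

theorem exists_section {Γ X : Type} [Group Γ] [Countable Γ] [MulAction Γ X] [MeasurableSpace X]
    (hact : ∀ g : Γ, Measurable fun x : X => g • x) (W : ℕ → Set X)
    (hW : ∀ i, MeasurableSet (W i)) (hd : ∀ i (g : Γ), g ≠ 1 → ∀ x ∈ W i, g • x ∉ W i)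
    (hcov : ∀ x, ∃ i, ∃ g : Γ, g • x ∈ W i) :
    ∃ σ : X → Γ, (∀ g, MeasurableSet {x | σ x = g}) ∧ (∀ (h : Γ) x, σ (h • x) = σ x * h⁻¹) ∧
      ∀ x, σ x = 1 → ∃ i, x ∈ W i := by
  classical
  have huniq : ∀ i x (g g' : Γ), g • x ∈ W i → g' • x ∈ W i → g = g' := by
    intro i x g g' h1 h2
    by_contra hne
    refine hd i (g' * g⁻¹) (fun h => hne (mul_inv_eq_one.1 h).symm) _ h1 ?_
    rwa [smul_smul, inv_mul_cancel_right]
  choose σ hσ using fun x => Nat.find_spec (hcov x)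
  have key : ∀ x g, σ x = g ↔ ∃ i, g • x ∈ W i ∧ ∀ j < i, ∀ g' : Γ, g' • x ∉ W j := by
    intro x g
    constructor
    · rintro rfl
      exact ⟨_, hσ x, fun j hj g' hg' => Nat.find_min (hcov x) hj ⟨g', hg'⟩⟩
    · rintro ⟨i, hi, hj⟩
      have h1 : Nat.find (hcov x) = i := by
        rw [Nat.find_eq_iff]
        exact ⟨⟨g, hi⟩, fun n hn ⟨g', hg'⟩ => hj n hn g' hg'⟩
      have h2 := hσ x
      rw [h1] at h2
      exact huniq i x _ _ h2 hi
  refine ⟨σ, ?_, ?_, ?_⟩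
  · intro g
    have : {x | σ x = g} = ⋃ i, ({x | g • x ∈ W i} ∩ ⋂ j : {j // j < i}, ⋂ g' : Γ,
        {x | g' • x ∈ W j}ᶜ) := by
      ext x
      rw [Set.mem_setOf_eq, key]
      simp only [Set.mem_iUnion, Set.mem_inter_iff, Set.mem_setOf_eq, Set.mem_iInter,
        Set.mem_compl_iff, Subtype.forall]
    rw [this]
    refine MeasurableSet.iUnion fun i => (hact g (hW i)).inter ?_
    exact MeasurableSet.iInter fun j => MeasurableSet.iInter fun g' => (hact g' (hW j)).compl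
  · intro h x
    rw [key]
    obtain ⟨i, hi, hj⟩ := (key x (σ x)).1 rfl
    refine ⟨i, ?_, ?_⟩
    · rwa [smul_smul, inv_mul_cancel_right]
    · intro j hji g' hg'
      rw [smul_smul] at hg'
      exact hj j hji _ hg'
  · intro x hx
    obtain ⟨i, hi, -⟩ := (key x 1).1 hx
    exact ⟨i, by rwa [one_smul] at hi⟩

/-- the section for our space -/
theorem exists_sigma : ∃ σ : XX → Gm, (∀ g, MeasurableSet {x | σ x = g}) ∧
    (∀ (h : Gm) x, σ (h • x) = σ x * h⁻¹) ∧ ∀ x, σ x = 1 → (x : Om) ∈ SS := by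
  obtain ⟨U, hU, hcov, hd⟩ := exists_cover
  obtain ⟨σ, h1, h2, h3⟩ := exists_section (Γ := Gm) (X := XX) (fun g => (mp_smul g).measurable)
    (fun i => (Subtype.val ⁻¹' (U i ∩ SS) : Set XX))
    (fun i => measurable_subtype_coe ((hU i).measurableSet.inter measurableSet_SS))
    (fun i g hg x hx hx' => hd i g hg x.1 hx.1 hx'.1)
    (fun x => by
      obtain ⟨g, hg⟩ := reduction_of_low x.1 x.2.1 x.2.2.1 (ph_low x.1 x.2.1)
      obtain ⟨i, hi⟩ := hcov (lact g x.1) (xx_lact g x.2).1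
      exact ⟨i, g, hi, hg⟩)
  exact ⟨σ, h1, h2, fun x hx => by
    obtain ⟨i, hi⟩ := h3 x hx
    exact hi.2⟩

/-! ### a length function -/

/-- the sum of the absolute values of the entries -/
def nn (g : Matrix (Fin 3) (Fin 3) ℤ) : ℝ := ∑ i, ∑ j, |(g i j : ℝ)|

theorem nn_mul (g h : Matrix (Fin 3) (Fin 3) ℤ) : nn (g * h) ≤ nn g * nn h := by
  have h1 : ∀ k, ∑ j, |(h k j : ℝ)| ≤ nn h := fun k =>
    Finset.single_le_sum (f := fun k => ∑ j, |(h k j : ℝ)|)
      (fun k _ => Finset.sum_nonneg fun j _ => abs_nonneg _) (Finset.mem_univ k)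
  calc nn (g * h) ≤ ∑ i, ∑ j, ∑ k, |(g i k : ℝ)| * |(h k j : ℝ)| := by
        unfold nn
        refine Finset.sum_le_sum fun i _ => Finset.sum_le_sum fun j _ => ?_
        rw [Matrix.mul_apply]
        push_cast
        refine (Finset.abs_sum_le_sum_abs _ _).trans (le_of_eq ?_)
        exact Finset.sum_congr rfl fun k _ => abs_mul _ _
    _ = ∑ i, ∑ k, |(g i k : ℝ)| * ∑ j, |(h k j : ℝ)| := by
        refine Finset.sum_congr rfl fun i _ => ?_
        rw [Finset.sum_comm]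
        exact Finset.sum_congr rfl fun k _ => (Finset.mul_sum _ _ _).symm
    _ ≤ ∑ i, ∑ k, |(g i k : ℝ)| * nn h := by
        refine Finset.sum_le_sum fun i _ => Finset.sum_le_sum fun k _ => ?_
        exact mul_le_mul_of_nonneg_left (h1 k) (abs_nonneg _)
    _ = nn g * nn h := by
        unfold nn
        rw [Finset.sum_mul]
        exact Finset.sum_congr rfl fun i _ => (Finset.sum_mul _ _ _).symm

theorem nn_ge (g : Gm) : 1 ≤ nn (g : Matrix (Fin 3) (Fin 3) ℤ) := by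
  have h0 : (g : Matrix (Fin 3) (Fin 3) ℤ) ≠ 0 := g.ne_zero
  obtain ⟨i, j, hij⟩ : ∃ i j, (g : Matrix (Fin 3) (Fin 3) ℤ) i j ≠ 0 := by
    by_contra hcon
    push Not at hcon
    exact h0 (Matrix.ext hcon)
  have h1 : (1 : ℝ) ≤ |((g : Matrix (Fin 3) (Fin 3) ℤ) i j : ℝ)| := by
    exact_mod_cast Int.one_le_abs hij
  have h2 : |((g : Matrix (Fin 3) (Fin 3) ℤ) i j : ℝ)| ≤
      ∑ j, |((g : Matrix (Fin 3) (Fin 3) ℤ) i j : ℝ)| :=
    Finset.single_le_sum (f := fun j => |((g : Matrix (Fin 3) (Fin 3) ℤ) i j : ℝ)|)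
      (fun j _ => abs_nonneg _) (Finset.mem_univ j)
  have h3 : ∑ j, |((g : Matrix (Fin 3) (Fin 3) ℤ) i j : ℝ)| ≤ nn (g : Matrix (Fin 3) (Fin 3) ℤ) :=
    Finset.single_le_sum (f := fun i => ∑ j, |((g : Matrix (Fin 3) (Fin 3) ℤ) i j : ℝ)|)
      (fun i _ => Finset.sum_nonneg fun j _ => abs_nonneg _) (Finset.mem_univ i)
  linarith

open Classical in
/-- the length -/
noncomputable def rho (g : Gm) : ℝ≥0∞ :=
  if g = 1 then 0 else ENNReal.ofReal (Real.log (nn (g : Matrix (Fin 3) (Fin 3) ℤ)))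

theorem rho_one : rho 1 = 0 := by
  unfold rho
  rw [if_pos rfl]

theorem rho_ne (g : Gm) : rho g ≠ ∞ := by
  unfold rho
  split_ifs
  · exact ENNReal.zero_ne_top
  · exact ENNReal.ofReal_ne_top

theorem rho_mul (g h : Gm) : rho (g * h) ≤ rho g + rho h := by
  by_cases hg : g = 1
  · rw [hg, one_mul, rho_one, zero_add]
  by_cases hh : h = 1
  · rw [hh, mul_one, rho_one, add_zero]
  by_cases hgh : g * h = 1
  · rw [hgh, rho_one]
    exact bot_le
  unfold rho
  rw [if_neg hg, if_neg hh, if_neg hgh, ← ENNReal.ofReal_add (Real.log_nonneg (nn_ge g))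
    (Real.log_nonneg (nn_ge h))]
  apply ENNReal.ofReal_le_ofReal
  rw [← Real.log_mul (by have := nn_ge g; linarith) (by have := nn_ge h; linarith)]
  apply Real.log_le_log (by have := nn_ge (g * h); linarith)
  rw [Units.val_mul]
  exact nn_mul _ _

theorem fin_nn (N : ℝ) : {g : Gm | nn (g : Matrix (Fin 3) (Fin 3) ℤ) ≤ N}.Finite := by
  have h1 : (Set.pi Set.univ fun _ : Fin 3 => Set.pi Set.univ fun _ : Fin 3 =>
      Set.Icc (-⌈N⌉) ⌈N⌉).Finite :=
    Set.Finite.pi fun _ => Set.Finite.pi fun _ => Set.finite_Icc _ _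
  have h2 : Set.InjOn (fun g : Gm => (fun i j => (g : Matrix (Fin 3) (Fin 3) ℤ) i j :
      Fin 3 → Fin 3 → ℤ)) Set.univ := by
    intro g _ h _ hgh
    exact Units.ext hgh
  refine Set.Finite.subset (h1.preimage (h2.mono (Set.subset_univ _))) ?_
  intro g hg
  have hg' : nn (g : Matrix (Fin 3) (Fin 3) ℤ) ≤ N := hg
  rw [Set.mem_preimage, Set.mem_univ_pi]
  intro i
  rw [Set.mem_univ_pi]
  intro j
  have h2 : |((g : Matrix (Fin 3) (Fin 3) ℤ) i j : ℝ)| ≤
      ∑ j, |((g : Matrix (Fin 3) (Fin 3) ℤ) i j : ℝ)| :=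
    Finset.single_le_sum (f := fun j => |((g : Matrix (Fin 3) (Fin 3) ℤ) i j : ℝ)|)
      (fun j _ => abs_nonneg _) (Finset.mem_univ j)
  have h3 : ∑ j, |((g : Matrix (Fin 3) (Fin 3) ℤ) i j : ℝ)| ≤ nn (g : Matrix (Fin 3) (Fin 3) ℤ) :=
    Finset.single_le_sum (f := fun i => ∑ j, |((g : Matrix (Fin 3) (Fin 3) ℤ) i j : ℝ)|)
      (fun i _ => Finset.sum_nonneg fun j _ => abs_nonneg _) (Finset.mem_univ i)
  have h4 : ((|(g : Matrix (Fin 3) (Fin 3) ℤ) i j| : ℤ) : ℝ) ≤ N := by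
    push_cast
    linarith
  have h5 : |(g : Matrix (Fin 3) (Fin 3) ℤ) i j| ≤ ⌈N⌉ := by
    exact_mod_cast h4.trans (Int.le_ceil N)
  exact Set.mem_Icc.2 (abs_le.1 h5)

theorem rho_fin (K : ℝ≥0∞) (hK : K ≠ ∞) : {g | rho g ≤ K}.Finite := by
  refine Set.Finite.subset ((fin_nn (Real.exp K.toReal)).union (Set.finite_singleton 1)) ?_
  intro g hg
  by_cases h1 : g = 1
  · exact Or.inr h1
  left
  have hg' : rho g ≤ K := hg
  unfold rho at hg'
  rw [if_neg h1, ENNReal.ofReal_le_iff_le_toReal hK] at hg'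
  have h2 := nn_ge g
  show nn (g : Matrix (Fin 3) (Fin 3) ℤ) ≤ Real.exp K.toReal
  rwa [← Real.log_le_iff_le_exp (by linarith)]

end Pool.Agent.Helper679_TR
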