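import Mathlib

/-! Weighted distances in trees, by separating edges. -/

namespace Pool.Agent.Helper679_TR

open Set MeasureTheory
open scoped ENNReal

section graph

variable {V : Type}

/-- the edge `{s, t}` separates `u` and `v` -/
def Sp (G : SimpleGraph V) (u v s t : V) : Prop :=
  G.Adj s t ∧ ¬ (G.deleteEdges {s(s, t)}).Reachable u v

variable {G : SimpleGraph V}

theorem sp_refl (u s t : V) : ¬ Sp G u u s t := fun h => h.2 (SimpleGraph.Reachable.refl u)

theorem sp_symm {u v s t : V} (h : Sp G u v s t) : Sp G v u s t := ⟨h.1, fun h1 => h.2 h1.symm⟩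

theorem sp_tri {u v u' v' s t : V} (h : Sp G u v s t) :
    Sp G u' v' s t ∨ Sp G u u' s t ∨ Sp G v v' s t := by
  by_contra hcon
  push Not at hcon
  obtain ⟨h1, h2, h3⟩ := hcon
  have g1 : (G.deleteEdges {s(s, t)}).Reachable u' v' := by
    by_contra h4
    exact h1 ⟨h.1, h4⟩
  have g2 : (G.deleteEdges {s(s, t)}).Reachable u u' := by
    by_contra h4
    exact h2 ⟨h.1, h4⟩
  have g3 : (G.deleteEdges {s(s, t)}).Reachable v v' := by
    by_contra h4
    exact h3 ⟨h.1, h4⟩
  exact h.2 ((g2.trans g1).trans g3.symm)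

theorem sp_adj {u v s t : V} (huv : G.Adj u v) (h : Sp G u v s t) :
    (s = u ∧ t = v) ∨ (s = v ∧ t = u) := by
  by_contra hcon
  apply h.2
  apply SimpleGraph.Adj.reachable
  rw [SimpleGraph.deleteEdges_adj]
  refine ⟨huv, ?_⟩
  rw [Set.mem_singleton_iff, Sym2.eq_iff]
  intro h1
  apply hcon
  rcases h1 with ⟨h1, h2⟩ | ⟨h1, h2⟩
  · exact Or.inl ⟨h1.symm, h2.symm⟩
  · exact Or.inr ⟨h2.symm, h1.symm⟩

theorem sp_path (hG : G.IsAcyclic) {u v s t : V} (p : G.Path u v) (h : s(s, t) ∈ p.1.edges) :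
    Sp G u v s t := by
  refine ⟨p.1.adj_of_mem_edges h, ?_⟩
  intro hr
  classical
  obtain ⟨q⟩ := hr
  set q' := q.toPath with hq'
  have hle : G.deleteEdges {s(s, t)} ≤ G := SimpleGraph.deleteEdges_le _
  set r : G.Path u v := ⟨q'.1.mapLe hle, (SimpleGraph.Walk.isPath_mapLe hle).2 q'.2⟩ with hr
  have h1 : p = r := (hG.subsingleton_path u v).elim p r
  rw [h1] at h
  have h2 : s(s, t) ∈ q'.1.edges := by
    have : (q'.1.mapLe hle).edges = q'.1.edges := by simp
    rw [← this]
    exact h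
  have h3 := q'.1.edges_subset_edgeSet h2
  rw [SimpleGraph.edgeSet_deleteEdges] at h3
  exact h3.2 rfl

/-- isomorphic graphs -/
theorem sp_iso {G G' : SimpleGraph V} (e : V ≃ V) (h : ∀ s t, G.Adj s t ↔ G'.Adj (e s) (e t))
    (u v s t : V) : Sp G u v s t ↔ Sp G' (e u) (e v) (e s) (e t) := by
  unfold Sp
  rw [h s t]
  refine and_congr Iff.rfl (not_congr ?_)
  let f : (G.deleteEdges {s(s, t)}) ≃g (G'.deleteEdges {s(e s, e t)}) :=
    { toEquiv := e
      map_rel_iff' := by
        intro a b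
        simp only [SimpleGraph.deleteEdges_adj, Set.mem_singleton_iff, Sym2.eq_iff,
          EmbeddingLike.apply_eq_iff_eq]
        rw [h a b] }
  exact (SimpleGraph.Iso.reachable_iff (φ := f)).symm

open Classical in
/-- the weight of the edge `(s, t)` if it separates -/
noncomputable def wt (c : V → V → ℝ≥0∞) (G : SimpleGraph V) (u v s t : V) : ℝ≥0∞ :=
  if Sp G u v s t then c s t else 0

/-- the mass at `s` of the path from `u` to `v` -/
noncomputable def ms (c : V → V → ℝ≥0∞) (G : SimpleGraph V) (u v s : V) : ℝ≥0∞ :=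
  ∑' t, wt c G u v s t

/-- the weighted distance -/
noncomputable def ds (c : V → V → ℝ≥0∞) (G : SimpleGraph V) (u v : V) : ℝ≥0∞ :=
  ∑' s, ms c G u v s

variable {c : V → V → ℝ≥0∞}

theorem wt_congr {G' : SimpleGraph V} {u v s t u' v' s' t' : V}
    (h : Sp G u v s t ↔ Sp G' u' v' s' t') (hc : c s t = c s' t') :
    wt c G u v s t = wt c G' u' v' s' t' := by
  unfold wt
  by_cases h1 : Sp G u v s t
  · rw [if_pos h1, if_pos (h.1 h1), hc]
  · rw [if_neg h1, if_neg (fun h2 => h1 (h.2 h2))]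

theorem wt_tri (u v u' v' s t : V) :
    wt c G u v s t ≤ wt c G u' v' s t + (wt c G u u' s t + wt c G v v' s t) := by
  unfold wt
  by_cases h : Sp G u v s t
  · rw [if_pos h]
    rcases sp_tri (u' := u') (v' := v') h with h1 | h1 | h1
    · rw [if_pos h1]
      exact le_self_add
    · rw [if_pos h1]
      exact le_add_left le_self_add
    · rw [if_pos h1]
      exact le_add_left (le_add_left le_rfl)
  · rw [if_neg h]
    exact bot_le

theorem ms_tri (u v u' v' s : V) :
    ms c G u v s ≤ ms c G u' v' s + (ms c G u u' s + ms c G v v' s) := by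
  unfold ms
  rw [← ENNReal.tsum_add, ← ENNReal.tsum_add]
  exact ENNReal.tsum_le_tsum fun t => wt_tri _ _ _ _ _ _

theorem ds_tri (u v u' v' : V) :
    ds c G u v ≤ ds c G u' v' + (ds c G u u' + ds c G v v') := by
  unfold ds
  rw [← ENNReal.tsum_add, ← ENNReal.tsum_add]
  exact ENNReal.tsum_le_tsum fun t => ms_tri _ _ _ _ _

theorem wt_self (u s t : V) : wt c G u u s t = 0 := by
  unfold wt
  rw [if_neg (sp_refl u s t)]

theorem ds_self (u : V) : ds c G u u = 0 := by
  unfold ds ms
  simp only [wt_self, tsum_zero]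

theorem ds_symm (u v : V) : ds c G u v = ds c G v u := by
  unfold ds ms
  refine tsum_congr fun s => tsum_congr fun t => ?_
  exact wt_congr ⟨sp_symm, sp_symm⟩ rfl

theorem ds_triangle (u v w : V) : ds c G u w ≤ ds c G u v + ds c G v w := by
  have h := ds_tri (c := c) (G := G) u w v v
  rwa [ds_self, zero_add, ds_symm w v] at h

theorem ds_adj {u v : V} (h : G.Adj u v) : ds c G u v ≤ c u v + c v u := by
  classical
  have h1 : ∀ s t, wt c G u v s t ≤ (if s = u ∧ t = v then c u v else 0) +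
      (if s = v ∧ t = u then c v u else 0) := by
    intro s t
    unfold wt
    by_cases hs : Sp G u v s t
    · rw [if_pos hs]
      rcases sp_adj h hs with ⟨rfl, rfl⟩ | ⟨rfl, rfl⟩
      · rw [if_pos ⟨rfl, rfl⟩]
        exact le_self_add
      · rw [if_pos (⟨rfl, rfl⟩ : _ ∧ _)]
        exact le_add_left le_rfl
    · rw [if_neg hs]
      exact bot_le
  have h2 : ∀ a b : V, ∀ r : ℝ≥0∞, ∑' s, ∑' t, (if s = a ∧ t = b then r else 0) = r := by
    intro a b r
    rw [tsum_eq_single a, tsum_eq_single b]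
    · simp
    · intro t ht
      simp [ht]
    · intro s hs
      simp [hs]
  calc ds c G u v ≤ ∑' s, ∑' t, ((if s = u ∧ t = v then c u v else 0) +
      (if s = v ∧ t = u then c v u else 0)) :=
        ENNReal.tsum_le_tsum fun s => ENNReal.tsum_le_tsum fun t => h1 s t
    _ = c u v + c v u := by
        simp only [ENNReal.tsum_add]
        rw [h2, h2]

theorem ds_ne_top (hG : G.Connected) (hc : ∀ s t, c s t ≠ ∞) (u v : V) : ds c G u v ≠ ∞ := by
  obtain ⟨p⟩ := hG.preconnected u v
  induction p with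
  | nil => rw [ds_self]; exact ENNReal.zero_ne_top
  | @cons u w v h p ih =>
    refine ne_top_of_le_ne_top ?_ (ds_triangle u w v)
    exact ENNReal.add_ne_top.2 ⟨ne_top_of_le_ne_top (ENNReal.add_ne_top.2 ⟨hc _ _, hc _ _⟩)
      (ds_adj h), ih⟩

theorem ms_le_ds (u v s : V) : ms c G u v s ≤ ds c G u v := ENNReal.le_tsum s

/-- the sum along a walk -/
noncomputable def wsum (c : V → V → ℝ≥0∞) {u v : V} (p : G.Walk u v) : ℝ≥0∞ :=
  (p.darts.map fun d => c d.fst d.snd).sum

theorem le_wsum (h0 : ∀ u, c u u = 0) (htr : ∀ u v w, c u w ≤ c u v + c v w) {u v : V}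
    (p : G.Walk u v) : c u v ≤ wsum c p := by
  induction p with
  | nil => rw [h0]; exact bot_le
  | @cons u w v h p ih =>
    have : wsum c (SimpleGraph.Walk.cons h p) = c u w + wsum c p := by
      simp [wsum]
    rw [this]
    exact (htr u w v).trans (by gcongr)

theorem wsum_le_ds (hG : G.IsAcyclic) {u v : V} (p : G.Path u v) : wsum c p.1 ≤ ds c G u v := by
  classical
  have hnd : p.1.darts.Nodup := p.2.isTrail.edges_nodup.of_map _
  have e1 : ds c G u v = ∑' q : V × V, wt c G u v q.1 q.2 := by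
    rw [ENNReal.tsum_prod]
    rfl
  have hinj : Function.Injective fun d : G.Dart => (d.fst, d.snd) := by
    intro d d' h
    exact SimpleGraph.Dart.ext _ _ (by simpa using h)
  have e2 : wsum c p.1 = ∑ q ∈ (p.1.darts.map fun d => (d.fst, d.snd)).toFinset, c q.1 q.2 := by
    rw [List.sum_toFinset _ (hnd.map hinj), List.map_map]
    rfl
  rw [e1, e2]
  refine le_trans (Finset.sum_le_sum (g := fun q => wt c G u v q.1 q.2) ?_)
    (ENNReal.sum_le_tsum _)
  intro q hq
  rw [List.mem_toFinset, List.mem_map] at hq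
  obtain ⟨d, hd, rfl⟩ := hq
  have h1 : s(d.fst, d.snd) ∈ p.1.edges := by
    rw [SimpleGraph.Walk.edges, List.mem_map]
    exact ⟨d, hd, rfl⟩
  show c d.fst d.snd ≤ wt c G u v d.fst d.snd
  unfold wt
  rw [if_pos (sp_path hG p h1)]

theorem le_ds (hG : G.IsTree) (h0 : ∀ u, c u u = 0) (htr : ∀ u v w, c u w ≤ c u v + c v w)
    (u v : V) : c u v ≤ ds c G u v := by
  classical
  obtain ⟨p⟩ := hG.1.preconnected u v
  exact (le_wsum h0 htr p.toPath.1).trans (wsum_le_ds hG.2 p.toPath)

theorem ms_iso {G G' : SimpleGraph V} (e : V ≃ V) (h : ∀ s t, G.Adj s t ↔ G'.Adj (e s) (e t))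
    (hc : ∀ s t, c (e s) (e t) = c s t) (u v s : V) :
    ms c G u v s = ms c G' (e u) (e v) (e s) := by
  unfold ms
  rw [← e.tsum_eq (fun t => wt c G' (e u) (e v) (e s) t)]
  exact tsum_congr fun t => wt_congr (sp_iso e h u v s t) (hc s t).symm

theorem ds_iso {G G' : SimpleGraph V} (e : V ≃ V) (h : ∀ s t, G.Adj s t ↔ G'.Adj (e s) (e t))
    (hc : ∀ s t, c (e s) (e t) = c s t) (u v : V) :
    ds c G u v = ds c G' (e u) (e v) := by
  unfold ds
  rw [← e.tsum_eq (fun s => ms c G' (e u) (e v) s)]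
  exact tsum_congr fun s => ms_iso e h hc u v s

end graph

end Pool.Agent.Helper679_TR
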